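import Mathlib

/-!
# Bounded Hochschild cohomology of C*-subalgebras of B(H) with values in B(H)

Definitions for MP_10e0c3_an and the transport lemma for coboundaries.
-/

namespace Pool.H5Coh

/-- `n`-cochains: bounded `n`-linear maps `A^n → B(H)`. For `n = 0` these are the elements of `B(H)`
(the values at the empty tuple). -/
abbrev Cochain {H : Type*} [NormedAddCommGroup H] [InnerProductSpace ℂ H] [CompleteSpace H]
    (A : NonUnitalStarSubalgebra ℂ (H →L[ℂ] H)) (n : ℕ) : Type _ :=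
  ContinuousMultilinearMap ℂ (fun _ : Fin n => A) (H →L[ℂ] H)

/-- The contraction `(a_0, ..., a_n) ↦ (a_0, ..., a_i a_{i+1}, ..., a_n)`. -/
def contract {A : Type*} [Mul A] {n : ℕ} (i : Fin n) (a : Fin (n + 1) → A) : Fin n → A :=
  fun j => if j < i then a j.castSucc else if j = i then a i.castSucc * a i.succ else a j.succ

/-- The Hochschild coboundary formula, for functions with values in an algebra `L` and a
map `π : A → L` giving the bimodule structure. -/
noncomputable def cob {A L : Type*} [Mul A] [Ring L] [Algebra ℂ L] (π : A → L) {n : ℕ}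
    (F : (Fin n → A) → L) (a : Fin (n + 1) → A) : L :=
  π (a 0) * F (fun i => a i.succ)
    + ∑ i : Fin n, (-1 : ℂ) ^ (i.val + 1) • F (contract i a)
    + (-1 : ℂ) ^ (n + 1) • (F (fun i => a i.castSucc) * π (a (Fin.last n)))

/-- The Hochschild coboundary of a cochain `f` of `A ⊆ B(H)`, evaluated at `a_0, ..., a_n`:
`a_0 f(a_1, ..., a_n) + ∑ (-1)^(i+1) f(..., a_i a_{i+1}, ...) + (-1)^(n+1) f(a_0, ..., a_{n-1}) a_n`. -/
noncomputable def cobdy {H : Type*} [NormedAddCommGroup H] [InnerProductSpace ℂ H]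
    [CompleteSpace H] (A : NonUnitalStarSubalgebra ℂ (H →L[ℂ] H)) {n : ℕ} (f : Cochain A n)
    (a : Fin (n + 1) → A) : H →L[ℂ] H :=
  (a 0 : H →L[ℂ] H) * f (fun i => a i.succ)
    + ∑ i : Fin n, (-1 : ℂ) ^ (i.val + 1) • f (contract i a)
    + (-1 : ℂ) ^ (n + 1) • (f (fun i => a i.castSucc) * (a (Fin.last n) : H →L[ℂ] H))

/-- `H^(m+1)(A, B(H)) = 0`: every bounded `(m+1)`-cocycle is the coboundary of a bounded
`m`-cochain. -/
def CohomologyVanishes {H : Type*} [NormedAddCommGroup H] [InnerProductSpace ℂ H]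
    [CompleteSpace H] (A : NonUnitalStarSubalgebra ℂ (H →L[ℂ] H)) (m : ℕ) : Prop :=
  ∀ f : Cochain A (m + 1), (∀ a, cobdy A f a = 0) → ∃ g : Cochain A m, ∀ a, cobdy A g a = f a

/-- `H^(m+1)(A, B(H)) = 0` with constant `K`. -/
def VanishesWith {H : Type*} [NormedAddCommGroup H] [InnerProductSpace ℂ H]
    [CompleteSpace H] (A : NonUnitalStarSubalgebra ℂ (H →L[ℂ] H)) (m : ℕ) (K : ℝ) : Prop :=
  ∀ f : Cochain A (m + 1), (∀ a, cobdy A f a = 0) →
    ∃ g : Cochain A m, (∀ a, cobdy A g a = f a) ∧ ‖g‖ ≤ K * ‖f‖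

/-- The C*-algebra generated by a set `S` of operators: the norm closure of the (non-unital)
*-subalgebra generated by `S`. -/
noncomputable def cstar {H : Type*} [NormedAddCommGroup H] [InnerProductSpace ℂ H]
    [CompleteSpace H] (S : Set (H →L[ℂ] H)) : NonUnitalStarSubalgebra ℂ (H →L[ℂ] H) :=
  (NonUnitalStarAlgebra.adjoin ℂ S).topologicalClosure

section Cstar

variable {H : Type*} [NormedAddCommGroup H] [InnerProductSpace ℂ H] [CompleteSpace H]
  {S : Set (H →L[ℂ] H)}

theorem isClosed_cstar : IsClosed (cstar S : Set (H →L[ℂ] H)) :=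
  NonUnitalStarSubalgebra.isClosed_topologicalClosure _

theorem subset_cstar : S ⊆ (cstar S : Set (H →L[ℂ] H)) := fun s hs =>
  NonUnitalStarSubalgebra.le_topologicalClosure _ (NonUnitalStarAlgebra.subset_adjoin ℂ S hs)

theorem cstar_le {C : NonUnitalStarSubalgebra ℂ (H →L[ℂ] H)}
    (hC : IsClosed (C : Set (H →L[ℂ] H))) (h : S ⊆ C) : cstar S ≤ C :=
  NonUnitalStarSubalgebra.topologicalClosure_minimal _ (NonUnitalStarAlgebra.adjoin_le h) hC

end Cstar

section Transport

variable {A B L M : Type*} [Mul A] [Mul B] [Ring L] [Algebra ℂ L] [Ring M] [Algebra ℂ M]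

theorem contract_comp (θ : A → B) (hθ : ∀ x y, θ (x * y) = θ x * θ y) {n : ℕ} (i : Fin n)
    (a : Fin (n + 1) → A) : contract i (fun j => θ (a j)) = fun j => θ (contract i a j) := by
  funext j
  unfold contract
  split_ifs <;> simp [hθ]

/-- Transport of the coboundary along `θ : A → B` and a linear map `c` of the values. -/
theorem cob_transport (π : A → L) (ρ : B → M) (θ : A → B) (hθ : ∀ x y, θ (x * y) = θ x * θ y)
    (c : M →ₗ[ℂ] L) (hl : ∀ a T, c (ρ (θ a) * T) = π a * c T)
    (hr : ∀ a T, c (T * ρ (θ a)) = c T * π a) {n : ℕ} (F : (Fin n → B) → M)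
    (a : Fin (n + 1) → A) :
    cob π (fun b => c (F (fun j => θ (b j)))) a = c (cob ρ F (fun j => θ (a j))) := by
  unfold cob
  rw [map_add, map_add, map_sum, map_smul, hl, hr]
  congr 2
  refine Finset.sum_congr rfl fun i _ => ?_
  rw [map_smul, contract_comp θ hθ]

end Transport

theorem cobdy_eq {H : Type*} [NormedAddCommGroup H] [InnerProductSpace ℂ H]
    [CompleteSpace H] (A : NonUnitalStarSubalgebra ℂ (H →L[ℂ] H)) {n : ℕ} (f : Cochain A n)
    (a : Fin (n + 1) → A) :
    cobdy A f a = cob (fun x : A => (x : H →L[ℂ] H)) (fun b => f b) a := rfl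

end Pool.H5Coh
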