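import Pool.Agent.H5.Coh.Sep

/-!
# Compression to a separable pair
-/

set_option linter.unusedSectionVars false

namespace Pool.H5Coh

open TopologicalSpace

variable {H : Type*} [NormedAddCommGroup H] [InnerProductSpace ℂ H] [CompleteSpace H]

section Comp

variable (Q : Submodule ℂ H) [CompleteSpace Q]

/-- the orthogonal projection as a map onto `Q`. -/
noncomputable def pr : H →L[ℂ] Q := Q.orthogonalProjectionOnto

theorem pr_coe (x : Q) : pr Q (x : H) = x := by
  simp [pr]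

theorem norm_pr_le : ‖pr Q‖ ≤ 1 := Q.orthogonalProjectionOnto_norm_le

theorem inner_pr (x : H) (y : Q) : inner ℂ (pr Q x) y = inner ℂ x (y : H) := by
  have := Submodule.inner_orthogonalProjectionOnto_eq_of_mem_right (𝕜 := ℂ) (K := Q) y x
  simpa [pr] using this

theorem inner_pr' (x : H) (y : Q) : inner ℂ y (pr Q x) = inner ℂ (y : H) x := by
  have := Submodule.inner_orthogonalProjectionOnto_eq_of_mem_left (𝕜 := ℂ) (K := Q) y x
  simpa [pr] using this

/-- compression `T ↦ W T J`. -/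
noncomputable def comp : (H →L[ℂ] H) →L[ℂ] (Q →L[ℂ] Q) :=
  (ContinuousLinearMap.compL ℂ Q H Q (pr Q)).comp
    ((ContinuousLinearMap.compL ℂ Q H H).flip Q.subtypeL)

theorem comp_apply (T : H →L[ℂ] H) (x : Q) : comp Q T x = pr Q (T x) := rfl

/-- expansion `T ↦ J T W`. -/
noncomputable def expd : (Q →L[ℂ] Q) →L[ℂ] (H →L[ℂ] H) :=
  (ContinuousLinearMap.compL ℂ H Q H Q.subtypeL).comp
    ((ContinuousLinearMap.compL ℂ H Q Q).flip (pr Q))

theorem expd_apply (T : Q →L[ℂ] Q) (x : H) : expd Q T x = (T (pr Q x) : H) := rfl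

/-- the projection as an operator. -/
noncomputable def pj : H →L[ℂ] H := Q.subtypeL.comp (pr Q)

theorem pj_apply (x : H) : pj Q x = (pr Q x : H) := rfl

theorem pj_mem (x : H) : pj Q x ∈ Q := (pr Q x).2

theorem pj_of_mem {x : H} (hx : x ∈ Q) : pj Q x = x := by
  rw [pj_apply]
  have := pr_coe Q ⟨x, hx⟩
  simp only at this
  rw [this]

theorem norm_pj_le : ‖pj Q‖ ≤ 1 := by
  refine ContinuousLinearMap.opNorm_le_bound _ zero_le_one fun x => ?_
  rw [pj_apply, ← Submodule.coe_norm]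
  exact (pr Q).le_of_opNorm_le (norm_pr_le Q) x

theorem pj_selfAdjoint (x y : H) : inner ℂ (pj Q x) y = inner ℂ x (pj Q y) := by
  rw [pj_apply, pj_apply, ← inner_pr' Q y, ← inner_pr Q x]

theorem expd_comp (T : H →L[ℂ] H) : expd Q (comp Q T) = pj Q * T * pj Q := by
  ext x
  rfl

theorem comp_star {b : H →L[ℂ] H} : star (comp Q b) = comp Q (star b) := by
  refine ContinuousLinearMap.ext fun x => ext_inner_left ℂ fun y => ?_
  rw [ContinuousLinearMap.star_eq_adjoint, ContinuousLinearMap.adjoint_inner_right,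
    comp_apply, comp_apply, inner_pr, inner_pr', ContinuousLinearMap.star_eq_adjoint,
    ContinuousLinearMap.adjoint_inner_right]

variable {B : NonUnitalStarSubalgebra ℂ (H →L[ℂ] H)} (hinv : ∀ b ∈ B, ∀ x ∈ Q, b x ∈ Q)
include hinv

theorem mul_J {b : H →L[ℂ] H} (hb : b ∈ B) (x : Q) : b (x : H) = (comp Q b x : H) := by
  rw [comp_apply]
  exact (pj_of_mem Q (hinv b hb x x.2)).symm

theorem W_mul {b : H →L[ℂ] H} (hb : b ∈ B) (x : H) : pr Q (b x) = comp Q b (pr Q x) := by
  refine ext_inner_left ℂ fun y => ?_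
  rw [inner_pr', comp_apply, inner_pr']
  have h1 : inner ℂ (y : H) (b x) = inner ℂ ((star b) (y : H)) x := by
    rw [ContinuousLinearMap.star_eq_adjoint, ContinuousLinearMap.adjoint_inner_left]
  have h2 : inner ℂ (y : H) (b (pr Q x : H)) = inner ℂ ((star b) (y : H)) (pr Q x : H) := by
    rw [ContinuousLinearMap.star_eq_adjoint, ContinuousLinearMap.adjoint_inner_left]
  have h3 : (star b) (y : H) ∈ Q := hinv _ (star_mem hb) _ y.2
  rw [h1, h2]
  have := inner_pr' Q x ⟨(star b) (y : H), h3⟩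
  rw [← this]
  rfl

theorem comp_mul_left {b : H →L[ℂ] H} (hb : b ∈ B) (T : H →L[ℂ] H) :
    comp Q (b * T) = comp Q b * comp Q T := by
  ext x
  have h := W_mul Q hinv hb (T (x : H))
  change ((pr Q (b (T (x : H)))) : H) = _
  rw [h]
  rfl

theorem comp_mul_right {b : H →L[ℂ] H} (hb : b ∈ B) (T : H →L[ℂ] H) :
    comp Q (T * b) = comp Q T * comp Q b := by
  ext x
  have h := mul_J Q hinv hb x
  change ((pr Q (T (b (x : H)))) : H) = _
  rw [h]
  rfl

theorem expd_mul_left {b : H →L[ℂ] H} (hb : b ∈ B) (T : Q →L[ℂ] Q) :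
    expd Q (comp Q b * T) = b * expd Q T := by
  ext x
  exact (mul_J Q hinv hb (T (pr Q x))).symm

theorem expd_mul_right {b : H →L[ℂ] H} (hb : b ∈ B) (T : Q →L[ℂ] Q) :
    expd Q (T * comp Q b) = expd Q T * b := by
  ext x
  have h := W_mul Q hinv hb x
  change (T (comp Q b (pr Q x)) : H) = (T (pr Q (b x)) : H)
  rw [h]

theorem pj_comm {b : H →L[ℂ] H} (hb : b ∈ B) : pj Q * b = b * pj Q := by
  ext x
  change (pr Q (b x) : H) = b (pr Q x : H)
  rw [W_mul Q hinv hb x, mul_J Q hinv hb]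

end Comp

end Pool.H5Coh
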