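import Mathlib

/-!
# Bounded Hochschild cohomology of C*-subalgebras of B(H) with values in B(H): definitions

Short forms of the definitions of `Basic.lean`, used in the statements of the hand-ins for MP_10e0c3_an.
-/

namespace Pool.H5Coh.St

open TopologicalSpace

universe u v

/-- `B(H)`: the bounded operators on `H`. -/
abbrev Op (H : Type u) [NormedAddCommGroup H] [InnerProductSpace ℂ H] [CompleteSpace H] : Type u :=
  H →L[ℂ] H

/-- Self-adjoint (not necessarily closed or unital) subalgebras of `B(H)`. -/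
abbrev SubAlg (H : Type u) [NormedAddCommGroup H] [InnerProductSpace ℂ H] [CompleteSpace H] : Type u :=
  NonUnitalStarSubalgebra ℂ (Op H)

variable {H : Type u} [NormedAddCommGroup H] [InnerProductSpace ℂ H] [CompleteSpace H]

/-- The elements of `A ⊆ B(H)`, with the operator norm. -/
def El (A : SubAlg H) : Type u := A

noncomputable instance El.normedAddCommGroup (A : SubAlg H) : NormedAddCommGroup (El A) :=
  (inferInstance : NormedAddCommGroup A)

noncomputable instance El.normedSpace (A : SubAlg H) : NormedSpace ℂ (El A) :=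
  (inferInstance : NormedSpace ℂ A)

noncomputable instance El.mul (A : SubAlg H) : Mul (El A) := (inferInstance : Mul A)

/-- An element of `A ⊆ B(H)` as an operator. -/
def El.op {A : SubAlg H} (a : El A) : Op H := Subtype.val a

/-- `n`-cochains: bounded `n`-linear maps `A^n → B(H)`. For `n = 0` these are the elements of `B(H)`
(the values at the empty tuple). -/
abbrev Cochain (A : SubAlg H) (n : ℕ) : Type u :=
  ContinuousMultilinearMap ℂ (fun _ : Fin n => El A) (Op H)

/-- The contraction `(a_0, ..., a_n) ↦ (a_0, ..., a_i a_{i+1}, ..., a_n)`. -/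
def contract {E : Type u} [Mul E] {n : ℕ} (i : Fin n) (a : Fin (n + 1) → E) : Fin n → E :=
  fun j => if j < i then a j.castSucc else if j = i then a i.castSucc * a i.succ else a j.succ

/-- The Hochschild coboundary of a cochain `f` of `A ⊆ B(H)`, evaluated at `a_0, ..., a_n`:
`a_0 f(a_1, ..., a_n) + ∑ (-1)^(i+1) f(..., a_i a_{i+1}, ...) + (-1)^(n+1) f(a_0, ..., a_{n-1}) a_n`. -/
noncomputable def cobdy {A : SubAlg H} {n : ℕ} (f : Cochain A n) (a : Fin (n + 1) → El A) :
    Op H :=
  (a 0).op * f (fun i => a i.succ)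
    + ∑ i : Fin n, (-1 : ℂ) ^ (i.val + 1) • f (contract i a)
    + (-1 : ℂ) ^ (n + 1) • (f (fun i => a i.castSucc) * (a (Fin.last n)).op)

/-- `f` is a cocycle. -/
def IsCocycle {A : SubAlg H} {n : ℕ} (f : Cochain A n) : Prop := ∀ a, cobdy f a = 0

/-- `f` is the coboundary of `g`. -/
def IsCobdy {A : SubAlg H} {n : ℕ} (g : Cochain A n) (f : Cochain A (n + 1)) : Prop :=
  ∀ a, cobdy g a = f a

/-- `H^(m+1)(A, B(H)) = 0`: every bounded `(m+1)`-cocycle is the coboundary of a bounded
`m`-cochain. -/
def CohomologyVanishes (A : SubAlg H) (m : ℕ) : Prop :=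
  ∀ f : Cochain A (m + 1), IsCocycle f → ∃ g : Cochain A m, IsCobdy g f

/-- `H^(m+1)(A, B(H)) = 0` with constant `K`. -/
def VanishesWith (A : SubAlg H) (m : ℕ) (K : ℝ) : Prop :=
  ∀ f : Cochain A (m + 1), IsCocycle f → ∃ g : Cochain A m, IsCobdy g f ∧ ‖g‖ ≤ K * ‖f‖

/-- `f` and `h` are cohomologous: they differ by the coboundary of a bounded cochain. -/
def Cohomologous {A : SubAlg H} {n : ℕ} (f h : Cochain A (n + 1)) : Prop :=
  ∃ g : Cochain A n, ∀ a, f a = cobdy g a + h a

/-- `H^(m+1)(A, B(H))` is separable in its quotient seminorm: there is a sequence `F` of cocycles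
such that each bounded `(m+1)`-cocycle is, for each `ε > 0`, cohomologous to some `F i + h` with a
cocycle `h` of norm less than `ε`. -/
def SeparableQuotient (A : SubAlg H) (m : ℕ) : Prop :=
  ∃ F : ℕ → Cochain A (m + 1), (∀ i, IsCocycle (F i)) ∧
    ∀ f : Cochain A (m + 1), IsCocycle f → ∀ ε : ℝ, 0 < ε →
      ∃ (i : ℕ) (h : Cochain A (m + 1)), IsCocycle h ∧ Cohomologous f (F i + h) ∧ ‖h‖ < ε

/-- Each nonzero bounded `(m+1)`-cocycle is cohomologous to a cocycle of strictly smaller norm. -/
def NoMinimalCocycle (A : SubAlg H) (m : ℕ) : Prop :=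
  ∀ f : Cochain A (m + 1), IsCocycle f → f ≠ 0 →
    ∃ h : Cochain A (m + 1), IsCocycle h ∧ Cohomologous f h ∧ ‖h‖ < ‖f‖

/-- `A` is norm-closed, i.e. a C*-algebra. -/
def Closed (A : SubAlg H) : Prop := IsClosed {T : Op H | T ∈ A}

/-- `A` is norm-separable. -/
def Separable (A : SubAlg H) : Prop := IsSeparable {T : Op H | T ∈ A}

/-- The Hilbert space `ℓ²(ι)` of square-summable complex families indexed by `ι`. -/
def l2 (ι : Type u) : Type u := lp (fun _ : ι => ℂ) 2

noncomputable instance l2.normedAddCommGroup (ι : Type u) : NormedAddCommGroup (l2 ι) :=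
  lp.normedAddCommGroup (E := fun _ : ι => ℂ) (p := 2)

noncomputable instance l2.innerProductSpace (ι : Type u) : InnerProductSpace ℂ (l2 ι) :=
  lp.instInnerProductSpace (G := fun _ : ι => ℂ)

instance l2.completeSpace (ι : Type u) : CompleteSpace (l2 ι) :=
  lp.completeSpace (E := fun _ : ι => ℂ) (p := 2)

/-- The C*-algebra generated by a set `S` of operators: the norm closure of the (non-unital)
*-subalgebra generated by `S`. -/
noncomputable def cstar (S : Set (Op H)) : SubAlg H :=
  (NonUnitalStarAlgebra.adjoin ℂ S).topologicalClosure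

/-- `U` is a finite set of unitary operators. -/
def FiniteUnitary (U : Set (Op H)) : Prop := U.Finite ∧ ∀ u ∈ U, u ∈ unitary (Op H)

/-- A countably directed family of pairs `(B i, P i)`: `B i` is a self-adjoint subalgebra of `A` and
`P i` is an orthogonal projection commuting with `B i`; for each sequence of indices there is a pair
above all its pairs; each `a ∈ A` lies in some `B i` and each `x ∈ H` in the range of some `P i`. -/
structure Family (A : SubAlg H) (ι : Type v) where
  B : ι → SubAlg H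
  P : ι → Op H
  proj : ∀ i, IsStarProjection (P i)
  le : ∀ i, B i ≤ A
  comm : ∀ i, ∀ b ∈ B i, P i * b = b * P i
  dir : ∀ s : ℕ → ι, ∃ i, ∀ k, B (s k) ≤ B i ∧ P i * P (s k) = P (s k)
  covA : ∀ a ∈ A, ∃ i, a ∈ B i
  covH : ∀ x : H, ∃ i, P i x = x

/-- An element of `B ⊆ A` as an element of `A`. -/
def El.incl {A B : SubAlg H} (h : B ≤ A) (b : El B) : El A := ⟨b.op, h b.2⟩

/-- The compression `P_i f|_{B_i} P_i` of `f` is the coboundary of a bounded `m`-cochain of `B_i`. -/
def Family.CompIsCobdy {A : SubAlg H} {ι : Type v} (D : Family A ι) {m : ℕ}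
    (f : Cochain A (m + 1)) (i : ι) : Prop :=
  ∃ g : Cochain (D.B i) m, ∀ b, cobdy g b = D.P i * f (fun j => (b j).incl (D.le i)) * D.P i

/-- (1) `H^(m+1)(A, B(H)) = 0` for all Hilbert spaces `H` and all C*-algebras `A ⊆ B(H)`. -/
def AllVanish (m : ℕ) : Prop :=
  ∀ (H : Type u) [NormedAddCommGroup H] [InnerProductSpace ℂ H] [CompleteSpace H] (A : SubAlg H),
    Closed A → CohomologyVanishes A m

/-- (2) `H^(m+1)(A, B(ℓ²)) = 0` for all norm-separable C*-algebras `A ⊆ B(ℓ²)`. -/
def SeparableVanish (m : ℕ) : Prop :=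
  ∀ A : SubAlg (l2 ℕ), Closed A → Separable A → CohomologyVanishes A m

/-- (3) (1) with a constant independent of `H`, `A` and the cocycle. -/
def UniformVanish (m : ℕ) : Prop :=
  ∃ K : ℝ, ∀ (H : Type u) [NormedAddCommGroup H] [InnerProductSpace ℂ H] [CompleteSpace H]
    (A : SubAlg H), Closed A → VanishesWith A m K

/-- (4) (3) for the C*-algebras on `ℓ²` generated by finitely many unitaries. -/
def UnitaryVanish (m : ℕ) : Prop :=
  ∃ K : ℝ, ∀ U : Set (Op (l2 ℕ)), FiniteUnitary U → VanishesWith (cstar U) m K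

/-- (5) `H^(m+1)(A, B(ℓ²))` is separable in its quotient seminorm for all norm-separable C*-algebras
`A ⊆ B(ℓ²)`. -/
def AllSeparableQuotient (m : ℕ) : Prop :=
  ∀ A : SubAlg (l2 ℕ), Closed A → Separable A → SeparableQuotient A m

/-- (6) For all norm-separable C*-algebras `A ⊆ B(ℓ²)`, each nonzero bounded `(m+1)`-cocycle is
cohomologous to a cocycle of strictly smaller norm. -/
def AllNoMinimalCocycle (m : ℕ) : Prop :=
  ∀ A : SubAlg (l2 ℕ), Closed A → Separable A → NoMinimalCocycle A m

end Pool.H5Coh.St
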