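import Pool.Agent.H5.Coh.StepD
import Pool.Agent.H5.Coh.Defs

/-!
# Countably directed families of pairs
-/

set_option linter.unusedVariables false

namespace Pool.H5Coh

open TopologicalSpace

variable {H : Type*} [NormedAddCommGroup H] [InnerProductSpace ℂ H] [CompleteSpace H]

/-- If the compressions of a cochain `f` to the pairs of a countably directed covering family are
coboundaries, then `f` is a coboundary. -/
theorem dir_main {A : NonUnitalStarSubalgebra ℂ (H →L[ℂ] H)} {ι : Type*}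
    (Bi : ι → NonUnitalStarSubalgebra ℂ (H →L[ℂ] H)) (Qi : ι → Submodule ℂ H)
    [∀ i, CompleteSpace (Qi i)] (hp : ∀ i, Pair A (Bi i) (Qi i))
    (hdir : ∀ s : ℕ → ι, ∃ i, ∀ k, Bi (s k) ≤ Bi i ∧ Qi (s k) ≤ Qi i)
    (hcA : ∀ a ∈ A, ∃ i, a ∈ Bi i) (hcH : ∀ x, ∃ i, x ∈ Qi i)
    (m : ℕ) (f : Cochain A (m + 1))
    (hB : ∀ i, ∃ g : Cochain (Bi i) m, ∀ b : Fin (m + 1) → Bi i, cobdy (Bi i) g b =
        pj (Qi i) * f (fun j => incl (hp i).le (b j)) * pj (Qi i)) :
    ∃ g : Cochain A m, ∀ a, cobdy A g a = f a := by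
  classical
  obtain ⟨K, hK, hu⟩ := stepC Bi Qi hp hdir m f hB
  obtain ⟨g, hg, -⟩ := stepD m f K hK (fun i => by
    -- an index above finitely many elements
    choose ia hia using fun a : A => hcA a a.2
    choose ix hix using hcH
    have hc : ((ia '' (i.1 : Set A)) ∪ (ix '' ((insert 0 i.2 : Finset H) : Set H))).Countable :=
      ((i.1.finite_toSet.image _).union ((insert 0 i.2 : Finset H).finite_toSet.image _)).countable
    have hne : ((ia '' (i.1 : Set A)) ∪ (ix '' ((insert 0 i.2 : Finset H) : Set H))).Nonempty :=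
      ⟨ix 0, Or.inr ⟨0, by simp, rfl⟩⟩
    obtain ⟨s, hs⟩ := hc.exists_eq_range hne
    obtain ⟨j, hj⟩ := hdir s
    refine ⟨Bi j, Qi j, inferInstance, hp j, ?_, ?_, hu j⟩
    · rintro _ ⟨a, ha, rfl⟩
      have h1 : ia a ∈ Set.range s := by
        rw [← hs]
        exact Or.inl ⟨a, ha, rfl⟩
      obtain ⟨k, hk⟩ := h1
      have h2 := hia a
      rw [← hk] at h2
      exact (hj k).1 h2
    · intro x hx
      have h1 : ix x ∈ Set.range s := by
        rw [← hs]
        exact Or.inr ⟨x, by simp [Finset.mem_coe.mp hx], rfl⟩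
      obtain ⟨k, hk⟩ := h1
      have h2 := hix x
      rw [← hk] at h2
      exact (hj k).2 h2)
  exact ⟨g, hg⟩

/-- compression of a solution to a pair. -/
theorem restrict_sol {A B : NonUnitalStarSubalgebra ℂ (H →L[ℂ] H)} {Q : Submodule ℂ H}
    [CompleteSpace Q] (hp : Pair A B Q) {m : ℕ} (g : Cochain A m) :
    ∃ g' : Cochain B m, ∀ b : Fin (m + 1) → B, cobdy B g' b =
      pj Q * cobdy A g (fun j => incl hp.le (b j)) * pj Q := by
  let c : (H →L[ℂ] H) →L[ℂ] (H →L[ℂ] H) := (expd Q).comp (comp Q)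
  have hc : ∀ T, c T = pj Q * T * pj Q := fun T => expd_comp Q T
  let g' : Cochain B m :=
    c.compContinuousMultilinearMap (g.compContinuousLinearMap fun _ => incl hp.le)
  refine ⟨g', fun b => ?_⟩
  have h2 := cob_transport (fun x : B => (x : H →L[ℂ] H)) (fun x : A => (x : H →L[ℂ] H))
    (fun s => incl hp.le s) (fun _ _ => rfl) c.toLinearMap (by
      intro s T
      change c ((s : H →L[ℂ] H) * T) = (s : H →L[ℂ] H) * c T
      rw [hc, hc, ← mul_assoc (pj Q), pj_comm Q hp.inv s.2]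
      simp only [mul_assoc]) (by
      intro s T
      change c (T * (s : H →L[ℂ] H)) = c T * (s : H →L[ℂ] H)
      rw [hc, hc]
      have := pj_comm Q hp.inv s.2
      simp only [mul_assoc]
      rw [this]) (fun c => g c) b
  refine Eq.trans h2 ?_
  exact hc _

section FamilyVersion

/-- the range of a projection. -/
def fixQ (P : H →L[ℂ] H) : Submodule ℂ H where
  carrier := {x | P x = x}
  add_mem' := by
    intro x y hx hy
    change P (x + y) = x + y
    rw [map_add]
    exact congrArg₂ _ hx hy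
  zero_mem' := map_zero P
  smul_mem' := by
    intro c x hx
    change P (c • x) = c • x
    rw [map_smul]
    exact congrArg _ hx

theorem fixQ_closed (P : H →L[ℂ] H) : IsClosed (fixQ P : Set H) :=
  isClosed_eq P.continuous continuous_id

instance (P : H →L[ℂ] H) : CompleteSpace (fixQ P) := (fixQ_closed P).completeSpace_coe

theorem pj_fixQ {P : H →L[ℂ] H} (hP : IsStarProjection P) : pj (fixQ P) = P := by
  have hs : ∀ x y, inner ℂ (P x) y = inner ℂ x (P y) := by
    intro x y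
    have h1 : star P = P := hP.isSelfAdjoint
    rw [ContinuousLinearMap.star_eq_adjoint] at h1
    conv_rhs => rw [← h1, ContinuousLinearMap.adjoint_inner_right]
  have hi : ∀ x, P (P x) = P x := fun x =>
    congrArg (fun T : H →L[ℂ] H => T x) hP.isIdempotentElem
  refine ContinuousLinearMap.ext fun x => ext_inner_right ℂ fun y => ?_
  have h2 : P (pj (fixQ P) y) = pj (fixQ P) y := pj_mem (fixQ P) y
  have h3 : pj (fixQ P) (P x) = P x := pj_of_mem (fixQ P) (hi x)
  rw [pj_selfAdjoint, ← h2, ← hs, ← pj_selfAdjoint, h3]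

theorem family_main {A : St.SubAlg H} {ι : Type*} (D : St.Family A ι) (m : ℕ)
    (f : St.Cochain A (m + 1)) :
    (∃ g : St.Cochain A m, St.IsCobdy g f) ↔ ∀ i, D.CompIsCobdy f i := by
  have hp : ∀ i, Pair A (D.B i) (fixQ (D.P i)) := fun i => ⟨D.le i, fun b hb x hx => by
    have h1 : (D.P i * b) x = (b * D.P i) x := by rw [D.comm i b hb]
    change D.P i (b x) = b x
    have h2 : D.P i x = x := hx
    calc D.P i (b x) = b (D.P i x) := h1
      _ = b x := by rw [h2]⟩
  constructor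
  · rintro ⟨g, hg⟩ i
    obtain ⟨g', hg'⟩ := restrict_sol (hp i) g
    refine ⟨g', fun b => ?_⟩
    have h1 := hg' b
    rw [pj_fixQ (D.proj i)] at h1
    refine Eq.trans h1 ?_
    have h2 : cobdy A g (fun j => incl (hp i).le (b j)) = f (fun j => incl (hp i).le (b j)) :=
      hg (fun j => incl (hp i).le (b j))
    rw [h2]
    rfl
  · intro h
    refine dir_main D.B (fun i => fixQ (D.P i)) hp ?_ D.covA D.covH m f ?_
    · intro s
      obtain ⟨i, hi⟩ := D.dir s
      refine ⟨i, fun k => ⟨(hi k).1, fun x hx => ?_⟩⟩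
      have h1 : D.P (s k) x = x := hx
      have h2 : (D.P i * D.P (s k)) x = D.P (s k) x := by rw [(hi k).2]
      have h3 : D.P i (D.P (s k) x) = D.P (s k) x := h2
      rw [h1] at h3
      exact h3
    · intro i
      obtain ⟨g, hg⟩ := h i
      refine ⟨g, fun b => ?_⟩
      rw [pj_fixQ (D.proj i)]
      exact hg b

end FamilyVersion

/-- the admissible pairs. -/
abbrev AdmIdx (A : NonUnitalStarSubalgebra ℂ (H →L[ℂ] H)) : Type _ :=
  {p : NonUnitalStarSubalgebra ℂ (H →L[ℂ] H) × Submodule ℂ H // Adm A p.1 p.2}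

theorem adm_dir {A : NonUnitalStarSubalgebra ℂ (H →L[ℂ] H)}
    (hA : IsClosed (A : Set (H →L[ℂ] H))) (s : ℕ → AdmIdx A) :
    ∃ i : AdmIdx A, ∀ k, (s k).1.1 ≤ i.1.1 ∧ (s k).1.2 ≤ i.1.2 := by
  have hDB : ∀ k, ∃ D : Set (H →L[ℂ] H), D ⊆ ((s k).1.1 : Set (H →L[ℂ] H)) ∧ D.Countable ∧
      ((s k).1.1 : Set (H →L[ℂ] H)) ⊆ closure D :=
    fun k => (s k).2.sepB.exists_countable_dense_subset
  have hDQ : ∀ k, ∃ D : Set H, D ⊆ ((s k).1.2 : Set H) ∧ D.Countable ∧
      ((s k).1.2 : Set H) ⊆ closure D := fun k => (s k).2.sepQ.exists_countable_dense_subset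
  choose D hDsub hDc hDd using hDB
  choose E hEsub hEc hEd using hDQ
  obtain ⟨B, Q, hadm, hSB, hXQ⟩ := exists_adm hA (S := ⋃ k, D k) (Set.countable_iUnion hDc)
    (Set.iUnion_subset fun k => (hDsub k).trans (fun x hx => (s k).2.le hx)) (X := ⋃ k, E k)
    (Set.countable_iUnion hEc)
  refine ⟨⟨(B, Q), hadm⟩, fun k => ⟨fun x hx => ?_, fun x hx => ?_⟩⟩
  · exact (closure_minimal ((Set.subset_iUnion D k).trans hSB) hadm.closed) (hDd k hx)
  · exact (closure_minimal ((Set.subset_iUnion E k).trans hXQ) hadm.Qclosed) (hEd k hx)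

instance (A : NonUnitalStarSubalgebra ℂ (H →L[ℂ] H)) (i : AdmIdx A) :
    CompleteSpace i.1.2 := i.2.Qclosed.completeSpace_coe

/-- vanishing for all admissible pairs implies vanishing. -/
theorem vanishes_of_adm {A : NonUnitalStarSubalgebra ℂ (H →L[ℂ] H)}
    (hA : IsClosed (A : Set (H →L[ℂ] H))) {m : ℕ}
    (hv : ∀ (B : NonUnitalStarSubalgebra ℂ (H →L[ℂ] H)) (Q : Submodule ℂ H) [CompleteSpace Q]
      (h : Adm A B Q), CohomologyVanishes (imgAlg B Q h.inv) m) :
    CohomologyVanishes A m := by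
  intro f hf
  refine dir_main (fun i : AdmIdx A => i.1.1) (fun i : AdmIdx A => i.1.2)
    (fun i => i.2.toPair) (adm_dir hA) ?_ ?_ m f (fun i => stepB i.2 m (hv _ _ i.2) f hf)
  · intro a ha
    obtain ⟨B, Q, hadm, hSB, -⟩ := exists_adm hA (Set.countable_singleton a)
      (Set.singleton_subset_iff.mpr ha) (X := ∅) Set.countable_empty
    exact ⟨⟨(B, Q), hadm⟩, hSB rfl⟩
  · intro x
    obtain ⟨B, Q, hadm, -, hXQ⟩ := exists_adm hA (S := ∅) Set.countable_empty
      (Set.empty_subset _) (Set.countable_singleton x)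
    exact ⟨⟨(B, Q), hadm⟩, hXQ rfl⟩

end Pool.H5Coh
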