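import Pool.Agent.H5.Coh.Basic

/-!
# Separable pairs (B, Q)
-/

namespace Pool.H5Coh

open TopologicalSpace

set_option linter.unusedVariables false

variable {H : Type*} [NormedAddCommGroup H] [InnerProductSpace ℂ H] [CompleteSpace H]

/-- a pair of a *-subalgebra `B` of `A` and a `B`-invariant subspace `Q`. -/
structure Pair (A B : NonUnitalStarSubalgebra ℂ (H →L[ℂ] H)) (Q : Submodule ℂ H) : Prop where
  le : B ≤ A
  inv : ∀ b ∈ B, ∀ x ∈ Q, b x ∈ Q

/-- admissible pairs: a separable C*-subalgebra `B` of `A` and a separable closed subspace `Q`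
which is `B`-invariant and on which `B` acts isometrically. -/
structure Adm (A B : NonUnitalStarSubalgebra ℂ (H →L[ℂ] H)) (Q : Submodule ℂ H) : Prop
    extends Pair A B Q where
  closed : IsClosed (B : Set (H →L[ℂ] H))
  sepB : IsSeparable (B : Set (H →L[ℂ] H))
  Qclosed : IsClosed (Q : Set H)
  sepQ : IsSeparable (Q : Set H)
  norming : ∀ b ∈ B, ∀ C : ℝ, 0 ≤ C → (∀ x ∈ Q, ‖b x‖ ≤ C * ‖x‖) → ‖b‖ ≤ C

theorem countable_subsemigroup {M : Type*} [Monoid M] {S : Set M} (hS : S.Countable) :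
    (Subsemigroup.closure S : Set M).Countable := by
  classical
  have : Countable S := hS.to_subtype
  have h1 : (Subsemigroup.closure S : Set M) ⊆
      Set.range (fun l : List S => (l.map Subtype.val).prod) := by
    intro x hx
    have hx' : x ∈ Submonoid.closure S := by
      have : Subsemigroup.closure S ≤ (Submonoid.closure S).toSubsemigroup := by
        rw [Subsemigroup.closure_le]
        exact Submonoid.subset_closure
      exact this hx
    obtain ⟨l, hl, hp⟩ := Submonoid.exists_list_of_mem_closure hx'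
    refine ⟨l.attach.map (fun y => ⟨y.1, hl y.1 y.2⟩), ?_⟩
    simp only [List.map_map]
    rw [← hp]
    congr 1
    conv_rhs => rw [← List.attach_map_subtype_val l]
    rfl
  exact (Set.countable_range _).mono h1

theorem separable_adjoin {S : Set (H →L[ℂ] H)} (hS : S.Countable) :
    IsSeparable (cstar S : Set (H →L[ℂ] H)) := by
  have h1 : IsSeparable ((NonUnitalStarAlgebra.adjoin ℂ S : NonUnitalStarSubalgebra ℂ
      (H →L[ℂ] H)) : Set (H →L[ℂ] H)) := by
    have h2 := NonUnitalStarAlgebra.adjoin_eq_span (R := ℂ) S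
    have h3 : ((NonUnitalStarAlgebra.adjoin ℂ S : NonUnitalStarSubalgebra ℂ
      (H →L[ℂ] H)) : Set (H →L[ℂ] H)) =
        (Submodule.span ℂ (Subsemigroup.closure (S ∪ star S) : Set (H →L[ℂ] H)) :
          Set (H →L[ℂ] H)) := by
      rw [← h2]; rfl
    rw [h3]
    refine IsSeparable.span ?_
    refine (countable_subsemigroup ?_).isSeparable
    refine hS.union ?_
    rw [← Set.image_star]
    exact hS.image _
  have h4 : (cstar S : Set (H →L[ℂ] H)) =
      closure ((NonUnitalStarAlgebra.adjoin ℂ S : NonUnitalStarSubalgebra ℂ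
      (H →L[ℂ] H)) : Set (H →L[ℂ] H)) := rfl
  rw [h4]
  exact h1.closure

theorem exists_adm' {A : NonUnitalStarSubalgebra ℂ (H →L[ℂ] H)}
    (hA : IsClosed (A : Set (H →L[ℂ] H))) {S : Set (H →L[ℂ] H)} (hS : S.Countable)
    (hSA : S ⊆ A) {X : Set H} (hX : X.Countable) :
    ∃ Q : Submodule ℂ H,
      Adm A (cstar S) Q ∧ X ⊆ Q := by
  classical
  set B := cstar S with hB
  have hBA : B ≤ A := cstar_le hA hSA
  have hBc : IsClosed (B : Set (H →L[ℂ] H)) := isClosed_cstar
  have hBs : IsSeparable (B : Set (H →L[ℂ] H)) := separable_adjoin hS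
  obtain ⟨D, hDB, hDc, hDd⟩ := hBs.exists_countable_dense_subset
  have hv : ∀ d : H →L[ℂ] H, ∀ k : ℕ, ∃ v : H, ‖v‖ < 1 ∧ ‖d‖ - 1 / (k + 1 : ℝ) < ‖d v‖ := by
    intro d k
    exact ContinuousLinearMap.exists_lt_apply_of_lt_opNorm d (by
      have : (0 : ℝ) < 1 / (k + 1 : ℝ) := by positivity
      linarith)
  choose v hv1 hv2 using hv
  set X' : Set H := X ∪ (Set.image2 v D Set.univ) with hX'
  have hX'c : X'.Countable := hX.union (hDc.image2 Set.countable_univ v)
  set Y : Set H := X' ∪ Set.image2 (fun (d : H →L[ℂ] H) (x : H) => d x) D X' with hY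
  have hYc : Y.Countable := hX'c.union (hDc.image2 hX'c _)
  set Q : Submodule ℂ H := (Submodule.span ℂ Y).topologicalClosure with hQ
  have hYQ : Y ⊆ Q := fun y hy => Submodule.le_topologicalClosure _ (Submodule.subset_span hy)
  have hQc : IsClosed (Q : Set H) := Submodule.isClosed_topologicalClosure _
  -- b x in Q for x in X'
  have key : ∀ b ∈ B, ∀ x ∈ X', b x ∈ Q := by
    intro b hb x hx
    have h1 : b ∈ closure D := hDd hb
    have h2 : Continuous fun T : H →L[ℂ] H => T x := by fun_prop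
    have h3 : Set.MapsTo (fun T : H →L[ℂ] H => T x) D (Q : Set H) := fun d hd =>
      hYQ (Or.inr ⟨d, hd, x, hx, rfl⟩)
    have h4 := h3.closure h2 h1
    rwa [hQc.closure_eq] at h4
  have inv : ∀ b ∈ B, ∀ x ∈ Q, b x ∈ Q := by
    intro b hb x hx
    have h1 : ∀ y ∈ Submodule.span ℂ Y, b y ∈ Q := by
      intro y hy
      induction hy using Submodule.span_induction with
      | mem z hz =>
        rcases hz with hz | ⟨d, hd, w, hw, rfl⟩
        · exact key b hb z hz
        · have := key (b * d) (mul_mem hb (hDB hd)) w hw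
          simpa using this
      | zero => simp
      | add y z _ _ h1 h2 => rw [map_add]; exact Q.add_mem h1 h2
      | smul c y _ h1 => rw [map_smul]; exact Q.smul_mem c h1
    have h2 : Set.MapsTo (fun y => b y) (Submodule.span ℂ Y : Set H) (Q : Set H) := h1
    have h3 := h2.closure b.continuous
    rw [hQc.closure_eq] at h3
    exact h3 hx
  refine ⟨Q, ⟨⟨hBA, inv⟩, hBc, hBs, hQc, ?_, ?_⟩, ?_⟩
  · have h4 : (Q : Set H) = closure (Submodule.span ℂ Y : Set H) := rfl
    rw [h4]
    exact (hYc.isSeparable.span).closure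
  · intro b hb C hC hbC
    refine le_of_forall_pos_le_add fun ε hε => ?_
    obtain ⟨k, hk⟩ := exists_nat_one_div_lt (show (0 : ℝ) < ε / 3 by positivity)
    obtain ⟨d, hd, hdb⟩ := Metric.mem_closure_iff.1 (hDd hb) (ε / 3) (by positivity)
    rw [dist_eq_norm] at hdb
    have hvQ : v d k ∈ Q := hYQ (Or.inl (Or.inr ⟨d, hd, k, trivial, rfl⟩))
    have h1 : ‖d (v d k)‖ ≤ ‖b (v d k)‖ + ‖(b - d) (v d k)‖ := by
      have : d (v d k) = b (v d k) - (b - d) (v d k) := by simp
      rw [this]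
      exact norm_sub_le _ _
    have h2 : ‖(b - d) (v d k)‖ ≤ ‖b - d‖ * ‖v d k‖ := (b - d).le_opNorm _
    have h3 : ‖b - d‖ * ‖v d k‖ ≤ ε / 3 := by
      have := (hv1 d k).le
      calc ‖b - d‖ * ‖v d k‖ ≤ ‖b - d‖ * 1 := by gcongr
        _ ≤ ε / 3 := by linarith
    have h4 : ‖b (v d k)‖ ≤ C := by
      calc ‖b (v d k)‖ ≤ C * ‖v d k‖ := hbC _ hvQ
        _ ≤ C * 1 := by gcongr; exact (hv1 d k).le
        _ = C := mul_one C
    have h5 := hv2 d k
    have h6 : ‖b‖ ≤ ‖d‖ + ‖b - d‖ := by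
      have : b = d + (b - d) := by abel
      calc ‖b‖ = ‖d + (b - d)‖ := by rw [← this]
        _ ≤ _ := norm_add_le _ _
    linarith
  · intro x hx
    exact hYQ (Or.inl (Or.inl hx))

theorem exists_adm {A : NonUnitalStarSubalgebra ℂ (H →L[ℂ] H)}
    (hA : IsClosed (A : Set (H →L[ℂ] H))) {S : Set (H →L[ℂ] H)} (hS : S.Countable)
    (hSA : S ⊆ A) {X : Set H} (hX : X.Countable) :
    ∃ (B : NonUnitalStarSubalgebra ℂ (H →L[ℂ] H)) (Q : Submodule ℂ H),
      Adm A B Q ∧ S ⊆ B ∧ X ⊆ Q := by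
  obtain ⟨Q, h, hXQ⟩ := exists_adm' hA hS hSA hX
  exact ⟨_, Q, h, subset_cstar, hXQ⟩

end Pool.H5Coh
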