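import Pool.Agent.H5.Coh.Sum

/-!
# Vanishing for all algebras gives a universal constant
-/

set_option linter.unusedSectionVars false

namespace Pool.H5Coh

universe u

section

variable {Hk : ℕ → Type u} [∀ k, NormedAddCommGroup (Hk k)] [∀ k, InnerProductSpace ℂ (Hk k)]
  [∀ k, CompleteSpace (Hk k)] {S : Type u} [NormedAddCommGroup S] [InnerProductSpace ℂ S]
  [CompleteSpace S] (D : SumData Hk S)
  (Ak : ∀ k, NonUnitalStarSubalgebra ℂ (Hk k →L[ℂ] Hk k))

/-- the pullback of the `k`-th cochain to the product algebra. -/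
noncomputable def pull {n : ℕ} (f : ∀ k, Cochain (Ak k) n) (k : ℕ) :
    ContinuousMultilinearMap ℂ (fun _ : Fin n => prodAlg D Ak) (Hk k →L[ℂ] Hk k) :=
  (f k).compContinuousLinearMap (fun _ => bl D Ak k)

theorem pull_apply {n : ℕ} (f : ∀ k, Cochain (Ak k) n) (k : ℕ) (t : Fin n → prodAlg D Ak) :
    pull D Ak f k t = f k (fun j => bl D Ak k (t j)) := rfl

theorem norm_pull_le {n : ℕ} (f : ∀ k, Cochain (Ak k) n) (hf : ∀ k, ‖f k‖ ≤ 1)
    (t : Fin n → prodAlg D Ak) (k : ℕ) : ‖pull D Ak f k t‖ ≤ ∏ j, ‖t j‖ := by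
  rw [pull_apply]
  calc ‖f k (fun j => bl D Ak k (t j))‖ ≤ ‖f k‖ * ∏ j, ‖bl D Ak k (t j)‖ := (f k).le_opNorm _
    _ ≤ 1 * ∏ j, ‖t j‖ := by
        refine mul_le_mul (hf k) (Finset.prod_le_prod (fun j _ => norm_nonneg _)
          (fun j _ => norm_bl_le D Ak k (t j))) (Finset.prod_nonneg fun j _ => norm_nonneg _)
          zero_le_one
    _ = ∏ j, ‖t j‖ := one_mul _

/-- the product cochain, multilinear version. -/
noncomputable def finfLin {n : ℕ} (f : ∀ k, Cochain (Ak k) n) (hf : ∀ k, ‖f k‖ ≤ 1) :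
    MultilinearMap ℂ (fun _ : Fin n => prodAlg D Ak) (S →L[ℂ] S) where
  toFun := fun t => diagL D (fun k => pull D Ak f k t) (∏ j, ‖t j‖) (norm_pull_le D Ak f hf t)
  map_update_add' := by
    intro _ t i x y
    refine ContinuousLinearMap.ext fun z => D.ext _ _ fun k => ?_
    rw [add_apply, map_add, ev_diagL, ev_diagL, ev_diagL,
      (pull D Ak f k).map_update_add, add_apply]
  map_update_smul' := by
    intro _ t i c x
    refine ContinuousLinearMap.ext fun z => D.ext _ _ fun k => ?_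
    rw [smul_apply, map_smul, ev_diagL, ev_diagL,
      (pull D Ak f k).map_update_smul, smul_apply]

theorem finfLin_norm {n : ℕ} (f : ∀ k, Cochain (Ak k) n) (hf : ∀ k, ‖f k‖ ≤ 1)
    (t : Fin n → prodAlg D Ak) : ‖finfLin D Ak f hf t‖ ≤ 1 * ∏ j, ‖t j‖ := by
  rw [one_mul]
  exact norm_diagL_le D (fun k => pull D Ak f k t) (∏ j, ‖t j‖) (norm_pull_le D Ak f hf t)

/-- the product cochain. -/
noncomputable def finf {n : ℕ} (f : ∀ k, Cochain (Ak k) n) (hf : ∀ k, ‖f k‖ ≤ 1) :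
    Cochain (prodAlg D Ak) n :=
  MultilinearMap.mkContinuous (finfLin D Ak f hf) 1 (finfLin_norm D Ak f hf)

theorem ev_finf {n : ℕ} (f : ∀ k, Cochain (Ak k) n) (hf : ∀ k, ‖f k‖ ≤ 1)
    (t : Fin n → prodAlg D Ak) (k : ℕ) (x : S) :
    D.ev k (finf D Ak f hf t x) = f k (fun j => bl D Ak k (t j)) (D.ev k x) :=
  ev_diagL D (fun k => pull D Ak f k t) (∏ j, ‖t j‖) (norm_pull_le D Ak f hf t) x k

theorem blk_finf {n : ℕ} (f : ∀ k, Cochain (Ak k) n) (hf : ∀ k, ‖f k‖ ≤ 1)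
    (t : Fin n → prodAlg D Ak) (k : ℕ) :
    blk D k (finf D Ak f hf t) = f k (fun j => bl D Ak k (t j)) :=
  blk_diagL D (fun k => pull D Ak f k t) (∏ j, ‖t j‖) (norm_pull_le D Ak f hf t) k

theorem isDiag_finf {n : ℕ} (f : ∀ k, Cochain (Ak k) n) (hf : ∀ k, ‖f k‖ ≤ 1)
    (t : Fin n → prodAlg D Ak) : IsDiag D (finf D Ak f hf t) := by
  intro k x
  rw [ev_finf, blk_finf]

theorem finf_mem {n : ℕ} (f : ∀ k, Cochain (Ak k) n) (hf : ∀ k, ‖f k‖ ≤ 1)
    (t : Fin n → prodAlg D Ak) : finf D Ak f hf t ∈ prodAlg D (fun _ => ⊤) :=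
  ⟨isDiag_finf D Ak f hf t, fun _ => trivial⟩

theorem coe_mem (t : prodAlg D Ak) : (t : S →L[ℂ] S) ∈ prodAlg D (fun _ => ⊤) :=
  ⟨t.2.1, fun _ => trivial⟩

theorem blk_cobdy_finf {n : ℕ} (f : ∀ k, Cochain (Ak k) n) (hf : ∀ k, ‖f k‖ ≤ 1)
    (t : Fin (n + 1) → prodAlg D Ak) (k : ℕ) :
    blk D k (cobdy (prodAlg D Ak) (finf D Ak f hf) t) =
      cobdy (Ak k) (f k) (fun j => bl D Ak k (t j)) := by
  unfold cobdy
  rw [map_add, map_add, map_sum, map_smul, (t 0).2.1.blk_mul_left,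
    (t (Fin.last n)).2.1.blk_mul_right, blk_finf, blk_finf]
  congr 2
  refine Finset.sum_congr rfl fun i _ => ?_
  rw [map_smul, blk_finf, contract_comp (fun x => bl D Ak k x) (bl_mul D Ak k)]

theorem cobdy_finf {n : ℕ} (f : ∀ k, Cochain (Ak k) n) (hf : ∀ k, ‖f k‖ ≤ 1)
    (hc : ∀ k a, cobdy (Ak k) (f k) a = 0) (t : Fin (n + 1) → prodAlg D Ak) :
    cobdy (prodAlg D Ak) (finf D Ak f hf) t = 0 := by
  have hmem : cobdy (prodAlg D Ak) (finf D Ak f hf) t ∈ prodAlg D (fun _ => ⊤) := by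
    unfold cobdy
    refine add_mem (add_mem (mul_mem (coe_mem D Ak _) (finf_mem D Ak f hf _))
      (sum_mem fun i _ => ?_)) ?_
    · exact SMulMemClass.smul_mem _ (finf_mem D Ak f hf _)
    · exact SMulMemClass.smul_mem _ (mul_mem (finf_mem D Ak f hf _) (coe_mem D Ak _))
  refine ContinuousLinearMap.ext fun z => D.ext _ _ fun k => ?_
  rw [hmem.1 k z, blk_cobdy_finf, hc]
  simp

/-- the `k`-th component of a cochain of the product algebra. -/
noncomputable def comp_k {n : ℕ} (g : Cochain (prodAlg D Ak) n) (k : ℕ) : Cochain (Ak k) n :=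
  (blk D k).compContinuousMultilinearMap (g.compContinuousLinearMap (fun _ => inj D Ak k))

theorem comp_k_apply {n : ℕ} (g : Cochain (prodAlg D Ak) n) (k : ℕ) (b : Fin n → Ak k) :
    comp_k D Ak g k b = blk D k (g (fun j => inj D Ak k (b j))) := rfl

theorem norm_comp_k_le {n : ℕ} (g : Cochain (prodAlg D Ak) n) (k : ℕ) :
    ‖comp_k D Ak g k‖ ≤ ‖g‖ := by
  refine ContinuousMultilinearMap.opNorm_le_bound (norm_nonneg g) fun b => ?_
  rw [comp_k_apply]
  calc ‖blk D k (g (fun j => inj D Ak k (b j)))‖ ≤ ‖g (fun j => inj D Ak k (b j))‖ :=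
        norm_blk_le D k _
    _ ≤ ‖g‖ * ∏ j, ‖inj D Ak k (b j)‖ := g.le_opNorm _
    _ ≤ ‖g‖ * ∏ j, ‖b j‖ := by
        refine mul_le_mul_of_nonneg_left (Finset.prod_le_prod (fun j _ => norm_nonneg _)
          (fun j _ => norm_inj_le D Ak k (b j))) (norm_nonneg g)

theorem cobdy_comp_k {n : ℕ} (g : Cochain (prodAlg D Ak) n) (k : ℕ) (a : Fin (n + 1) → Ak k) :
    cobdy (Ak k) (comp_k D Ak g k) a =
      blk D k (cobdy (prodAlg D Ak) g (fun j => inj D Ak k (a j))) := by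
  rw [cobdy_eq, cobdy_eq]
  exact cob_transport (fun x : Ak k => (x : Hk k →L[ℂ] Hk k))
    (fun x : prodAlg D Ak => (x : S →L[ℂ] S)) (fun x => inj D Ak k x) (inj_mul D Ak k)
    ((blk D k : (S →L[ℂ] S) →L[ℂ] (Hk k →L[ℂ] Hk k)) : (S →L[ℂ] S) →ₗ[ℂ] (Hk k →L[ℂ] Hk k))
    (fun x T => by
      change blk D k ((inj D Ak k x : prodAlg D Ak) * T) = _
      rw [(inj D Ak k x).2.1.blk_mul_left, blk_inj]
      rfl)
    (fun x T => by
      change blk D k (T * (inj D Ak k x : prodAlg D Ak)) = _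
      rw [(inj D Ak k x).2.1.blk_mul_right, blk_inj]
      rfl) (fun b => g b) a

/-- for a bounded sequence of cocycles, vanishing for the product algebra gives a bounded
sequence of solutions. -/
theorem bounded_solutions {m : ℕ} (hv : CohomologyVanishes (prodAlg D Ak) m)
    (f : ∀ k, Cochain (Ak k) (m + 1)) (hf : ∀ k, ‖f k‖ ≤ 1)
    (hc : ∀ k a, cobdy (Ak k) (f k) a = 0) :
    ∃ K : ℝ, ∀ k, ∃ g : Cochain (Ak k) m, (∀ a, cobdy (Ak k) g a = f k a) ∧ ‖g‖ ≤ K := by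
  obtain ⟨g, hg⟩ := hv (finf D Ak f hf) (cobdy_finf D Ak f hf hc)
  refine ⟨‖g‖, fun k => ⟨comp_k D Ak g k, fun a => ?_, norm_comp_k_le D Ak g k⟩⟩
  rw [cobdy_comp_k, hg, blk_finf]
  congr 1
  funext j
  exact bl_inj D Ak k (a j)

end

section Final

theorem cobdy_smul {H : Type*} [NormedAddCommGroup H] [InnerProductSpace ℂ H]
    [CompleteSpace H] (A : NonUnitalStarSubalgebra ℂ (H →L[ℂ] H)) {n : ℕ} (c : ℂ)
    (f : Cochain A n) (a : Fin (n + 1) → A) : cobdy A (c • f) a = c • cobdy A f a := by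
  unfold cobdy
  rw [smul_add, smul_add, Finset.smul_sum]
  congr 1
  · congr 1
    · exact mul_smul_comm c _ _
    · refine Finset.sum_congr rfl fun i _ => ?_
      exact smul_comm _ c _
  · change _ • ((c • f fun i => a i.castSucc) * _) = _
    rw [smul_mul_assoc, smul_comm]

theorem cobdy_zero {H : Type*} [NormedAddCommGroup H] [InnerProductSpace ℂ H]
    [CompleteSpace H] (A : NonUnitalStarSubalgebra ℂ (H →L[ℂ] H)) {n : ℕ}
    (a : Fin (n + 1) → A) : cobdy A (0 : Cochain A n) a = 0 := by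
  unfold cobdy
  simp

theorem norm_smul_cochain_le {H : Type*} [NormedAddCommGroup H] [InnerProductSpace ℂ H]
    [CompleteSpace H] (A : NonUnitalStarSubalgebra ℂ (H →L[ℂ] H)) {n : ℕ} (c : ℂ)
    (f : Cochain A n) : ‖c • f‖ ≤ ‖c‖ * ‖f‖ := by
  refine ContinuousMultilinearMap.opNorm_le_bound (mul_nonneg (norm_nonneg c) (norm_nonneg f))
    fun b => ?_
  change ‖c • f b‖ ≤ _
  rw [norm_smul, mul_assoc]
  exact mul_le_mul_of_nonneg_left (f.le_opNorm b) (norm_nonneg c)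

/-- a normalised cocycle all of whose solutions have norm more than `K`. -/
structure Bad (m : ℕ) (K : ℝ) where
  H : Type u
  [i1 : NormedAddCommGroup H]
  [i2 : InnerProductSpace ℂ H]
  [i3 : CompleteSpace H]
  A : NonUnitalStarSubalgebra ℂ (H →L[ℂ] H)
  hA : IsClosed (A : Set (H →L[ℂ] H))
  f : Cochain A (m + 1)
  hc : ∀ a, cobdy A f a = 0
  hf : ‖f‖ ≤ 1
  bad : ∀ g : Cochain A m, (∀ a, cobdy A g a = f a) → K < ‖g‖

attribute [instance] Bad.i1 Bad.i2 Bad.i3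

theorem exists_bad {m : ℕ} {K : ℝ} {H : Type u} [NormedAddCommGroup H] [InnerProductSpace ℂ H]
    [CompleteSpace H] (A : NonUnitalStarSubalgebra ℂ (H →L[ℂ] H))
    (hA : IsClosed (A : Set (H →L[ℂ] H))) (h : ¬ VanishesWith A m K) :
    Nonempty (Bad.{u} m K) := by
  unfold VanishesWith at h
  push Not at h
  obtain ⟨f, hc, hbad⟩ := h
  have hpos : 0 < ‖f‖ := by
    refine lt_of_le_of_ne (norm_nonneg f) fun h0 => ?_
    have hz : ∀ a, f a = 0 := fun a => by
      have h1 := f.le_opNorm a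
      rw [← h0, zero_mul] at h1
      exact norm_le_zero_iff.mp h1
    have h1 := hbad 0 (fun a => by rw [cobdy_zero, hz])
    rw [← h0, mul_zero] at h1
    have h2 : ‖(0 : Cochain A m)‖ ≤ 0 :=
      ContinuousMultilinearMap.opNorm_le_bound le_rfl fun b => by
        rw [zero_mul]
        exact norm_zero.le
    exact absurd h1 (not_lt.mpr h2)
  have hne : (‖f‖ : ℂ) ≠ 0 := by exact_mod_cast hpos.ne'
  refine ⟨{ H := H, A := A, hA := hA, f := ((‖f‖ : ℂ)⁻¹) • f, hc := ?_, hf := ?_, bad := ?_ }⟩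
  · intro a
    rw [cobdy_smul, hc, smul_zero]
  · refine (norm_smul_cochain_le A _ f).trans ?_
    rw [norm_inv, Complex.norm_real, Real.norm_of_nonneg hpos.le, inv_mul_cancel₀ hpos.ne']
  · intro g hg
    have h1 := hbad ((‖f‖ : ℂ) • g) (fun a => by
      rw [cobdy_smul, hg]
      change (‖f‖ : ℂ) • ((‖f‖ : ℂ)⁻¹ • f a) = f a
      rw [smul_smul, mul_inv_cancel₀ hne, one_smul])
    have h2 := h1.trans_le (norm_smul_cochain_le A (‖f‖ : ℂ) g)
    rw [Complex.norm_real, Real.norm_of_nonneg hpos.le, mul_comm K] at h2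
    exact lt_of_mul_lt_mul_left h2 hpos.le

theorem uniform_of_all {m : ℕ}
    (h : ∀ (H : Type u) [NormedAddCommGroup H] [InnerProductSpace ℂ H] [CompleteSpace H]
      (A : NonUnitalStarSubalgebra ℂ (H →L[ℂ] H)), IsClosed (A : Set (H →L[ℂ] H)) →
      CohomologyVanishes A m) :
    ∃ K : ℝ, ∀ (H : Type u) [NormedAddCommGroup H] [InnerProductSpace ℂ H] [CompleteSpace H]
      (A : NonUnitalStarSubalgebra ℂ (H →L[ℂ] H)), IsClosed (A : Set (H →L[ℂ] H)) →
      VanishesWith A m K := by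
  by_contra hcon
  push Not at hcon
  have hb : ∀ k : ℕ, Nonempty (Bad.{u} m k) := by
    intro k
    obtain ⟨H, i1, i2, i3, A, hA, hv⟩ := hcon k
    exact exists_bad A hA hv
  let B : ∀ k : ℕ, Bad.{u} m k := fun k => Classical.choice (hb k)
  obtain ⟨K, hK⟩ := bounded_solutions (sumData (Hk := fun k => (B k).H)) (fun k => (B k).A)
    (h _ _ (prodAlg_closed _ _ fun k => (B k).hA)) (fun k => (B k).f) (fun k => (B k).hf)
    (fun k => (B k).hc)
  obtain ⟨k, hk⟩ := exists_nat_gt K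
  obtain ⟨g, hg, hgK⟩ := hK k
  have := (B k).bad g hg
  linarith

end Final

end Pool.H5Coh
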