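import Pool.Agent.H5.Coh.Iso
import Pool.Agent.H5.Coh.Sep
import Pool.Agent.H5.Coh.SumFinal

/-!
# Finite dimensionality for all separable algebras implies vanishing
-/

set_option linter.unusedSectionVars false

namespace Pool.H5Coh

open TopologicalSpace

open St (l2)

/-- isometries of `l2 ℕ` with pairwise orthogonal ranges. -/
theorem exists_cuntz : ∃ J : ℕ → (l2 ℕ →ₗᵢ[ℂ] l2 ℕ), ∀ k j, k ≠ j → ∀ x y,
    inner ℂ (J k x) (J j y) = 0 := by
  classical
  obtain ⟨E⟩ := emb_aux (ℕ × ℕ) ℕ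
  let b : ℕ × ℕ → lp (fun _ : ℕ => ℂ) 2 := fun p =>
    (default : HilbertBasis ℕ ℂ (lp (fun _ : ℕ => ℂ) 2)) (Nat.pairEquiv p)
  have hb : Orthonormal ℂ b :=
    (default : HilbertBasis ℕ ℂ (lp (fun _ : ℕ => ℂ) 2)).orthonormal.comp
      (fun p => Nat.pairEquiv p) Nat.pairEquiv.injective
  have hk : ∀ k, Orthonormal ℂ (fun i : ℕ => b (k, i)) := fun k =>
    hb.comp (fun i : ℕ => (k, i)) (fun i j h => (Prod.ext_iff.mp h).2)
  let J : ℕ → (lp (fun _ : ℕ => ℂ) 2 →ₗᵢ[ℂ] lp (fun _ : ℕ => ℂ) 2) := fun k =>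
    (hk k).orthogonalFamily.linearIsometry
  have h0 : ∀ k j, k ≠ j → ∀ i y, inner ℂ (b (k, i)) (J j y) = 0 := by
    intro k j hkj i y
    have h1 := (hk j).orthogonalFamily.hasSum_linearIsometry y
    have h2 := (innerSL ℂ (b (k, i))).hasSum h1
    have h3 : ∀ l : ℕ, innerSL ℂ (b (k, i))
        ((LinearIsometry.toSpanSingleton ℂ _ ((hk j).1 l)) (y l)) = 0 := by
      intro l
      rw [innerSL_apply_apply, LinearIsometry.toSpanSingleton_apply, inner_smul_right,
        hb.2 (fun h => hkj (Prod.ext_iff.mp h).1), mul_zero]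
    have h4 : HasSum (fun _ : ℕ => (0 : ℂ)) (innerSL ℂ (b (k, i)) (J j y)) := by
      refine h2.congr_fun ?_
      intro l
      exact (h3 l).symm
    have h5 := h4.unique hasSum_zero
    exact h5
  have h6 : ∀ k j, k ≠ j → ∀ x y, inner ℂ (J k x) (J j y) = 0 := by
    intro k j hkj x y
    have h1 := (hk k).orthogonalFamily.hasSum_linearIsometry x
    have h2 := (innerSL ℂ (J j y)).hasSum h1
    have h3 : ∀ l : ℕ, innerSL ℂ (J j y)
        ((LinearIsometry.toSpanSingleton ℂ _ ((hk k).1 l)) (x l)) = 0 := by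
      intro l
      have h7 : inner ℂ (J j y) (b (k, l)) = 0 := by
        rw [← inner_conj_symm, h0 k j hkj l y, map_zero]
      rw [innerSL_apply_apply, LinearIsometry.toSpanSingleton_apply, inner_smul_right, h7,
        mul_zero]
    have h4 : HasSum (fun _ : ℕ => (0 : ℂ)) (innerSL ℂ (J j y) (J k x)) := by
      refine h2.congr_fun ?_
      intro l
      exact (h3 l).symm
    have h5 : inner ℂ (J j y) (J k x) = 0 := h4.unique hasSum_zero
    rw [← inner_conj_symm, h5, map_zero]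
  exact ⟨J, h6⟩


section Core

variable {P : Type*} [NormedAddCommGroup P] [InnerProductSpace ℂ P] [CompleteSpace P]
  {J : ℕ → (P →ₗᵢ[ℂ] P)}
  (hJ : ∀ k j, k ≠ j → ∀ x y, inner ℂ (J k x) (J j y) = 0)
include hJ

theorem ja_jj_ne {k j : ℕ} (h : k ≠ j) (x : P) : ja (J j) (jj (J k) x) = 0 := by
  refine ext_inner_left ℂ fun y => ?_
  rw [← inner_jj, inner_zero_right]
  exact hJ j k h.symm y x

theorem dn_up_ne {k j : ℕ} (h : k ≠ j) (T : P →L[ℂ] P) : dn (J j) (up (J k) T) = 0 := by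
  ext x
  rw [dn_apply, up_apply, ja_jj_ne hJ h]
  rfl

omit hJ in
/-- operators leaving the range of `J k` and its complement invariant. -/
noncomputable def redAlg (J : P →ₗᵢ[ℂ] P) : NonUnitalStarSubalgebra ℂ (P →L[ℂ] P) where
  carrier := {T | T * up J 1 = up J 1 * T}
  add_mem' := by
    intro S T hS hT
    change (S + T) * up J 1 = up J 1 * (S + T)
    rw [add_mul, mul_add]
    exact congrArg₂ _ hS hT
  zero_mem' := by
    change 0 * up J 1 = up J 1 * 0
    rw [zero_mul, mul_zero]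
  mul_mem' := by
    intro S T hS hT
    change (S * T) * up J 1 = up J 1 * (S * T)
    have hS' : S * up J 1 = up J 1 * S := hS
    have hT' : T * up J 1 = up J 1 * T := hT
    rw [mul_assoc, hT', ← mul_assoc, hS', mul_assoc]
  smul_mem' := by
    intro c T hT
    change (c • T) * up J 1 = up J 1 * (c • T)
    have hT' : T * up J 1 = up J 1 * T := hT
    rw [smul_mul_assoc, mul_smul_comm, hT']
  star_mem' := by
    intro T hT
    change star T * up J 1 = up J 1 * star T
    have hT' : T * up J 1 = up J 1 * T := hT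
    have h1 : star (up J 1) = up J 1 := by rw [← up_star, star_one]
    have h2 := congrArg star hT'
    rw [star_mul, star_mul, h1] at h2
    exact h2.symm

omit hJ in
theorem redAlg_closed (J : P →ₗᵢ[ℂ] P) :
    IsClosed (redAlg J : Set (P →L[ℂ] P)) :=
  isClosed_eq (by fun_prop) (by fun_prop)

omit hJ in
theorem up_one_apply (J : P →ₗᵢ[ℂ] P) (x : P) : up J 1 x = jj J (ja J x) := rfl

omit hJ in
theorem red_ja {J : P →ₗᵢ[ℂ] P} {T : P →L[ℂ] P} (hT : T ∈ redAlg J) (x : P) :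
    ja J (T x) = dn J T (ja J x) := by
  have hT' : T * up J 1 = up J 1 * T := hT
  have h1 : (T * up J 1) x = (up J 1 * T) x := by rw [hT']
  have h2 : T (jj J (ja J x)) = jj J (ja J (T x)) := h1
  rw [dn_apply, h2, ja_jj]

omit hJ in
theorem red_jj {J : P →ₗᵢ[ℂ] P} {T : P →L[ℂ] P} (hT : T ∈ redAlg J) (x : P) :
    T (jj J x) = jj J (dn J T x) := by
  have hT' : T * up J 1 = up J 1 * T := hT
  have h1 : (T * up J 1) (jj J x) = (up J 1 * T) (jj J x) := by rw [hT']
  have h2 : T (jj J (ja J (jj J x))) = jj J (ja J (T (jj J x))) := h1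
  rw [ja_jj] at h2
  rw [dn_apply]
  exact h2

omit hJ in
theorem red_dn_left {J : P →ₗᵢ[ℂ] P} {T : P →L[ℂ] P} (hT : T ∈ redAlg J)
    (X : P →L[ℂ] P) : dn J (T * X) = dn J T * dn J X := by
  ext x
  change ja J (T (X (jj J x))) = dn J T (ja J (X (jj J x)))
  rw [red_ja hT]

omit hJ in
theorem red_up_left {J : P →ₗᵢ[ℂ] P} {T : P →L[ℂ] P} (hT : T ∈ redAlg J)
    (X : P →L[ℂ] P) : up J (dn J T * X) = T * up J X := by
  ext x
  change jj J (dn J T (X (ja J x))) = T (jj J (X (ja J x)))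
  rw [red_jj hT]

omit hJ in
theorem red_up_right {J : P →ₗᵢ[ℂ] P} {T : P →L[ℂ] P} (hT : T ∈ redAlg J)
    (X : P →L[ℂ] P) : up J (X * dn J T) = up J X * T := by
  ext x
  change jj J (X (dn J T (ja J x))) = jj J (X (ja J (T x)))
  rw [red_ja hT]

theorem up_mem_redAlg (k j : ℕ) (T : P →L[ℂ] P) : up (J k) T ∈ redAlg (J j) := by
  change up (J k) T * up (J j) 1 = up (J j) 1 * up (J k) T
  by_cases h : k = j
  · subst h
    rw [← up_mul, ← up_mul, mul_one, one_mul]
  · have h1 : up (J k) T * up (J j) 1 = 0 := by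
      ext x
      change jj (J k) (T (ja (J k) (jj (J j) (ja (J j) x)))) = 0
      rw [ja_jj_ne hJ (Ne.symm h), map_zero, map_zero]
    have h2 : up (J j) 1 * up (J k) T = 0 := by
      ext x
      change jj (J j) (ja (J j) (jj (J k) (T (ja (J k) x)))) = 0
      rw [ja_jj_ne hJ h, map_zero]
    rw [h1, h2]

omit hJ in
/-- the operators all of whose blocks are in `A`. -/
noncomputable def blockIn (J : P →ₗᵢ[ℂ] P)
    (A : NonUnitalStarSubalgebra ℂ (P →L[ℂ] P)) :
    NonUnitalStarSubalgebra ℂ (P →L[ℂ] P) where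
  carrier := {T | T ∈ redAlg J ∧ dn J T ∈ A}
  add_mem' := by
    rintro S T ⟨hS, hS'⟩ ⟨hT, hT'⟩
    exact ⟨add_mem hS hT, by rw [map_add]; exact add_mem hS' hT'⟩
  zero_mem' := ⟨zero_mem _, by rw [map_zero]; exact zero_mem _⟩
  mul_mem' := by
    rintro S T ⟨hS, hS'⟩ ⟨hT, hT'⟩
    exact ⟨mul_mem hS hT, by rw [red_dn_left hS]; exact mul_mem hS' hT'⟩
  smul_mem' := by
    rintro c T ⟨hT, hT'⟩
    exact ⟨SMulMemClass.smul_mem c hT, by rw [map_smul]; exact SMulMemClass.smul_mem c hT'⟩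
  star_mem' := by
    rintro T ⟨hT, hT'⟩
    refine ⟨star_mem hT, ?_⟩
    have h1 : dn J (star T) = star (dn J T) := by
      refine ContinuousLinearMap.ext fun x => ext_inner_left ℂ fun y => ?_
      rw [dn_apply, ContinuousLinearMap.star_eq_adjoint, ContinuousLinearMap.star_eq_adjoint,
        ContinuousLinearMap.adjoint_inner_right, ← inner_jj,
        ContinuousLinearMap.adjoint_inner_right, dn_apply, inner_ja]
    rw [h1]
    exact star_mem hT'

omit hJ in
theorem blockIn_closed (J : P →ₗᵢ[ℂ] P)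
    {A : NonUnitalStarSubalgebra ℂ (P →L[ℂ] P)}
    (hA : IsClosed (A : Set (P →L[ℂ] P))) :
    IsClosed (blockIn J A : Set (P →L[ℂ] P)) :=
  (redAlg_closed J).inter (hA.preimage (dn J).continuous)

end Core

section Final

/-- `H^(m+1)(A, B(H))` has countable dimension. -/
def CountDim {H : Type*} [NormedAddCommGroup H] [InnerProductSpace ℂ H] [CompleteSpace H]
    (A : NonUnitalStarSubalgebra ℂ (H →L[ℂ] H)) (m : ℕ) : Prop :=
  ∃ F : ℕ → Cochain A (m + 1), ∀ f : Cochain A (m + 1), (∀ a, cobdy A f a = 0) →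
    ∃ (N : ℕ) (c : ℕ → ℂ) (g : Cochain A m),
      ∀ a, f a = ∑ i ∈ Finset.range N, c i • F i a + cobdy A g a

theorem cobdy_add {H : Type*} [NormedAddCommGroup H] [InnerProductSpace ℂ H]
    [CompleteSpace H] (A : NonUnitalStarSubalgebra ℂ (H →L[ℂ] H)) {n : ℕ}
    (f g : Cochain A n) (a : Fin (n + 1) → A) :
    cobdy A (f + g) a = cobdy A f a + cobdy A g a := by
  have h1 : ∀ b, (f + g) b = f b + g b := fun b => rfl
  unfold cobdy
  simp only [h1, mul_add, add_mul, smul_add, Finset.sum_add_distrib]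
  abel

/-- the coboundary at a tuple, as a linear map in the cochain. -/
noncomputable def cobL {H : Type*} [NormedAddCommGroup H] [InnerProductSpace ℂ H]
    [CompleteSpace H] (A : NonUnitalStarSubalgebra ℂ (H →L[ℂ] H)) {n : ℕ}
    (a : Fin (n + 1) → A) : Cochain A n →ₗ[ℂ] (H →L[ℂ] H) where
  toFun := fun g => cobdy A g a
  map_add' := fun f g => cobdy_add A f g a
  map_smul' := fun c g => cobdy_smul A c g a

variable {P : Type*} [NormedAddCommGroup P] [InnerProductSpace ℂ P] [CompleteSpace P]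

theorem block_data {J : ℕ → (P →ₗᵢ[ℂ] P)}
    (hJ : ∀ k j, k ≠ j → ∀ x y, inner ℂ (J k x) (J j y) = 0) {m : ℕ}
    {A : NonUnitalStarSubalgebra ℂ (P →L[ℂ] P)} (hA : IsClosed (A : Set (P →L[ℂ] P)))
    (hAs : IsSeparable (A : Set (P →L[ℂ] P))) (f : Cochain A (m + 1))
    (hf : ∀ a, cobdy A f a = 0) :
    ∃ C : NonUnitalStarSubalgebra ℂ (P →L[ℂ] P), IsClosed (C : Set (P →L[ℂ] P)) ∧
      IsSeparable (C : Set (P →L[ℂ] P)) ∧ ∃ fj : ℕ → Cochain C (m + 1),
      (∀ j t, cobdy C (fj j) t = 0) ∧ (∀ j, ‖fj j‖ ≤ ‖f‖) ∧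
      ∃ (u : ℕ → (Fin (m + 1) → A) → (Fin (m + 1) → C))
        (d : ℕ → (P →L[ℂ] P) →L[ℂ] (P →L[ℂ] P)),
        (∀ j a, d j (fj j (u j a)) = f a) ∧ (∀ j k, k ≠ j → ∀ a, d j (fj k (u j a)) = 0) ∧
        ∀ j (G : Cochain C m), ∃ g' : Cochain A m, ∀ a, cobdy A g' a = d j (cobdy C G (u j a)) := by
  classical
  obtain ⟨D, hDA, hDc, hDd⟩ := hAs.exists_countable_dense_subset
  set S : Set (P →L[ℂ] P) := ⋃ k : ℕ, up (J k) '' D with hS
  have hSc : S.Countable := Set.countable_iUnion fun k => hDc.image _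
  set C := cstar S with hC
  have hCcl : IsClosed (C : Set (P →L[ℂ] P)) := isClosed_cstar
  have hblock : ∀ j, C ≤ blockIn (J j) A := by
    intro j
    refine cstar_le (blockIn_closed (J j) hA) ?_
    intro T hT
    obtain ⟨k, d, hd, rfl⟩ := Set.mem_iUnion.mp hT
    refine ⟨up_mem_redAlg hJ k j d, ?_⟩
    by_cases h : k = j
    · subst h
      rw [dn_up]
      exact hDA hd
    · rw [dn_up_ne hJ h]
      exact zero_mem _
  have hup : ∀ j, ∀ a ∈ A, up (J j) a ∈ C := by
    intro j a ha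
    have h1 : a ∈ closure D := hDd ha
    have h2 : Set.MapsTo (up (J j)) D (C : Set (P →L[ℂ] P)) := fun d hd =>
      subset_cstar (Set.mem_iUnion.mpr ⟨j, d, hd, rfl⟩)
    have h3 := h2.closure (up (J j)).continuous h1
    rwa [hCcl.closure_eq] at h3
  let dnC : ∀ _ : ℕ, C →L[ℂ] A := fun j => LinearMap.mkContinuous
    { toFun := fun t => ⟨dn (J j) t, (hblock j t.2).2⟩
      map_add' := fun s t => Subtype.ext (map_add (dn (J j)) (s : P →L[ℂ] P) t)
      map_smul' := fun c t => Subtype.ext (map_smul (dn (J j)) c (t : P →L[ℂ] P)) } 1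
    (fun t => by rw [one_mul]; exact norm_dn_le (J j) (t : P →L[ℂ] P))
  let upC : ∀ _ : ℕ, A →L[ℂ] C := fun j => LinearMap.mkContinuous
    { toFun := fun a => ⟨up (J j) a, hup j a a.2⟩
      map_add' := fun s t => Subtype.ext (map_add (up (J j)) (s : P →L[ℂ] P) t)
      map_smul' := fun c t => Subtype.ext (map_smul (up (J j)) c (t : P →L[ℂ] P)) } 1
    (fun t => by rw [one_mul]; exact norm_up_le (J j) (t : P →L[ℂ] P))
  have hdu : ∀ j (a : A), dnC j (upC j a) = a := fun j a => Subtype.ext (dn_up (J j) a)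
  let fj : ∀ _ : ℕ, Cochain C (m + 1) := fun j =>
    (up (J j)).compContinuousMultilinearMap (f.compContinuousLinearMap (fun _ => dnC j))
  have hfj : ∀ j t, fj j t = up (J j) (f (fun i => dnC j (t i))) := fun j t => rfl
  have hfjc : ∀ j t, cobdy C (fj j) t = 0 := by
    intro j t
    have h1 := cob_transport (fun x : C => (x : P →L[ℂ] P)) (fun x : A => (x : P →L[ℂ] P))
      (fun x => dnC j x) (fun s t => Subtype.ext (red_dn_left (hblock j s.2).1 _))
      ((up (J j) : (P →L[ℂ] P) →L[ℂ] (P →L[ℂ] P)) : (P →L[ℂ] P) →ₗ[ℂ] (P →L[ℂ] P))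
      (fun x T => red_up_left (hblock j x.2).1 T)
      (fun x T => red_up_right (hblock j x.2).1 T) (fun b => f b) t
    refine Eq.trans h1 ?_
    have h2 := hf (fun i => dnC j (t i))
    rw [cobdy_eq] at h2
    rw [h2, map_zero]
  have hfjn : ∀ j, ‖fj j‖ ≤ ‖f‖ := by
    intro j
    refine ContinuousMultilinearMap.opNorm_le_bound (by positivity) fun t => ?_
    rw [hfj]
    calc ‖up (J j) (f (fun i => dnC j (t i)))‖ ≤ ‖f (fun i => dnC j (t i))‖ := norm_up_le _ _
      _ ≤ ‖f‖ * ∏ i, ‖dnC j (t i)‖ := f.le_opNorm _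
      _ ≤ ‖f‖ * ∏ i, ‖t i‖ := by
          refine mul_le_mul_of_nonneg_left (Finset.prod_le_prod (fun i _ => norm_nonneg _)
            (fun i _ => norm_dn_le (J j) (t i : P →L[ℂ] P))) (by positivity)
  refine ⟨C, hCcl, separable_adjoin hSc, fj, hfjc, hfjn, fun j a i => upC j (a i),
    fun j => dn (J j), ?_, ?_, ?_⟩
  · intro j a
    rw [hfj, dn_up]
    congr 1
    funext i
    exact hdu j (a i)
  · intro j k hkj a
    rw [hfj, dn_up_ne hJ hkj]
  · intro j G
    let g' : Cochain A m :=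
      (dn (J j)).compContinuousMultilinearMap (G.compContinuousLinearMap (fun _ => upC j))
    refine ⟨g', fun a => ?_⟩
    exact cob_transport (fun x : A => (x : P →L[ℂ] P)) (fun x : C => (x : P →L[ℂ] P))
      (fun x => upC j x) (fun s t => Subtype.ext (up_mul (J j) _ _))
      ((dn (J j) : (P →L[ℂ] P) →L[ℂ] (P →L[ℂ] P)) : (P →L[ℂ] P) →ₗ[ℂ] (P →L[ℂ] P))
      (fun x T => dn_mul_left (J j) (x : P →L[ℂ] P) T)
      (fun x T => dn_mul_right (J j) (x : P →L[ℂ] P) T) (fun b => G b) a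

theorem hasSum_cobdy {C : NonUnitalStarSubalgebra ℂ (P →L[ℂ] P)} {n : ℕ}
    {p : ℕ → Cochain C n} {q : Cochain C n} (h : ∀ x, HasSum (fun k => p k x) (q x))
    (x : Fin (n + 1) → C) : HasSum (fun k => cobdy C (p k) x) (cobdy C q x) := by
  unfold cobdy
  refine (((h _).mul_left _).add ?_).add (((h _).mul_right _).const_smul _)
  exact hasSum_sum fun i _ => (h _).const_smul _

theorem vanishes_of_countDim {J : ℕ → (P →ₗᵢ[ℂ] P)}
    (hJ : ∀ k j, k ≠ j → ∀ x y, inner ℂ (J k x) (J j y) = 0) {m : ℕ}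
    {A : NonUnitalStarSubalgebra ℂ (P →L[ℂ] P)} (hA : IsClosed (A : Set (P →L[ℂ] P)))
    (hAs : IsSeparable (A : Set (P →L[ℂ] P)))
    (hfd : ∀ C : NonUnitalStarSubalgebra ℂ (P →L[ℂ] P), IsClosed (C : Set (P →L[ℂ] P)) →
      IsSeparable (C : Set (P →L[ℂ] P)) → CountDim C m) :
    CohomologyVanishes A m := by
  classical
  intro f hf
  obtain ⟨C, hCcl, hCs, fj, hfjc, hfjn, u, d, hd1, hd0, hG⟩ := block_data hJ hA hAs f hf
  obtain ⟨F, hF⟩ := hfd C hCcl hCs
  have hsum : ∀ τ : Set.Ioo (0 : ℝ) (1 / 2), Summable (fun k : ℕ => ((τ.1 : ℝ) : ℂ) ^ k • fj k) := by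
    intro τ
    have hg : Summable (fun k : ℕ => (1 / 2 : ℝ) ^ k * ‖f‖) :=
      (summable_geometric_of_lt_one (by norm_num) (by norm_num)).mul_right _
    refine Summable.of_norm_bounded (E := Cochain C (m + 1)) hg fun k => ?_
    refine (norm_smul_cochain_le C _ (fj k)).trans ?_
    have h1 : ‖((τ.1 : ℝ) : ℂ) ^ k‖ ≤ (1 / 2 : ℝ) ^ k := by
      rw [norm_pow, Complex.norm_real, Real.norm_of_nonneg τ.2.1.le]
      exact pow_le_pow_left₀ τ.2.1.le τ.2.2.le k
    exact mul_le_mul h1 (hfjn k) (by positivity) (by positivity)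
  set ft : Set.Ioo (0 : ℝ) (1 / 2) → Cochain C (m + 1) :=
    fun τ => ∑' k : ℕ, ((τ.1 : ℝ) : ℂ) ^ k • fj k with hftdef
  have hft : ∀ τ x, HasSum (fun k : ℕ => ((τ.1 : ℝ) : ℂ) ^ k • fj k x) (ft τ x) := fun τ x =>
    ContinuousMultilinearMap.hasSum_eval (hsum τ).hasSum x
  have hftc : ∀ τ x, cobdy C (ft τ) x = 0 := by
    intro τ x
    have h1 := hasSum_cobdy (p := fun k : ℕ => ((τ.1 : ℝ) : ℂ) ^ k • fj k) (q := ft τ)
      (fun y => hft τ y) x
    have h2 : HasSum (fun _ : ℕ => (0 : P →L[ℂ] P)) (cobdy C (ft τ) x) := by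
      refine h1.congr_fun fun k => ?_
      rw [cobdy_smul, hfjc, smul_zero]
    exact h2.unique hasSum_zero
  choose N c g hg using fun τ => hF (ft τ) (hftc τ)
  have hM : ∃ M, ({τ | N τ = M} : Set (Set.Ioo (0 : ℝ) (1 / 2))).Infinite := by
    by_contra hcon
    push Not at hcon
    have h1 : (Set.univ : Set (Set.Ioo (0 : ℝ) (1 / 2))) = ⋃ M, {τ | N τ = M} := by
      ext τ
      simp
    have h2 : (Set.univ : Set (Set.Ioo (0 : ℝ) (1 / 2))).Countable := by
      rw [h1]
      exact Set.countable_iUnion fun M => (hcon M).countable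
    have h3 : Countable (Set.Ioo (0 : ℝ) (1 / 2)) := Set.countable_univ_iff.mp h2
    have h4 : (Set.Ioo (0 : ℝ) (1 / 2)).Countable := Set.countable_coe_iff.mp h3
    exact absurd h4 (Cardinal.Real.Ioo_countable_iff.not.mpr (by norm_num))
  obtain ⟨M, hM⟩ := hM
  let s := hM.natEmbedding
  let σ : Fin (M + 1) → Set.Ioo (0 : ℝ) (1 / 2) := fun i => (s i).1
  have hσN : ∀ i, N (σ i) = M := fun i => (s i).2
  have hσinj : Function.Injective σ := by
    intro i j hij
    have h1 : s i = s j := Subtype.ext hij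
    exact Fin.ext (s.injective h1)
  let v : Fin (M + 1) → (Fin M → ℂ) := fun i k => c (σ i) k
  have hdep : ¬ LinearIndependent ℂ v := by
    intro hli
    have h1 := hli.fintype_card_le_finrank
    rw [Fintype.card_fin, Module.finrank_fin_fun] at h1
    omega
  obtain ⟨l, hl, j₀, hj₀⟩ := Fintype.not_linearIndependent_iff.mp hdep
  set G : Cochain C m := ∑ j, l j • g (σ j) with hGdef
  have hGc : ∀ t, cobdy C G t = ∑ j : Fin (M + 1), l j • ft (σ j) t := by
    intro t
    have h1 : cobdy C G t = ∑ j, l j • cobdy C (g (σ j)) t := by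
      change cobL C t G = _
      rw [hGdef, map_sum]
      refine Finset.sum_congr rfl fun j _ => ?_
      rw [map_smul]
      rfl
    have h2 : ∑ j : Fin (M + 1), l j • ft (σ j) t =
        ∑ j : Fin (M + 1), l j • (∑ i ∈ Finset.range M, c (σ j) i • F i t)
          + ∑ j, l j • cobdy C (g (σ j)) t := by
      rw [← Finset.sum_add_distrib]
      refine Finset.sum_congr rfl fun j _ => ?_
      rw [hg (σ j) t, smul_add, hσN]
    have h3 : ∑ j : Fin (M + 1), l j • (∑ i ∈ Finset.range M, c (σ j) i • F i t) = 0 := by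
      have h4 : ∀ j : Fin (M + 1), l j • (∑ i ∈ Finset.range M, c (σ j) i • F i t) =
          ∑ i ∈ Finset.range M, (l j * c (σ j) i) • F i t := by
        intro j
        rw [Finset.smul_sum]
        exact Finset.sum_congr rfl fun i _ => smul_smul _ _ _
      rw [Finset.sum_congr rfl (fun j _ => h4 j), Finset.sum_comm]
      refine Finset.sum_eq_zero fun i hi => ?_
      rw [← Finset.sum_smul]
      have h5 : ∑ j : Fin (M + 1), l j * c (σ j) i = 0 := by
        have h6 := congrFun hl ⟨i, Finset.mem_range.mp hi⟩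
        rw [Finset.sum_apply] at h6
        exact h6
      rw [h5, zero_smul]
    rw [h1, h2, h3, zero_add]
  have hV : ∃ j : Fin (M + 1), ∑ i, l i * (((σ i).1 : ℝ) : ℂ) ^ (j : ℕ) ≠ 0 := by
    by_contra hcon
    push Not at hcon
    have hinj : Function.Injective (fun i : Fin (M + 1) => (((σ i).1 : ℝ) : ℂ)) := by
      intro i j hij
      have h1 : (σ i).1 = (σ j).1 := Complex.ofReal_injective hij
      exact hσinj (Subtype.ext h1)
    have hdet := Matrix.det_vandermonde_ne_zero_iff.mpr hinj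
    have h2 : l = 0 := by
      refine Matrix.eq_zero_of_vecMul_eq_zero hdet ?_
      funext j
      exact hcon j
    exact hj₀ (congrFun h2 j₀)
  obtain ⟨j, hj⟩ := hV
  obtain ⟨g', hg'⟩ := hG j G
  have hft2 : ∀ τ a, d j (ft τ (u j a)) = ((τ.1 : ℝ) : ℂ) ^ (j : ℕ) • f a := by
    intro τ a
    have h1 := (d j).hasSum (hft τ (u j a))
    have h2 : HasSum (fun k : ℕ => d j (((τ.1 : ℝ) : ℂ) ^ k • fj k (u j a)))
        (((τ.1 : ℝ) : ℂ) ^ (j : ℕ) • f a) := by
      have h3 := hasSum_single (f := fun k : ℕ => d j (((τ.1 : ℝ) : ℂ) ^ k • fj k (u j a)))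
        (j : ℕ) (fun k hk => by rw [map_smul, hd0 j k hk, smul_zero])
      rw [map_smul, hd1] at h3
      exact h3
    exact h1.unique h2
  have hg'' : ∀ a, cobdy A g' a = (∑ i, l i * (((σ i).1 : ℝ) : ℂ) ^ (j : ℕ)) • f a := by
    intro a
    rw [hg', hGc, map_sum, Finset.sum_smul]
    refine Finset.sum_congr rfl fun i _ => ?_
    rw [map_smul, hft2, smul_smul]
  refine ⟨(∑ i, l i * (((σ i).1 : ℝ) : ℂ) ^ (j : ℕ))⁻¹ • g', fun a => ?_⟩
  rw [cobdy_smul, hg'', smul_smul, inv_mul_cancel₀ hj, one_smul]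

end Final

end Pool.H5Coh
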