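import Pool.Agent.H5.Coh.Basic
import Pool.Agent.H5.Coh.Defs

/-!
# Transport along an isometry of Hilbert spaces
-/

set_option linter.unusedSectionVars false

namespace Pool.H5Coh

open TopologicalSpace

open St (l2)

section Exists

theorem countable_orthonormal {E : Type*} [NormedAddCommGroup E] [InnerProductSpace ℂ E]
    [SeparableSpace E] {w : Set E} (hw : Orthonormal ℂ ((↑) : w → E)) : w.Countable := by
  refine Set.PairwiseDisjoint.countable_of_isOpen (s := fun x : E => Metric.ball x (1 / 2)) ?_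
    (fun x _ => Metric.isOpen_ball) (fun x _ => ⟨x, Metric.mem_ball_self (by norm_num)⟩)
  intro x hx y hy hxy
  apply Metric.ball_disjoint_ball
  have h1 : ‖x - y‖ ^ 2 = 2 := by
    have hx1 : ‖x‖ = 1 := hw.1 ⟨x, hx⟩
    have hy1 : ‖y‖ = 1 := hw.1 ⟨y, hy⟩
    have hxy' : inner ℂ x y = 0 := hw.2 (i := ⟨x, hx⟩) (j := ⟨y, hy⟩)
      (fun h => hxy (congrArg Subtype.val h))
    rw [norm_sub_sq (𝕜 := ℂ), hx1, hy1, hxy']
    norm_num
  rw [dist_eq_norm]
  nlinarith [norm_nonneg (x - y)]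

theorem emb_aux (κ : Type*) (ι : Type*) [Countable κ] [Infinite ι] :
    Nonempty (lp (fun _ : κ => ℂ) 2 →ₗᵢ[ℂ] lp (fun _ : ι => ℂ) 2) := by
  classical
  obtain ⟨e, he⟩ := exists_injective_nat κ
  let v : κ → lp (fun _ : ι => ℂ) 2 := fun i =>
    (default : HilbertBasis ι ℂ (lp (fun _ : ι => ℂ) 2)) (Infinite.natEmbedding ι (e i))
  have hv : Orthonormal ℂ v :=
    (default : HilbertBasis ι ℂ (lp (fun _ : ι => ℂ) 2)).orthonormal.comp
      (fun i => Infinite.natEmbedding ι (e i)) ((Infinite.natEmbedding ι).injective.comp he)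
  exact ⟨hv.orthogonalFamily.linearIsometry⟩

theorem exists_isometry_aux (H : Type*) [NormedAddCommGroup H] [InnerProductSpace ℂ H]
    [CompleteSpace H] [SeparableSpace H] (ι : Type*) [Infinite ι] :
    Nonempty (H →ₗᵢ[ℂ] lp (fun _ : ι => ℂ) 2) := by
  classical
  obtain ⟨w, b, hb⟩ := exists_hilbertBasis ℂ H
  have hw : w.Countable := countable_orthonormal (by rw [← hb]; exact b.orthonormal)
  have : Countable w := hw.to_subtype
  obtain ⟨J⟩ := emb_aux w ι
  exact ⟨J.comp b.repr.toLinearIsometry⟩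

theorem emb (κ : Type*) (ι : Type*) [Countable κ] [Infinite ι] :
    Nonempty (l2 κ →ₗᵢ[ℂ] l2 ι) := emb_aux κ ι

theorem exists_isometry (H : Type*) [NormedAddCommGroup H] [InnerProductSpace ℂ H]
    [CompleteSpace H] [SeparableSpace H] (ι : Type*) [Infinite ι] :
    Nonempty (H →ₗᵢ[ℂ] l2 ι) := exists_isometry_aux H ι

end Exists

variable {H P : Type*} [NormedAddCommGroup H] [InnerProductSpace ℂ H] [CompleteSpace H]
  [NormedAddCommGroup P] [InnerProductSpace ℂ P] [CompleteSpace P] (J : H →ₗᵢ[ℂ] P)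

/-- the isometry as a continuous linear map. -/
noncomputable def jj : H →L[ℂ] P := J.toContinuousLinearMap

/-- its adjoint. -/
noncomputable def ja : P →L[ℂ] H := ContinuousLinearMap.adjoint (jj J)

theorem ja_jj (x : H) : ja J (jj J x) = x := by
  refine ext_inner_left ℂ fun y => ?_
  rw [ja, ContinuousLinearMap.adjoint_inner_right]
  exact J.inner_map_map y x

theorem inner_jj (x : H) (y : P) : inner ℂ (jj J x) y = inner ℂ x (ja J y) := by
  rw [ja, ContinuousLinearMap.adjoint_inner_right]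

theorem inner_ja (x : H) (y : P) : inner ℂ (ja J y) x = inner ℂ y (jj J x) := by
  rw [ja, ContinuousLinearMap.adjoint_inner_left]

theorem norm_jj_le : ‖jj J‖ ≤ 1 := J.norm_toContinuousLinearMap_le

theorem norm_ja_le : ‖ja J‖ ≤ 1 := by
  rw [ja, LinearIsometryEquiv.norm_map]
  exact norm_jj_le J

/-- `T ↦ J T J*`. -/
noncomputable def up : (H →L[ℂ] H) →L[ℂ] (P →L[ℂ] P) :=
  (ContinuousLinearMap.compL ℂ P H P (jj J)).comp
    ((ContinuousLinearMap.compL ℂ P H H).flip (ja J))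

theorem up_apply (T : H →L[ℂ] H) (x : P) : up J T x = jj J (T (ja J x)) := rfl

/-- `T ↦ J* T J`. -/
noncomputable def dn : (P →L[ℂ] P) →L[ℂ] (H →L[ℂ] H) :=
  (ContinuousLinearMap.compL ℂ H P H (ja J)).comp
    ((ContinuousLinearMap.compL ℂ H P P).flip (jj J))

theorem dn_apply (T : P →L[ℂ] P) (x : H) : dn J T x = ja J (T (jj J x)) := rfl

theorem norm_up_le (T : H →L[ℂ] H) : ‖up J T‖ ≤ ‖T‖ := by
  have h1 : ‖(jj J).comp (T.comp (ja J))‖ ≤ ‖jj J‖ * ‖T.comp (ja J)‖ :=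
    ContinuousLinearMap.opNorm_comp_le _ _
  have h2 : ‖T.comp (ja J)‖ ≤ ‖T‖ * ‖ja J‖ := ContinuousLinearMap.opNorm_comp_le _ _
  have h3 := norm_jj_le J
  have h4 := norm_ja_le J
  calc ‖up J T‖ ≤ ‖jj J‖ * ‖T.comp (ja J)‖ := h1
    _ ≤ 1 * (‖T‖ * 1) := by gcongr; exact h2.trans (by gcongr)
    _ = ‖T‖ := by ring

theorem norm_dn_le (T : P →L[ℂ] P) : ‖dn J T‖ ≤ ‖T‖ := by
  have h1 : ‖(ja J).comp (T.comp (jj J))‖ ≤ ‖ja J‖ * ‖T.comp (jj J)‖ :=
    ContinuousLinearMap.opNorm_comp_le _ _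
  have h2 : ‖T.comp (jj J)‖ ≤ ‖T‖ * ‖jj J‖ := ContinuousLinearMap.opNorm_comp_le _ _
  have h3 := norm_jj_le J
  have h4 := norm_ja_le J
  calc ‖dn J T‖ ≤ ‖ja J‖ * ‖T.comp (jj J)‖ := h1
    _ ≤ 1 * (‖T‖ * 1) := by gcongr; exact h2.trans (by gcongr)
    _ = ‖T‖ := by ring

theorem dn_up (T : H →L[ℂ] H) : dn J (up J T) = T := by
  ext x
  rw [dn_apply, up_apply, ja_jj, ja_jj]

theorem up_mul (S T : H →L[ℂ] H) : up J (S * T) = up J S * up J T := by
  ext x
  change jj J (S (T (ja J x))) = jj J (S (ja J (jj J (T (ja J x)))))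
  rw [ja_jj]

theorem up_star (T : H →L[ℂ] H) : up J (star T) = star (up J T) := by
  refine ContinuousLinearMap.ext fun x => ext_inner_left ℂ fun y => ?_
  rw [up_apply, ContinuousLinearMap.star_eq_adjoint, ContinuousLinearMap.star_eq_adjoint,
    ContinuousLinearMap.adjoint_inner_right, up_apply, inner_jj, ← inner_ja,
    ContinuousLinearMap.adjoint_inner_right]

theorem dn_mul_left (S : H →L[ℂ] H) (T : P →L[ℂ] P) : dn J (up J S * T) = S * dn J T := by
  ext x
  change ja J (jj J (S (ja J (T (jj J x))))) = S (ja J (T (jj J x)))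
  rw [ja_jj]

theorem dn_mul_right (S : H →L[ℂ] H) (T : P →L[ℂ] P) : dn J (T * up J S) = dn J T * S := by
  ext x
  change ja J (T (jj J (S (ja J (jj J x))))) = ja J (T (jj J (S x)))
  rw [ja_jj]

/-- the algebra `J A J*`. -/
noncomputable def mapAlg (A : NonUnitalStarSubalgebra ℂ (H →L[ℂ] H)) :
    NonUnitalStarSubalgebra ℂ (P →L[ℂ] P) where
  carrier := {t | ∃ a ∈ A, up J a = t}
  add_mem' := by
    rintro _ _ ⟨b, hb, rfl⟩ ⟨c, hc, rfl⟩
    exact ⟨b + c, add_mem hb hc, map_add _ _ _⟩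
  zero_mem' := ⟨0, zero_mem _, map_zero _⟩
  mul_mem' := by
    rintro _ _ ⟨b, hb, rfl⟩ ⟨c, hc, rfl⟩
    exact ⟨b * c, mul_mem hb hc, up_mul J b c⟩
  smul_mem' := by
    rintro r _ ⟨b, hb, rfl⟩
    exact ⟨r • b, SMulMemClass.smul_mem r hb, map_smul _ _ _⟩
  star_mem' := by
    rintro _ ⟨b, hb, rfl⟩
    exact ⟨star b, star_mem hb, up_star J b⟩

variable (A : NonUnitalStarSubalgebra ℂ (H →L[ℂ] H))

theorem mapAlg_closed (hA : IsClosed (A : Set (H →L[ℂ] H))) :
    IsClosed (mapAlg J A : Set (P →L[ℂ] P)) := by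
  have h1 : (mapAlg J A : Set (P →L[ℂ] P)) =
      {T | up J (dn J T) = T} ∩ (dn J) ⁻¹' (A : Set (H →L[ℂ] H)) := by
    ext T
    constructor
    · rintro ⟨a, ha, rfl⟩
      refine ⟨?_, ?_⟩
      · change up J (dn J (up J a)) = up J a
        rw [dn_up]
      · change dn J (up J a) ∈ A
        rw [dn_up]
        exact ha
    · rintro ⟨h1, h2⟩
      exact ⟨dn J T, h2, h1⟩
  rw [h1]
  refine IsClosed.inter (isClosed_eq ?_ continuous_id) (hA.preimage (dn J).continuous)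
  exact (up J).continuous.comp (dn J).continuous

theorem mapAlg_sep (hA : IsSeparable (A : Set (H →L[ℂ] H))) :
    IsSeparable (mapAlg J A : Set (P →L[ℂ] P)) := by
  have h2 : (mapAlg J A : Set (P →L[ℂ] P)) = up J '' (A : Set (H →L[ℂ] H)) := by
    ext t
    constructor
    · rintro ⟨b, hb, rfl⟩
      exact ⟨b, hb, rfl⟩
    · rintro ⟨b, hb, rfl⟩
      exact ⟨b, hb, rfl⟩
  rw [h2]
  exact hA.image (up J).continuous

/-- the elements whose image is in `C`. -/
noncomputable def comapAlg (C : NonUnitalStarSubalgebra ℂ (P →L[ℂ] P)) :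
    NonUnitalStarSubalgebra ℂ (H →L[ℂ] H) where
  carrier := {T | up J T ∈ C}
  add_mem' := by
    intro x y hx hy
    change up J (x + y) ∈ C
    rw [map_add]
    exact add_mem hx hy
  zero_mem' := by
    change up J 0 ∈ C
    rw [map_zero]
    exact zero_mem _
  mul_mem' := by
    intro x y hx hy
    change up J (x * y) ∈ C
    rw [up_mul]
    exact mul_mem hx hy
  smul_mem' := by
    intro r x hx
    change up J (r • x) ∈ C
    rw [map_smul]
    exact SMulMemClass.smul_mem r hx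
  star_mem' := by
    intro x hx
    change up J (star x) ∈ C
    rw [up_star]
    exact star_mem hx

theorem mapAlg_cstar (F : Set (H →L[ℂ] H)) : mapAlg J (cstar F) = cstar (up J '' F) := by
  apply le_antisymm
  · rintro _ ⟨b, hb, rfl⟩
    have h1 : cstar F ≤ comapAlg J (cstar (up J '' F)) := by
      refine cstar_le ?_ ?_
      · exact isClosed_cstar.preimage (up J).continuous
      · intro s hs
        exact subset_cstar ⟨s, hs, rfl⟩
    exact h1 hb
  · refine cstar_le (mapAlg_closed J _ isClosed_cstar) ?_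
    rintro _ ⟨s, hs, rfl⟩
    exact ⟨s, subset_cstar hs, rfl⟩

/-- `a ↦ J a J*` onto the image algebra. -/
noncomputable def upA : A →L[ℂ] mapAlg J A :=
  LinearMap.mkContinuous
    { toFun := fun a => ⟨up J a, a, a.2, rfl⟩
      map_add' := fun a b => Subtype.ext (map_add (up J) (a : H →L[ℂ] H) b)
      map_smul' := fun c a => Subtype.ext (map_smul (up J) c (a : H →L[ℂ] H)) } 1
    (fun a => by rw [one_mul]; exact norm_up_le J (a : H →L[ℂ] H))

theorem dn_mem {T : P →L[ℂ] P} (hT : T ∈ mapAlg J A) : dn J T ∈ A := by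
  obtain ⟨a, ha, rfl⟩ := hT
  rw [dn_up]
  exact ha

theorem up_dn {T : P →L[ℂ] P} (hT : T ∈ mapAlg J A) : up J (dn J T) = T := by
  obtain ⟨a, ha, rfl⟩ := hT
  rw [dn_up]

/-- the inverse map. -/
noncomputable def dnA : mapAlg J A →L[ℂ] A :=
  LinearMap.mkContinuous
    { toFun := fun t => ⟨dn J t, dn_mem J A t.2⟩
      map_add' := fun a b => Subtype.ext (map_add (dn J) (a : P →L[ℂ] P) b)
      map_smul' := fun c a => Subtype.ext (map_smul (dn J) c (a : P →L[ℂ] P)) } 1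
    (fun a => by rw [one_mul]; exact norm_dn_le J (a : P →L[ℂ] P))

theorem upA_coe (a : A) : ((upA J A a : mapAlg J A) : P →L[ℂ] P) = up J (a : H →L[ℂ] H) := rfl

theorem dnA_coe (t : mapAlg J A) : ((dnA J A t : A) : H →L[ℂ] H) = dn J (t : P →L[ℂ] P) := rfl

theorem norm_upA_le (a : A) : ‖upA J A a‖ ≤ ‖a‖ := norm_up_le J (a : H →L[ℂ] H)

theorem norm_dnA_le (t : mapAlg J A) : ‖dnA J A t‖ ≤ ‖t‖ := norm_dn_le J (t : P →L[ℂ] P)

theorem upA_mul (a b : A) : upA J A (a * b) = upA J A a * upA J A b :=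
  Subtype.ext (up_mul J a b)

theorem dnA_upA (a : A) : dnA J A (upA J A a) = a := Subtype.ext (dn_up J a)

theorem dnA_mul (s t : mapAlg J A) : dnA J A (s * t) = dnA J A s * dnA J A t := by
  apply Subtype.ext
  change dn J ((s : P →L[ℂ] P) * t) = dn J s * dn J t
  have h1 : (s : P →L[ℂ] P) = up J (dn J s) := (up_dn J A s.2).symm
  rw [h1, dn_mul_left, ← h1]

theorem iso_transport {m : ℕ} (f : Cochain A (m + 1)) (hf : ∀ a, cobdy A f a = 0) :
    ∃ f₃ : Cochain (mapAlg J A) (m + 1), (∀ t, cobdy (mapAlg J A) f₃ t = 0) ∧ ‖f₃‖ ≤ ‖f‖ ∧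
    ∀ g₃ : Cochain (mapAlg J A) m, (∀ t, cobdy (mapAlg J A) g₃ t = f₃ t) →
      ∃ g : Cochain A m, (∀ a, cobdy A g a = f a) ∧ ‖g‖ ≤ ‖g₃‖ := by
  let f₃ : Cochain (mapAlg J A) (m + 1) :=
    (up J).compContinuousMultilinearMap (f.compContinuousLinearMap (fun _ => dnA J A))
  have hf₃ : ∀ t, f₃ t = up J (f (fun j => dnA J A (t j))) := fun t => rfl
  refine ⟨f₃, fun t => ?_, ?_, fun g₃ hg₃ => ?_⟩
  · have h1 := cob_transport (fun x : mapAlg J A => (x : P →L[ℂ] P))
      (fun x : A => (x : H →L[ℂ] H)) (fun x => dnA J A x) (dnA_mul J A)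
      ((up J : (H →L[ℂ] H) →L[ℂ] (P →L[ℂ] P)) : (H →L[ℂ] H) →ₗ[ℂ] (P →L[ℂ] P))
      (fun x T => by
        change up J ((dnA J A x : A) * T) = (x : P →L[ℂ] P) * up J T
        rw [up_mul, dnA_coe, up_dn J A x.2])
      (fun x T => by
        change up J (T * (dnA J A x : A)) = up J T * (x : P →L[ℂ] P)
        rw [up_mul, dnA_coe, up_dn J A x.2]) (fun b => f b) t
    refine Eq.trans h1 ?_
    have h2 := hf (fun j => dnA J A (t j))
    rw [cobdy_eq] at h2
    rw [h2, map_zero]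
  · refine ContinuousMultilinearMap.opNorm_le_bound (by positivity) fun t => ?_
    rw [hf₃]
    calc ‖up J (f (fun j => dnA J A (t j)))‖ ≤ ‖f (fun j => dnA J A (t j))‖ := norm_up_le J _
      _ ≤ ‖f‖ * ∏ j, ‖dnA J A (t j)‖ := f.le_opNorm _
      _ ≤ ‖f‖ * ∏ j, ‖t j‖ := by
          refine mul_le_mul_of_nonneg_left (Finset.prod_le_prod (fun j _ => norm_nonneg _)
            (fun j _ => norm_dnA_le J A (t j))) (by positivity)
  · let g : Cochain A m :=
      (dn J).compContinuousMultilinearMap (g₃.compContinuousLinearMap (fun _ => upA J A))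
    have hg : ∀ a, g a = dn J (g₃ (fun j => upA J A (a j))) := fun a => rfl
    refine ⟨g, fun a => ?_, ?_⟩
    · have h1 := cob_transport (fun x : A => (x : H →L[ℂ] H))
        (fun x : mapAlg J A => (x : P →L[ℂ] P)) (fun x => upA J A x) (upA_mul J A)
        ((dn J : (P →L[ℂ] P) →L[ℂ] (H →L[ℂ] H)) : (P →L[ℂ] P) →ₗ[ℂ] (H →L[ℂ] H))
        (fun x T => dn_mul_left J (x : H →L[ℂ] H) T)
        (fun x T => dn_mul_right J (x : H →L[ℂ] H) T) (fun b => g₃ b) a
      refine Eq.trans h1 ?_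
      have h2 := hg₃ (fun j => upA J A (a j))
      rw [cobdy_eq] at h2
      rw [h2, hf₃]
      change dn J (up J (f fun j => dnA J A (upA J A (a j)))) = f a
      rw [dn_up]
      congr 1
      funext j
      exact dnA_upA J A (a j)
    · refine ContinuousMultilinearMap.opNorm_le_bound (by positivity) fun a => ?_
      rw [hg]
      calc ‖dn J (g₃ (fun j => upA J A (a j)))‖ ≤ ‖g₃ (fun j => upA J A (a j))‖ :=
            norm_dn_le J _
        _ ≤ ‖g₃‖ * ∏ j, ‖upA J A (a j)‖ := g₃.le_opNorm _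
        _ ≤ ‖g₃‖ * ∏ j, ‖a j‖ := by
            refine mul_le_mul_of_nonneg_left (Finset.prod_le_prod (fun j _ => norm_nonneg _)
              (fun j _ => norm_upA_le J A (a j))) (by positivity)

theorem vanishes_of_mapAlg {m : ℕ} (h : CohomologyVanishes (mapAlg J A) m) :
    CohomologyVanishes A m := by
  intro f hf
  obtain ⟨f₃, hf₃, -, hs⟩ := iso_transport J A f hf
  obtain ⟨g₃, hg₃⟩ := h f₃ hf₃
  obtain ⟨g, hg, -⟩ := hs g₃ hg₃
  exact ⟨g, hg⟩

theorem vanishesWith_of_mapAlg {m : ℕ} {K : ℝ} (h : VanishesWith (mapAlg J A) m K) :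
    VanishesWith A m |K| := by
  intro f hf
  obtain ⟨f₃, hf₃, hn, hs⟩ := iso_transport J A f hf
  obtain ⟨g₃, hg₃, hgn⟩ := h f₃ hf₃
  obtain ⟨g, hg, hgn'⟩ := hs g₃ hg₃
  refine ⟨g, hg, hgn'.trans (hgn.trans ?_)⟩
  have h1 : K * ‖f₃‖ ≤ |K| * ‖f₃‖ := mul_le_mul_of_nonneg_right (le_abs_self K) (by positivity)
  exact h1.trans (mul_le_mul_of_nonneg_left hn (abs_nonneg K))

end Pool.H5Coh
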