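import Pool.Agent.H5.Coh.NearA

/-!
# Norm-decreasing representatives and separable cohomology
-/

set_option linter.unusedSectionVars false

namespace Pool.H5Coh

open TopologicalSpace Filter Topology

open St (l2)

section Lin

variable {H : Type*} [NormedAddCommGroup H] [InnerProductSpace ℂ H] [CompleteSpace H]
  (A : NonUnitalStarSubalgebra ℂ (H →L[ℂ] H))

theorem cobdy_add {n : ℕ} (f g : Cochain A n) (a : Fin (n + 1) → A) :
    cobdy A (f + g) a = cobdy A f a + cobdy A g a := by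
  have h1 : ∀ b, (f + g) b = f b + g b := fun b => rfl
  unfold cobdy
  simp only [h1, mul_add, add_mul, smul_add, Finset.sum_add_distrib]
  abel

theorem cobdy_sub {n : ℕ} (f g : Cochain A n) (a : Fin (n + 1) → A) :
    cobdy A (f - g) a = cobdy A f a - cobdy A g a := by
  have h1 : ∀ b, (f - g) b = f b - g b := fun b => rfl
  unfold cobdy
  simp only [h1, mul_sub, sub_mul, smul_sub, Finset.sum_sub_distrib]
  abel

theorem hasSum_cobdy {n : ℕ}
    {p : ℕ → Cochain A n} {q : Cochain A n} (h : ∀ x, HasSum (fun k => p k x) (q x))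
    (x : Fin (n + 1) → A) : HasSum (fun k => cobdy A (p k) x) (cobdy A q x) := by
  unfold cobdy
  refine (((h _).mul_left _).add ?_).add (((h _).mul_right _).const_smul _)
  exact hasSum_sum fun i _ => (h _).const_smul _

/-- every nonzero cocycle is cohomologous to a cocycle of smaller norm. -/
def NoMinimal (m : ℕ) : Prop :=
  ∀ f : Cochain A (m + 1), (∀ a, cobdy A f a = 0) → f ≠ 0 →
    ∃ (g : Cochain A m) (h : Cochain A (m + 1)), (∀ a, cobdy A h a = 0) ∧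
      (∀ a, f a = cobdy A g a + h a) ∧ ‖h‖ < ‖f‖

/-- the cohomology is separable in the quotient seminorm. -/
def SepCoh (m : ℕ) : Prop :=
  ∃ F : ℕ → Cochain A (m + 1), (∀ i a, cobdy A (F i) a = 0) ∧
    ∀ f : Cochain A (m + 1), (∀ a, cobdy A f a = 0) →
    ∀ ε : ℝ, 0 < ε → ∃ (i : ℕ) (g : Cochain A m) (h : Cochain A (m + 1)),
      (∀ a, cobdy A h a = 0) ∧ (∀ a, f a = cobdy A g a + (F i a + h a)) ∧ ‖h‖ < ε

/-- iteration. -/
theorem vanishes_of_shrink {m : ℕ} {K θ : ℝ} (hK : 0 ≤ K) (hθ0 : 0 ≤ θ) (hθ : θ < 1)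
    (h : ∀ f : Cochain A (m + 1), (∀ a, cobdy A f a = 0) →
      ∃ (g : Cochain A m) (h : Cochain A (m + 1)), (∀ a, cobdy A h a = 0) ∧
        (∀ a, f a = cobdy A g a + h a) ∧ ‖g‖ ≤ K * ‖f‖ ∧ ‖h‖ ≤ θ * ‖f‖) :
    CohomologyVanishes A m := by
  intro f hf
  choose G R hR hGR hGn hRn using h
  let T : Type _ := {f : Cochain A (m + 1) // ∀ a, cobdy A f a = 0}
  let nx : T → T := fun t => ⟨R t.1 t.2, hR t.1 t.2⟩
  let s : ℕ → T := fun n => nx^[n] ⟨f, hf⟩
  have hs : ∀ n, s (n + 1) = nx (s n) := fun n => Function.iterate_succ_apply' nx n ⟨f, hf⟩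
  let g : ℕ → Cochain A m := fun n => G (s n).1 (s n).2
  have hsn : ∀ n, ‖(s n).1‖ ≤ θ ^ n * ‖f‖ := by
    intro n
    induction n with
    | zero => rw [pow_zero, one_mul]; exact le_rfl
    | succ n ih =>
      rw [hs]
      refine (hRn (s n).1 (s n).2).trans ?_
      rw [pow_succ', mul_assoc]
      exact mul_le_mul_of_nonneg_left ih hθ0
  have hgn : ∀ n, ‖g n‖ ≤ θ ^ n * (K * ‖f‖) := by
    intro n
    refine (hGn (s n).1 (s n).2).trans ?_
    calc K * ‖(s n).1‖ ≤ K * (θ ^ n * ‖f‖) := mul_le_mul_of_nonneg_left (hsn n) hK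
      _ = θ ^ n * (K * ‖f‖) := by ring
  have hsum : Summable g := by
    have hg : Summable (fun k : ℕ => θ ^ k * (K * ‖f‖)) :=
      (summable_geometric_of_lt_one hθ0 hθ).mul_right _
    exact Summable.of_norm_bounded (E := Cochain A m) hg hgn
  have hpt : ∀ x, HasSum (fun k => g k x) ((∑' k, g k) x) := fun x =>
    ContinuousMultilinearMap.hasSum_eval hsum.hasSum x
  refine ⟨∑' k, g k, fun a => ?_⟩
  have h1 := hasSum_cobdy A hpt a
  have h2 : ∀ k, cobdy A (g k) a = (s k).1 a - (s (k + 1)).1 a := by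
    intro k
    have h3 := hGR (s k).1 (s k).2 a
    have h4 : (s (k + 1)).1 = R (s k).1 (s k).2 := by rw [hs]
    rw [h4, h3, add_sub_cancel_right]
  have h3 : ∀ n, ∑ k ∈ Finset.range n, cobdy A (g k) a = f a - (s n).1 a := by
    intro n
    rw [Finset.sum_congr rfl (fun k _ => h2 k), Finset.sum_range_sub']
    rfl
  have h4 : Tendsto (fun n => f a - (s n).1 a) atTop (𝓝 (cobdy A (∑' k, g k) a)) := by
    refine (h1.tendsto_sum_nat).congr h3
  have h5 : Tendsto (fun n => (s n).1 a) atTop (𝓝 0) := by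
    refine squeeze_zero_norm (a := fun n : ℕ => θ ^ n * (‖f‖ * ∏ i, ‖a i‖)) (fun n => ?_) ?_
    · refine ((s n).1.le_of_opNorm_le (hsn n) a).trans (le_of_eq ?_)
      ring
    · have h6 := (tendsto_pow_atTop_nhds_zero_of_lt_one hθ0 hθ).mul_const (‖f‖ * ∏ i, ‖a i‖)
      rwa [zero_mul] at h6
  have h6 : Tendsto (fun n => f a - (s n).1 a) atTop (𝓝 (f a - 0)) := h5.const_sub _
  rw [sub_zero] at h6
  exact tendsto_nhds_unique h4 h6

theorem norm_zero_cochain {n : ℕ} : ‖(0 : Cochain A n)‖ ≤ 0 :=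
  ContinuousMultilinearMap.opNorm_le_bound le_rfl fun b => by
    rw [zero_mul]
    exact norm_zero.le

theorem eq_zero_of_norm {n : ℕ} {f : Cochain A n} (h : ‖f‖ ≤ 0) (a : Fin n → A) : f a = 0 := by
  have h1 := f.le_of_opNorm_le h a
  rw [zero_mul] at h1
  exact norm_le_zero_iff.mp h1

theorem shrink_scale {m : ℕ} {K θ : ℝ}
    (h : ∀ f : Cochain A (m + 1), (∀ a, cobdy A f a = 0) → ‖f‖ ≤ 1 →
      ∃ (g : Cochain A m) (h : Cochain A (m + 1)), (∀ a, cobdy A h a = 0) ∧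
        (∀ a, f a = cobdy A g a + h a) ∧ ‖g‖ ≤ K ∧ ‖h‖ ≤ θ)
    (f : Cochain A (m + 1)) (hf : ∀ a, cobdy A f a = 0) :
      ∃ (g : Cochain A m) (h : Cochain A (m + 1)), (∀ a, cobdy A h a = 0) ∧
        (∀ a, f a = cobdy A g a + h a) ∧ ‖g‖ ≤ K * ‖f‖ ∧ ‖h‖ ≤ θ * ‖f‖ := by
  by_cases h0 : ‖f‖ = 0
  · have hz : ∀ a, f a = 0 := eq_zero_of_norm A h0.le
    refine ⟨0, 0, fun a => cobdy_zero A a, fun a => ?_, ?_, ?_⟩
    · rw [cobdy_zero, hz, zero_add]
      rfl
    · rw [h0, mul_zero]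
      exact norm_zero_cochain A
    · rw [h0, mul_zero]
      exact norm_zero_cochain A
  · have hpos : 0 < ‖f‖ := lt_of_le_of_ne (by positivity) (Ne.symm h0)
    have hne : (‖f‖ : ℂ) ≠ 0 := by exact_mod_cast h0
    obtain ⟨g, r, hr, hgr, hg, hr'⟩ := h (((‖f‖ : ℂ)⁻¹) • f)
      (fun a => by rw [cobdy_smul, hf, smul_zero]) (by
        refine (norm_smul_cochain_le A _ f).trans ?_
        rw [norm_inv, Complex.norm_real, Real.norm_of_nonneg hpos.le, inv_mul_cancel₀ hpos.ne'])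
    refine ⟨(‖f‖ : ℂ) • g, (‖f‖ : ℂ) • r, fun a => by rw [cobdy_smul, hr, smul_zero],
      fun a => ?_, ?_, ?_⟩
    · have h1 := congrArg (fun z => (‖f‖ : ℂ) • z) (hgr a)
      have h2 : (‖f‖ : ℂ) • ((‖f‖ : ℂ)⁻¹ • f a) = f a := by
        rw [smul_smul, mul_inv_cancel₀ hne, one_smul]
      rw [cobdy_smul]
      change f a = (‖f‖ : ℂ) • cobdy A g a + (‖f‖ : ℂ) • r a
      rw [← smul_add]
      exact h2.symm.trans h1
    · refine (norm_smul_cochain_le A _ g).trans ?_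
      rw [Complex.norm_real, Real.norm_of_nonneg hpos.le, mul_comm]
      exact mul_le_mul_of_nonneg_right hg hpos.le
    · refine (norm_smul_cochain_le A _ r).trans ?_
      rw [Complex.norm_real, Real.norm_of_nonneg hpos.le, mul_comm]
      exact mul_le_mul_of_nonneg_right hr' hpos.le

end Lin

section Main

theorem norm_finf_le {Hk : ℕ → Type} [∀ k, NormedAddCommGroup (Hk k)]
    [∀ k, InnerProductSpace ℂ (Hk k)] [∀ k, CompleteSpace (Hk k)] {S : Type}
    [NormedAddCommGroup S] [InnerProductSpace ℂ S] [CompleteSpace S] (D : SumData Hk S)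
    (Ak : ∀ k, NonUnitalStarSubalgebra ℂ (Hk k →L[ℂ] Hk k)) {n : ℕ}
    (f : ∀ k, Cochain (Ak k) n) (hf : ∀ k, ‖f k‖ ≤ 1) : ‖finf D Ak f hf‖ ≤ 1 :=
  ContinuousMultilinearMap.opNorm_le_bound zero_le_one (finfLin_norm D Ak f hf)

/-- one constant for all separable algebras on `l2 ℕ`. -/
theorem uniform_shrink {m : ℕ}
    (h : ∀ A : NonUnitalStarSubalgebra ℂ (l2 ℕ →L[ℂ] l2 ℕ),
      IsClosed (A : Set (l2 ℕ →L[ℂ] l2 ℕ)) → IsSeparable (A : Set (l2 ℕ →L[ℂ] l2 ℕ)) →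
      NoMinimal A m) :
    ∃ k : ℕ, ∀ A : NonUnitalStarSubalgebra ℂ (l2 ℕ →L[ℂ] l2 ℕ),
      IsClosed (A : Set (l2 ℕ →L[ℂ] l2 ℕ)) → IsSeparable (A : Set (l2 ℕ →L[ℂ] l2 ℕ)) →
      ∀ f : Cochain A (m + 1), (∀ a, cobdy A f a = 0) → ‖f‖ ≤ 1 →
      ∃ (g : Cochain A m) (h : Cochain A (m + 1)), (∀ a, cobdy A h a = 0) ∧
        (∀ a, f a = cobdy A g a + h a) ∧ ‖g‖ ≤ k ∧ ‖h‖ ≤ 1 - 1 / (k + 1 : ℝ) := by
  by_contra hcon
  push Not at hcon
  choose Ak hAk hs f hc hf hbad using hcon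
  obtain ⟨D⟩ := exists_sumData
  obtain ⟨C, hCcl, hCs, hC, hI⟩ := exists_sub D Ak hAk hs
  have hFc : ∀ t, cobdy C (resC D Ak C hC (finf D Ak f hf)) t = 0 := fun t => by
    rw [cobdy_resC, cobdy_finf D Ak f hf hc]
  have hF1 : ‖resC D Ak C hC (finf D Ak f hf)‖ ≤ 1 :=
    norm_resC_le D Ak C hC _ (norm_finf_le D Ak f hf)
  have hex : ∃ (g : Cochain C m) (r : Cochain C (m + 1)), (∀ a, cobdy C r a = 0) ∧
      (∀ a, resC D Ak C hC (finf D Ak f hf) a = cobdy C g a + r a) ∧ ‖r‖ < 1 := by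
    by_cases h0 : resC D Ak C hC (finf D Ak f hf) = 0
    · refine ⟨0, 0, fun a => cobdy_zero C a, fun a => ?_, ?_⟩
      · rw [cobdy_zero, h0, zero_add]
      · exact (norm_zero_cochain C).trans_lt one_pos
    · obtain ⟨g, r, hr, hgr, hrn⟩ := h C hCcl hCs _ hFc h0
      exact ⟨g, r, hr, hgr, hrn.trans_le hF1⟩
  obtain ⟨g, r, hr, hgr, hr1⟩ := hex
  obtain ⟨k1, hk1⟩ := exists_nat_gt ‖g‖
  obtain ⟨k2, hk2⟩ := exists_nat_one_div_lt (sub_pos.mpr hr1)
  set k := max k1 k2 with hk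
  have h1 : (k1 : ℝ) ≤ k := by exact_mod_cast le_max_left k1 k2
  have h2 : (k2 : ℝ) ≤ k := by exact_mod_cast le_max_right k1 k2
  have h3 := hbad k (compC D Ak C hI g k) (compC D Ak C hI r k)
    (fun a => by rw [cobdy_compC D Ak C hC hI, hr, map_zero])
    (fun a => by
      rw [cobdy_compC D Ak C hC hI, compC_apply, ← map_add, ← hgr, blk_resC])
    (norm_compC_le D Ak C hI g k (hk1.le.trans h1))
  have h4 : ‖compC D Ak C hI r k‖ ≤ ‖r‖ := norm_compC_le D Ak C hI r k le_rfl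
  have h5 : 1 / ((k : ℝ) + 1) ≤ 1 / ((k2 : ℝ) + 1) :=
    one_div_le_one_div_of_le (by positivity) (by linarith)
  linarith

/-- if no separable algebra on `l2 ℕ` has a nonzero cocycle of minimal norm in its class, then
the cohomology of all of them vanishes. -/
theorem vanishes_of_noMinimal {m : ℕ}
    (h : ∀ A : NonUnitalStarSubalgebra ℂ (l2 ℕ →L[ℂ] l2 ℕ),
      IsClosed (A : Set (l2 ℕ →L[ℂ] l2 ℕ)) → IsSeparable (A : Set (l2 ℕ →L[ℂ] l2 ℕ)) →
      NoMinimal A m)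
    (A : NonUnitalStarSubalgebra ℂ (l2 ℕ →L[ℂ] l2 ℕ))
    (hA : IsClosed (A : Set (l2 ℕ →L[ℂ] l2 ℕ))) (hAs : IsSeparable (A : Set (l2 ℕ →L[ℂ] l2 ℕ))) :
    CohomologyVanishes A m := by
  obtain ⟨k, hk⟩ := uniform_shrink h
  have h1 : (0 : ℝ) < 1 / (k + 1 : ℝ) := by positivity
  have h2 : 1 / (k + 1 : ℝ) ≤ 1 := by
    rw [div_le_one (by positivity)]
    have : (0 : ℝ) ≤ k := by positivity
    linarith
  exact vanishes_of_shrink A (K := k) (θ := 1 - 1 / (k + 1 : ℝ)) (by positivity) (by linarith)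
    (by linarith) (shrink_scale A (hk A hA hAs))

/-- if the cohomology of all separable algebras on `l2 ℕ` is separable, there are no nonzero
cocycles of minimal norm in their class. -/
theorem noMinimal_of_sepCoh {m : ℕ}
    (h : ∀ A : NonUnitalStarSubalgebra ℂ (l2 ℕ →L[ℂ] l2 ℕ),
      IsClosed (A : Set (l2 ℕ →L[ℂ] l2 ℕ)) → IsSeparable (A : Set (l2 ℕ →L[ℂ] l2 ℕ)) →
      SepCoh A m)
    (A : NonUnitalStarSubalgebra ℂ (l2 ℕ →L[ℂ] l2 ℕ))
    (hA : IsClosed (A : Set (l2 ℕ →L[ℂ] l2 ℕ))) (hAs : IsSeparable (A : Set (l2 ℕ →L[ℂ] l2 ℕ))) :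
    NoMinimal A m := by
  classical
  intro f hf hf0
  have h0 : ‖f‖ ≠ 0 := by
    intro h1
    refine hf0 (ContinuousMultilinearMap.ext fun a => ?_)
    exact eq_zero_of_norm A h1.le a
  have hpos : 0 < ‖f‖ := lt_of_le_of_ne (by positivity) (Ne.symm h0)
  have hne : (‖f‖ : ℂ) ≠ 0 := by exact_mod_cast h0
  set f' : Cochain A (m + 1) := ((‖f‖ : ℂ)⁻¹) • f with hf'
  have hf'c : ∀ a, cobdy A f' a = 0 := fun a => by rw [hf', cobdy_smul, hf, smul_zero]
  have hf'1 : ‖f'‖ ≤ 1 := by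
    refine (norm_smul_cochain_le A _ f).trans ?_
    rw [norm_inv, Complex.norm_real, Real.norm_of_nonneg hpos.le, inv_mul_cancel₀ hpos.ne']
  obtain ⟨D⟩ := exists_sumData
  let Ak : ∀ _ : ℕ, NonUnitalStarSubalgebra ℂ (l2 ℕ →L[ℂ] l2 ℕ) := fun _ => A
  obtain ⟨C, hCcl, hCs, hC, hI⟩ := exists_sub D Ak (fun _ => hA) (fun _ => hAs)
  obtain ⟨F, hF, hFd⟩ := h C hCcl hCs
  let fS : Set ℕ → ∀ k, Cochain (Ak k) (m + 1) := fun S k => if k ∈ S then f' else 0
  have hfS1 : ∀ S k, ‖fS S k‖ ≤ 1 := by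
    intro S k
    change ‖(if k ∈ S then f' else 0 : Cochain A (m + 1))‖ ≤ 1
    by_cases hk : k ∈ S
    · rw [if_pos hk]
      exact hf'1
    · rw [if_neg hk]
      exact (norm_zero_cochain A).trans zero_le_one
  have hfSc : ∀ S k a, cobdy (Ak k) (fS S k) a = 0 := by
    intro S k a
    change cobdy A (if k ∈ S then f' else 0 : Cochain A (m + 1)) a = 0
    by_cases hk : k ∈ S
    · rw [if_pos hk]
      exact hf'c a
    · rw [if_neg hk]
      exact cobdy_zero A a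
  have hFc : ∀ S t, cobdy C (resC D Ak C hC (finf D Ak (fS S) (hfS1 S))) t = 0 := fun S t => by
    rw [cobdy_resC, cobdy_finf D Ak (fS S) (hfS1 S) (hfSc S)]
  choose i g r hr hgr hrn using fun S => hFd _ (hFc S) (1 / 3) (by norm_num)
  have hST : ∃ S T, i S = i T ∧ ∃ k, k ∈ S ∧ k ∉ T := by
    have h1 := Function.cantor_injective i
    unfold Function.Injective at h1
    push Not at h1
    obtain ⟨S, T, h2, h3⟩ := h1
    by_cases h4 : ∃ k, k ∈ S ∧ k ∉ T
    · exact ⟨S, T, h2, h4⟩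
    · push Not at h4
      have h5 : ¬ T ⊆ S := fun h6 => h3 (Set.Subset.antisymm h4 h6)
      obtain ⟨k, hk1, hk2⟩ := Set.not_subset.mp h5
      exact ⟨T, S, h2.symm, k, hk1, hk2⟩
  obtain ⟨S, T, hi, k, hkS, hkT⟩ := hST
  set G := g S - g T with hG
  set R := r S - r T with hR
  have hRc : ∀ t, cobdy C R t = 0 := fun t => by rw [hR, cobdy_sub, hr, hr, sub_zero]
  have hRn : ‖R‖ ≤ 2 / 3 := by
    refine ContinuousMultilinearMap.opNorm_le_bound (by norm_num) fun t => ?_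
    change ‖r S t - r T t‖ ≤ _
    have h1 := (r S).le_of_opNorm_le (hrn S).le t
    have h2 := (r T).le_of_opNorm_le (hrn T).le t
    refine (norm_sub_le _ _).trans ((add_le_add h1 h2).trans (le_of_eq ?_))
    ring
  have hGR : ∀ t, resC D Ak C hC (finf D Ak (fS S) (hfS1 S)) t -
      resC D Ak C hC (finf D Ak (fS T) (hfS1 T)) t = cobdy C G t + R t := by
    intro t
    rw [hgr S t, hgr T t, hi, hG, cobdy_sub]
    change _ = _ + (r S t - r T t)
    abel
  have hk1 : ∀ a : Fin (m + 1) → A, f' a =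
      cobdy A (compC D Ak C hI G k) a + compC D Ak C hI R k a := by
    intro a
    have h1 := congrArg (blk D k) (hGR (fun j => injC D Ak C hI k (a j)))
    rw [map_sub, map_add, blk_resC, blk_resC] at h1
    have h2 : fS S k a = f' a := by
      change (if k ∈ S then f' else 0 : Cochain A (m + 1)) a = f' a
      rw [if_pos hkS]
    have h3 : fS T k a = 0 := by
      change (if k ∈ T then f' else 0 : Cochain A (m + 1)) a = 0
      rw [if_neg hkT]
      rfl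
    rw [h2, h3, sub_zero, ← cobdy_compC D Ak C hC hI] at h1
    exact h1
  refine ⟨(‖f‖ : ℂ) • (compC D Ak C hI G k : Cochain A m),
    (‖f‖ : ℂ) • (compC D Ak C hI R k : Cochain A (m + 1)), fun a => ?_, fun a => ?_, ?_⟩
  · rw [cobdy_smul]
    have h1 : cobdy (Ak k) (compC D Ak C hI R k) a = 0 := by
      rw [cobdy_compC D Ak C hC hI, hRc, map_zero]
    have h2 : cobdy A (compC D Ak C hI R k) a = 0 := h1
    rw [h2, smul_zero]
  · have h1 := congrArg (fun z => (‖f‖ : ℂ) • z) (hk1 a)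
    have h2 : (‖f‖ : ℂ) • f' a = f a := by
      change (‖f‖ : ℂ) • ((‖f‖ : ℂ)⁻¹ • f a) = f a
      rw [smul_smul, mul_inv_cancel₀ hne, one_smul]
    rw [cobdy_smul]
    change f a = _ + (‖f‖ : ℂ) • compC D Ak C hI R k a
    rw [← smul_add]
    exact h2.symm.trans h1
  · refine (norm_smul_cochain_le A _ _).trans_lt ?_
    rw [Complex.norm_real, Real.norm_of_nonneg hpos.le]
    have h1 : ‖compC D Ak C hI R k‖ ≤ 2 / 3 := norm_compC_le D Ak C hI R k hRn
    have h2 : ‖(compC D Ak C hI R k : Cochain A (m + 1))‖ ≤ 2 / 3 := h1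
    nlinarith

end Main

end Pool.H5Coh
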