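import Pool.Agent.H5.Coh.UnitB

/-!
# Generation by unitaries
-/

set_option linter.unusedSectionVars false

namespace Pool.H5Coh

open TopologicalSpace Filter Topology Complex

variable {H : Type*} [NormedAddCommGroup H] [InnerProductSpace ℂ H] [CompleteSpace H]

theorem exists_unitary {B : NonUnitalStarSubalgebra ℂ (H →L[ℂ] H)}
    (hB : IsClosed (B : Set (H →L[ℂ] H))) (h1 : (1 : H →L[ℂ] H) ∈ B) {y : H →L[ℂ] H}
    (hy : y ∈ B) (hsa : IsSelfAdjoint y) :
    ∃ u : H →L[ℂ] H, u ∈ unitary (H →L[ℂ] H) ∧ u ∈ B ∧ ∃ c : ℂ, y = c • (u + star u) := by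
  by_cases hy0 : y = 0
  · exact ⟨1, one_mem _, h1, 0, by rw [hy0, zero_smul]⟩
  let _ := CStarAlgebra.spectralOrder (H →L[ℂ] H)
  let _ := CStarAlgebra.spectralOrderedRing (H →L[ℂ] H)
  have hpos : 0 < ‖y‖ := norm_pos_iff.mpr hy0
  set h : H →L[ℂ] H := ((‖y‖⁻¹ : ℝ) : ℂ) • y with hh
  have hhsa : IsSelfAdjoint h := by
    rw [hh, IsSelfAdjoint, star_smul, hsa.star_eq]
    congr 1
    exact Complex.conj_ofReal _
  have hhn : ‖h‖ ≤ 1 := by
    rw [hh, norm_smul, Complex.norm_real, norm_inv, norm_norm, inv_mul_cancel₀ hpos.ne']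
  have hhB : h ∈ B := SMulMemClass.smul_mem _ hy
  have hnn : 0 ≤ 1 - h ^ 2 := by
    rwa [sub_nonneg, ← CStarAlgebra.norm_le_one_iff_of_nonneg (h ^ 2), sq, hhsa.norm_mul_self,
      sq_le_one_iff₀ (by positivity)]
  have hsq : CFC.sqrt (1 - h ^ 2) ∈ B := by
    rw [CFC.sqrt_eq_real_sqrt (1 - h ^ 2) hnn]
    refine cfcₙ_mem (𝕜 := ℝ) (𝕜' := ℂ) (s := B) (hs := hB) Real.sqrt ?_
    rw [sq]
    exact sub_mem h1 (mul_mem hhB hhB)
  set r : H →L[ℂ] H := CFC.sqrt (1 - h ^ 2) with hr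
  have hrsa : IsSelfAdjoint r := (CFC.sqrt_nonneg (1 - h ^ 2)).isSelfAdjoint
  refine ⟨h + I • r, hhsa.self_add_I_smul_cfcSqrt_sub_sq_mem_unitary h hhn,
    add_mem hhB (SMulMemClass.smul_mem _ hsq), ((‖y‖ / 2 : ℝ) : ℂ), ?_⟩
  have hst : star (h + I • r) = h - I • r := by
    rw [star_add, hhsa.star_eq, star_smul I r, hrsa.star_eq]
    have : star I = -I := Complex.conj_I
    rw [this, neg_smul, sub_eq_add_neg]
  rw [hst]
  have h2 : h + I • r + (h - I • r) = (2 : ℂ) • h := by rw [two_smul]; abel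
  rw [h2, hh, smul_smul, smul_smul]
  have h3 : ((‖y‖ / 2 : ℝ) : ℂ) * 2 * ((‖y‖⁻¹ : ℝ) : ℂ) = 1 := by
    have : (‖y‖ : ℂ) ≠ 0 := by exact_mod_cast hpos.ne'
    push_cast
    field_simp
  have h4 : ((‖y‖ / 2 : ℝ) : ℂ) * (2 * ((‖y‖⁻¹ : ℝ) : ℂ)) = 1 := by rw [← mul_assoc, h3]
  first
    | rw [h4, one_smul]
    | rw [h3, one_smul]

theorem exists_finite_unitaries {S : Set (H →L[ℂ] H)} (hS : S.Finite) :
    ∃ U : Set (H →L[ℂ] H), U.Finite ∧ (∀ u ∈ U, u ∈ unitary (H →L[ℂ] H)) ∧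
      cstar U = cstar (insert 1 S) := by
  set B := cstar (insert 1 S) with hB
  have h1 : (1 : H →L[ℂ] H) ∈ B := subset_cstar (Set.mem_insert _ _)
  have e1 : ∀ T : B, ∃ u : H →L[ℂ] H, u ∈ unitary (H →L[ℂ] H) ∧ u ∈ B ∧
      ∃ c : ℂ, (T : H →L[ℂ] H) + star (T : H →L[ℂ] H) = c • (u + star u) := fun T =>
    exists_unitary isClosed_cstar h1 (add_mem T.2 (star_mem T.2)) (IsSelfAdjoint.add_star_self _)
  have e2 : ∀ T : B, ∃ u : H →L[ℂ] H, u ∈ unitary (H →L[ℂ] H) ∧ u ∈ B ∧
      ∃ c : ℂ, I • ((T : H →L[ℂ] H) - star (T : H →L[ℂ] H)) = c • (u + star u) := fun T => by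
    refine exists_unitary isClosed_cstar h1
      (SMulMemClass.smul_mem _ (sub_mem T.2 (star_mem T.2))) ?_
    rw [IsSelfAdjoint, star_smul, star_sub, star_star]
    have : star I = -I := Complex.conj_I
    rw [this, neg_smul, ← smul_neg, neg_sub]
  choose u hu huB c hc using e1
  choose v hv hvB d hd using e2
  set S' : Set B := Subtype.val ⁻¹' S with hS'
  have hS'f : S'.Finite := hS.preimage Subtype.val_injective.injOn
  refine ⟨insert 1 (u '' S' ∪ v '' S'), ((hS'f.image u).union (hS'f.image v)).insert 1, ?_, ?_⟩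
  · rintro w (rfl | ⟨T, _, rfl⟩ | ⟨T, _, rfl⟩)
    · exact one_mem _
    · exact hu T
    · exact hv T
  · apply le_antisymm
    · refine cstar_le isClosed_cstar ?_
      rintro w (rfl | ⟨T, _, rfl⟩ | ⟨T, _, rfl⟩)
      · exact h1
      · exact huB T
      · exact hvB T
    · refine cstar_le isClosed_cstar ?_
      rintro T (rfl | hT)
      · exact subset_cstar (Set.mem_insert _ _)
      · have hTB : T ∈ B := subset_cstar (Set.mem_insert_of_mem _ hT)
        set T' : B := ⟨T, hTB⟩ with hT'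
        have hT'S : T' ∈ S' := hT
        have hu' : u T' ∈ cstar (insert 1 (u '' S' ∪ v '' S')) :=
          subset_cstar (Or.inr (Or.inl ⟨T', hT'S, rfl⟩))
        have hv' : v T' ∈ cstar (insert 1 (u '' S' ∪ v '' S')) :=
          subset_cstar (Or.inr (Or.inr ⟨T', hT'S, rfl⟩))
        have hy1 : T + star T ∈ cstar (insert 1 (u '' S' ∪ v '' S')) := by
          have := hc T'
          change T + star T = _ at this
          rw [this]
          exact SMulMemClass.smul_mem _ (add_mem hu' (star_mem hu'))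
        have hy2 : I • (T - star T) ∈ cstar (insert 1 (u '' S' ∪ v '' S')) := by
          have := hd T'
          change I • (T - star T) = _ at this
          rw [this]
          exact SMulMemClass.smul_mem _ (add_mem hv' (star_mem hv'))
        have h5 : T = (1 / 2 : ℂ) • ((T + star T) - I • (I • (T - star T))) := by
          rw [smul_smul, Complex.I_mul_I, neg_smul, one_smul]
          have h6 : T + star T - -(T - star T) = (2 : ℂ) • T := by rw [two_smul]; abel
          rw [h6, smul_smul]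
          norm_num
        rw [h5]
        exact SMulMemClass.smul_mem _ (sub_mem hy1 (SMulMemClass.smul_mem _ hy2))

end Pool.H5Coh
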