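import Pool.Agent.H5.Coh.Dir
import Pool.Agent.H5.Coh.Iso
import Pool.Agent.H5.Coh.UnitC
import Pool.Agent.H5.Coh.NearB
import Pool.Agent.H5.Coh.SumFinal

/-!
# Reduction to separable and to finitely generated algebras on separable Hilbert spaces
-/

namespace Pool.H5Coh

open TopologicalSpace

open St (l2)

universe u

theorem all_of_separable {m : ℕ}
    (h : ∀ A : NonUnitalStarSubalgebra ℂ (l2 ℕ →L[ℂ] l2 ℕ),
      IsClosed (A : Set (l2 ℕ →L[ℂ] l2 ℕ)) → IsSeparable (A : Set (l2 ℕ →L[ℂ] l2 ℕ)) →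
      CohomologyVanishes A m)
    (H : Type u) [NormedAddCommGroup H] [InnerProductSpace ℂ H] [CompleteSpace H]
    (A : NonUnitalStarSubalgebra ℂ (H →L[ℂ] H)) (hA : IsClosed (A : Set (H →L[ℂ] H))) :
    CohomologyVanishes A m := by
  refine vanishes_of_adm hA fun B Q _ hadm => ?_
  have hsep : SeparableSpace Q := hadm.sepQ.separableSpace
  obtain ⟨J⟩ := exists_isometry Q ℕ
  exact vanishes_of_mapAlg J _
    (h _ (mapAlg_closed J _ (imgAlg_closed hadm)) (mapAlg_sep J _ (imgAlg_sep hadm)))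

section FG

variable {H : Type*} [NormedAddCommGroup H] [InnerProductSpace ℂ H] [CompleteSpace H]

/-- the elements of `B` with compression in `C`. -/
noncomputable def pullAlg (B : NonUnitalStarSubalgebra ℂ (H →L[ℂ] H)) (Q : Submodule ℂ H)
    [CompleteSpace Q] (hinv : ∀ b ∈ B, ∀ x ∈ Q, b x ∈ Q)
    (C : NonUnitalStarSubalgebra ℂ (Q →L[ℂ] Q)) : NonUnitalStarSubalgebra ℂ (H →L[ℂ] H) where
  carrier := {T | T ∈ B ∧ comp Q T ∈ C}
  add_mem' := by
    rintro x y ⟨hx, hx'⟩ ⟨hy, hy'⟩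
    refine ⟨add_mem hx hy, ?_⟩
    rw [map_add]
    exact add_mem hx' hy'
  zero_mem' := by
    refine ⟨zero_mem _, ?_⟩
    rw [map_zero]
    exact zero_mem _
  mul_mem' := by
    rintro x y ⟨hx, hx'⟩ ⟨hy, hy'⟩
    refine ⟨mul_mem hx hy, ?_⟩
    rw [comp_mul_left Q hinv hx]
    exact mul_mem hx' hy'
  smul_mem' := by
    rintro r x ⟨hx, hx'⟩
    refine ⟨SMulMemClass.smul_mem r hx, ?_⟩
    rw [map_smul]
    exact SMulMemClass.smul_mem r hx'
  star_mem' := by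
    rintro x ⟨hx, hx'⟩
    refine ⟨star_mem hx, ?_⟩
    rw [← comp_star]
    exact star_mem hx'

/-- the compression of a finitely generated algebra is finitely generated. -/
theorem imgAlg_adjoin {A : NonUnitalStarSubalgebra ℂ (H →L[ℂ] H)} {S : Set (H →L[ℂ] H)}
    {Q : Submodule ℂ H} [CompleteSpace Q] (h : Adm A (cstar S) Q) :
    imgAlg (cstar S) Q h.inv = cstar (comp Q '' S) := by
  apply le_antisymm
  · rintro _ ⟨b, hb, rfl⟩
    have h1 : cstar S ≤ pullAlg (cstar S) Q h.inv (cstar (comp Q '' S)) := by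
      refine cstar_le ?_ ?_
      · have h2 : ((pullAlg (cstar S) Q h.inv (cstar (comp Q '' S)) :
            NonUnitalStarSubalgebra ℂ (H →L[ℂ] H)) : Set (H →L[ℂ] H)) =
            (cstar S : Set (H →L[ℂ] H)) ∩
              (comp Q) ⁻¹' ((cstar (comp Q '' S) : NonUnitalStarSubalgebra ℂ (Q →L[ℂ] Q)) :
                Set (Q →L[ℂ] Q)) := rfl
        rw [h2]
        exact isClosed_cstar.inter (isClosed_cstar.preimage (comp Q).continuous)
      · intro s hs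
        exact ⟨subset_cstar hs, subset_cstar ⟨s, hs, rfl⟩⟩
    exact (h1 hb).2
  · refine cstar_le (imgAlg_closed h) ?_
    rintro _ ⟨s, hs, rfl⟩
    exact ⟨s, subset_cstar hs, rfl⟩

end FG

theorem all_of_fg {m : ℕ} {K : ℝ}
    (hK : ∀ F : Set (l2 ℕ →L[ℂ] l2 ℕ), F.Finite → VanishesWith (cstar F) m K)
    (H : Type u) [NormedAddCommGroup H] [InnerProductSpace ℂ H] [CompleteSpace H]
    (A : NonUnitalStarSubalgebra ℂ (H →L[ℂ] H)) (hA : IsClosed (A : Set (H →L[ℂ] H))) :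
    CohomologyVanishes A m := by
  intro f hf
  obtain ⟨g, hg, -⟩ := stepD m f (|(|K|)| * ‖f‖) (by positivity) (fun i => by
    have hfin : ((fun a : A => (a : H →L[ℂ] H)) '' (i.1 : Set A)).Finite :=
      i.1.finite_toSet.image _
    obtain ⟨Q, hadm, hXQ⟩ := exists_adm' hA hfin.countable
      (by rintro _ ⟨a, _, rfl⟩; exact a.2) i.2.finite_toSet.countable
    have hc : CompleteSpace Q := hadm.Qclosed.completeSpace_coe
    have hsep : SeparableSpace Q := hadm.sepQ.separableSpace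
    obtain ⟨J⟩ := exists_isometry Q ℕ
    refine ⟨_, Q, hc, hadm.toPair, subset_cstar, hXQ, stepBK hadm m ?_ f hf⟩
    refine vanishesWith_of_mapAlg J _ ?_
    rw [imgAlg_adjoin hadm, mapAlg_cstar]
    exact hK _ ((hfin.image _).image _))
  exact ⟨g, hg⟩

/-- from algebras generated by finitely many unitaries to finitely generated algebras. -/
theorem fg_of_unitary {m : ℕ} {K : ℝ} {H : Type*} [NormedAddCommGroup H]
    [InnerProductSpace ℂ H] [CompleteSpace H]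
    (hK : ∀ U : Set (H →L[ℂ] H), U.Finite → (∀ u ∈ U, u ∈ unitary (H →L[ℂ] H)) →
      VanishesWith (cstar U) m K)
    (F : Set (H →L[ℂ] H)) (hF : F.Finite) : VanishesWith (cstar F) m (|K| * 2 ^ (m + 1)) := by
  obtain ⟨U, hU, hUu, hUF⟩ := exists_finite_unitaries hF
  have h1 := hK U hU hUu
  rw [hUF] at h1
  exact vanishesWith_of_insert_one h1

/-- the equivalence, for each degree `m + 1`. -/
theorem main_tfae (m : ℕ) :
    List.TFAE
      [∀ (H : Type u) [NormedAddCommGroup H] [InnerProductSpace ℂ H] [CompleteSpace H]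
        (A : NonUnitalStarSubalgebra ℂ (H →L[ℂ] H)), IsClosed (A : Set (H →L[ℂ] H)) →
        CohomologyVanishes A m,
       ∀ A : NonUnitalStarSubalgebra ℂ (l2 ℕ →L[ℂ] l2 ℕ),
        IsClosed (A : Set (l2 ℕ →L[ℂ] l2 ℕ)) → IsSeparable (A : Set (l2 ℕ →L[ℂ] l2 ℕ)) →
        CohomologyVanishes A m,
       ∃ K : ℝ, ∀ (H : Type u) [NormedAddCommGroup H] [InnerProductSpace ℂ H] [CompleteSpace H]
        (A : NonUnitalStarSubalgebra ℂ (H →L[ℂ] H)), IsClosed (A : Set (H →L[ℂ] H)) →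
        VanishesWith A m K,
       ∃ K : ℝ, ∀ U : Set (l2 ℕ →L[ℂ] l2 ℕ), (U.Finite ∧
        ∀ u ∈ U, u ∈ unitary (l2 ℕ →L[ℂ] l2 ℕ)) → VanishesWith (cstar U) m K,
       ∀ A : NonUnitalStarSubalgebra ℂ (l2 ℕ →L[ℂ] l2 ℕ),
        IsClosed (A : Set (l2 ℕ →L[ℂ] l2 ℕ)) → IsSeparable (A : Set (l2 ℕ →L[ℂ] l2 ℕ)) →
        ∃ F : ℕ → Cochain A (m + 1), (∀ i a, cobdy A (F i) a = 0) ∧
          ∀ f : Cochain A (m + 1), (∀ a, cobdy A f a = 0) → ∀ ε : ℝ, 0 < ε →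
            ∃ (i : ℕ) (h : Cochain A (m + 1)), (∀ a, cobdy A h a = 0) ∧
              (∃ g : Cochain A m, ∀ a, f a = cobdy A g a + (F i + h) a) ∧ ‖h‖ < ε,
       ∀ A : NonUnitalStarSubalgebra ℂ (l2 ℕ →L[ℂ] l2 ℕ),
        IsClosed (A : Set (l2 ℕ →L[ℂ] l2 ℕ)) → IsSeparable (A : Set (l2 ℕ →L[ℂ] l2 ℕ)) →
        ∀ f : Cochain A (m + 1), (∀ a, cobdy A f a = 0) → f ≠ 0 →
          ∃ h : Cochain A (m + 1), (∀ a, cobdy A h a = 0) ∧
            (∃ g : Cochain A m, ∀ a, f a = cobdy A g a + h a) ∧ ‖h‖ < ‖f‖] := by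
  obtain ⟨J⟩ := emb ℕ (ULift.{u} ℕ)
  tfae_have 1 → 2 := fun h A hA _ =>
    vanishes_of_mapAlg J A (h _ _ (mapAlg_closed J A hA))
  tfae_have 2 → 1 := fun h H _ _ _ A hA => all_of_separable h H A hA
  tfae_have 2 → 5 := fun h A hA hAs => ⟨fun _ => 0, fun _ a => cobdy_zero A a, fun f hf ε hε => by
    obtain ⟨g, hg⟩ := h A hA hAs f hf
    refine ⟨0, 0, fun a => cobdy_zero A a, ⟨g, fun a => ?_⟩, (norm_zero_cochain A).trans_lt hε⟩
    rw [hg, add_zero]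
    exact (add_zero _).symm⟩
  tfae_have 5 → 6 := fun h A hA hAs f hf hf0 => by
    obtain ⟨g, r, hr, hgr, hn⟩ := noMinimal_of_sepCoh (m := m) (fun B hB hBs => by
      obtain ⟨F, hF, hFd⟩ := h B hB hBs
      refine ⟨F, hF, fun f hf ε hε => ?_⟩
      obtain ⟨i, r, hr, ⟨g, hg⟩, hn⟩ := hFd f hf ε hε
      exact ⟨i, g, r, hr, hg, hn⟩) A hA hAs f hf hf0
    exact ⟨r, hr, ⟨g, hgr⟩, hn⟩
  tfae_have 6 → 2 := fun h A hA hAs => by
    refine vanishes_of_noMinimal (fun B hB hBs f hf hf0 => ?_) A hA hAs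
    obtain ⟨r, hr, ⟨g, hg⟩, hn⟩ := h B hB hBs f hf hf0
    exact ⟨g, r, hr, hg, hn⟩
  tfae_have 1 → 3 := fun h => uniform_of_all h
  tfae_have 3 → 4 := fun ⟨K, hK⟩ => ⟨|K|, fun F _ =>
    vanishesWith_of_mapAlg J _ (hK _ _ (mapAlg_closed J _ isClosed_cstar))⟩
  tfae_have 4 → 1 := fun ⟨K, hK⟩ H _ _ _ A hA =>
    all_of_fg (fun F hF => fg_of_unitary (fun U h1 h2 => hK U ⟨h1, h2⟩) F hF) H A hA
  tfae_finish

end Pool.H5Coh
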