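import Pool.Agent.H5.Coh.Iso
import Pool.Agent.H5.Coh.Sep
import Pool.Agent.H5.Coh.SumFinal

/-!
# Hilbert sums of copies of `l2 ℕ` on `l2 ℕ`; separable subalgebras of the product algebra
-/

set_option linter.unusedSectionVars false

namespace Pool.H5Coh

open TopologicalSpace

open St (l2)

universe u

section Trans

variable {Hk : ℕ → Type u} [∀ k, NormedAddCommGroup (Hk k)] [∀ k, InnerProductSpace ℂ (Hk k)]
  {S P : Type u} [NormedAddCommGroup S] [InnerProductSpace ℂ S]
  [NormedAddCommGroup P] [InnerProductSpace ℂ P]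

/-- transport of `SumData` along a unitary. -/
noncomputable def SumData.trans (D : SumData Hk S) (U : P ≃ₗᵢ[ℂ] S) : SumData Hk P where
  ev := fun k => (D.ev k).comp U.toLinearIsometry.toContinuousLinearMap
  sg := fun k => (U.symm.toLinearIsometry.toContinuousLinearMap).comp (D.sg k)
  norm_ev := fun k => by
    refine ContinuousLinearMap.opNorm_le_bound _ zero_le_one fun x => ?_
    change ‖D.ev k (U x)‖ ≤ 1 * ‖x‖
    rw [one_mul]
    exact ((D.ev k).le_of_opNorm_le (D.norm_ev k) _).trans (by rw [one_mul, U.norm_map])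
  norm_sg := fun k => by
    refine ContinuousLinearMap.opNorm_le_bound _ zero_le_one fun x => ?_
    change ‖U.symm (D.sg k x)‖ ≤ 1 * ‖x‖
    rw [U.symm.norm_map]
    exact (D.sg k).le_of_opNorm_le (D.norm_sg k) _
  ev_sg := fun k y => by
    change D.ev k (U (U.symm (D.sg k y))) = y
    rw [U.apply_symm_apply, D.ev_sg]
  ev_sg_ne := fun j k h y => by
    change D.ev j (U (U.symm (D.sg k y))) = 0
    rw [U.apply_symm_apply, D.ev_sg_ne j k h]
  ext := fun x y h => U.injective (D.ext _ _ h)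
  inner_sg := fun k y x => by
    change inner ℂ (U.symm (D.sg k y)) x = inner ℂ y (D.ev k (U x))
    rw [← D.inner_sg, ← U.inner_map_map, U.apply_symm_apply]
  diag := fun T C hC => by
    obtain ⟨E, hE, hE'⟩ := D.diag T C hC
    refine ⟨(U.symm.toLinearIsometry.toContinuousLinearMap).comp
      (E.comp U.toLinearIsometry.toContinuousLinearMap), ?_, fun k x => ?_⟩
    · refine ContinuousLinearMap.opNorm_le_bound _ ((norm_nonneg _).trans (hC 0)) fun x => ?_
      change ‖U.symm (E (U x))‖ ≤ C * ‖x‖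
      rw [U.symm.norm_map]
      exact (E.le_of_opNorm_le hE _).trans (by rw [U.norm_map])
    · change D.ev k (U (U.symm (E (U x)))) = T k (D.ev k (U x))
      rw [U.apply_symm_apply, hE']

end Trans

theorem exists_sum_unitary_aux : Nonempty (lp (fun _ : ℕ => ℂ) 2 ≃ₗᵢ[ℂ]
    lp (fun _ : ℕ => (lp (fun _ : ℕ => ℂ) 2)) 2) := by
  classical
  let e : HilbertBasis ℕ ℂ (lp (fun _ : ℕ => ℂ) 2) := default
  let b : ℕ × ℕ → lp (fun _ : ℕ => ℂ) 2 := fun p => e (Nat.pairEquiv p)
  have hb : Orthonormal ℂ b := e.orthonormal.comp (fun p => Nat.pairEquiv p)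
    Nat.pairEquiv.injective
  have hk : ∀ k, Orthonormal ℂ (fun i : ℕ => b (k, i)) := fun k =>
    hb.comp (fun i : ℕ => (k, i)) (fun i j h => (Prod.ext_iff.mp h).2)
  let J : ℕ → (lp (fun _ : ℕ => ℂ) 2 →ₗᵢ[ℂ] lp (fun _ : ℕ => ℂ) 2) := fun k =>
    (hk k).orthogonalFamily.linearIsometry
  have h0 : ∀ k j, k ≠ j → ∀ i y, inner ℂ (b (k, i)) (J j y) = 0 := by
    intro k j hkj i y
    have h1 := (hk j).orthogonalFamily.hasSum_linearIsometry y
    have h2 := (innerSL ℂ (b (k, i))).hasSum h1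
    have h3 : ∀ l : ℕ, innerSL ℂ (b (k, i))
        ((LinearIsometry.toSpanSingleton ℂ _ ((hk j).1 l)) (y l)) = 0 := by
      intro l
      rw [innerSL_apply_apply, LinearIsometry.toSpanSingleton_apply, inner_smul_right,
        hb.2 (fun h => hkj (Prod.ext_iff.mp h).1), mul_zero]
    have h4 : HasSum (fun _ : ℕ => (0 : ℂ)) (innerSL ℂ (b (k, i)) (J j y)) := by
      refine h2.congr_fun ?_
      intro l
      exact (h3 l).symm
    have h5 := h4.unique hasSum_zero
    exact h5
  have h6 : ∀ k j, k ≠ j → ∀ x y, inner ℂ (J k x) (J j y) = 0 := by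
    intro k j hkj x y
    have h1 := (hk k).orthogonalFamily.hasSum_linearIsometry x
    have h2 := (innerSL ℂ (J j y)).hasSum h1
    have h3 : ∀ l : ℕ, innerSL ℂ (J j y)
        ((LinearIsometry.toSpanSingleton ℂ _ ((hk k).1 l)) (x l)) = 0 := by
      intro l
      have h7 : inner ℂ (J j y) (b (k, l)) = 0 := by
        rw [← inner_conj_symm, h0 k j hkj l y, map_zero]
      rw [innerSL_apply_apply, LinearIsometry.toSpanSingleton_apply, inner_smul_right, h7,
        mul_zero]
    have h4 : HasSum (fun _ : ℕ => (0 : ℂ)) (innerSL ℂ (J j y) (J k x)) := by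
      refine h2.congr_fun ?_
      intro l
      exact (h3 l).symm
    have h5 : inner ℂ (J j y) (J k x) = 0 := h4.unique hasSum_zero
    rw [← inner_conj_symm, h5, map_zero]
  have hJb : ∀ k i, J k (lp.single (E := fun _ : ℕ => ℂ) 2 i (1 : ℂ)) = b (k, i) := by
    intro k i
    have h1 := (hk k).orthogonalFamily.linearIsometry_apply_single (i := i) (1 : ℂ)
    refine h1.trans ?_
    rw [LinearIsometry.toSpanSingleton_apply, one_smul]
  have hfam : OrthogonalFamily ℂ (fun _ : ℕ => lp (fun _ : ℕ => ℂ) 2) J :=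
    fun k j hkj x y => h6 k j hkj x y
  have hdense : ⊤ ≤ (⨆ k, LinearMap.range (J k).toLinearMap).topologicalClosure := by
    rw [← e.dense_span]
    refine Submodule.topologicalClosure_mono ?_
    rw [Submodule.span_le]
    rintro _ ⟨n, rfl⟩
    obtain ⟨p, rfl⟩ := Nat.pairEquiv.surjective n
    have h1 : e (Nat.pairEquiv p) = J p.1 (lp.single (E := fun _ : ℕ => ℂ) 2 p.2 (1 : ℂ)) :=
      (hJb p.1 p.2).symm
    rw [h1]
    exact Submodule.mem_iSup_of_mem p.1 ⟨_, rfl⟩
  have hsum : IsHilbertSum ℂ (fun _ : ℕ => lp (fun _ : ℕ => ℂ) 2) J :=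
    IsHilbertSum.mk hfam hdense
  exact ⟨hsum.linearIsometryEquiv⟩

theorem exists_sum_unitary : Nonempty (l2 ℕ ≃ₗᵢ[ℂ] HS (fun _ : ℕ => l2 ℕ)) := exists_sum_unitary_aux

/-- `l2 ℕ` as a Hilbert sum of copies of itself. -/
theorem exists_sumData : Nonempty (SumData (fun _ : ℕ => l2 ℕ) (l2 ℕ)) := by
  obtain ⟨U⟩ := exists_sum_unitary
  exact ⟨(sumData (Hk := fun _ : ℕ => l2 ℕ)).trans U⟩

section SubSum

variable {Hk : ℕ → Type u} [∀ k, NormedAddCommGroup (Hk k)] [∀ k, InnerProductSpace ℂ (Hk k)]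
  [∀ k, CompleteSpace (Hk k)] {S : Type u} [NormedAddCommGroup S] [InnerProductSpace ℂ S]
  [CompleteSpace S] (D : SumData Hk S)
  (Ak : ∀ k, NonUnitalStarSubalgebra ℂ (Hk k →L[ℂ] Hk k))

theorem exists_sub (hAk : ∀ k, IsClosed (Ak k : Set (Hk k →L[ℂ] Hk k)))
    (hs : ∀ k, IsSeparable (Ak k : Set (Hk k →L[ℂ] Hk k))) :
    ∃ C : NonUnitalStarSubalgebra ℂ (S →L[ℂ] S), IsClosed (C : Set (S →L[ℂ] S)) ∧
      IsSeparable (C : Set (S →L[ℂ] S)) ∧ C ≤ prodAlg D Ak ∧
      ∀ k, ∀ a : Ak k, injOp D k (a : Hk k →L[ℂ] Hk k) ∈ C := by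
  classical
  choose E hEA hEc hEd using fun k => (hs k).exists_countable_dense_subset
  set S0 : Set (S →L[ℂ] S) := ⋃ k : ℕ, injOp D k '' E k with hS0
  have hS0c : S0.Countable := Set.countable_iUnion fun k => (hEc k).image _
  have hcont : ∀ k, Continuous (injOp D k) := fun k => by
    have : injOp D k = fun a : Hk k →L[ℂ] Hk k => (D.sg k).comp (a.comp (D.ev k)) := rfl
    rw [this]
    exact continuous_const.clm_comp (continuous_id.clm_comp continuous_const)
  refine ⟨cstar S0, isClosed_cstar, separable_adjoin hS0c, ?_, ?_⟩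
  · refine cstar_le (prodAlg_closed D Ak hAk) ?_
    intro T hT
    obtain ⟨k, d, hd, rfl⟩ := Set.mem_iUnion.mp hT
    exact injOp_mem D Ak k ⟨d, hEA k hd⟩
  · intro k a
    have h1 : (a : Hk k →L[ℂ] Hk k) ∈ closure (E k) := hEd k a.2
    have h2 : Set.MapsTo (injOp D k) (E k)
        ((cstar S0 : NonUnitalStarSubalgebra ℂ (S →L[ℂ] S)) : Set (S →L[ℂ] S)) := fun d hd =>
      subset_cstar (Set.mem_iUnion.mpr ⟨k, d, hd, rfl⟩)
    have h3 := h2.closure (hcont k) h1
    rwa [isClosed_cstar.closure_eq] at h3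

variable (C : NonUnitalStarSubalgebra ℂ (S →L[ℂ] S)) (hC : C ≤ prodAlg D Ak)
  (hI : ∀ k, ∀ a : Ak k, injOp D k (a : Hk k →L[ℂ] Hk k) ∈ C)

/-- inclusion of `C` in the product algebra. -/
noncomputable def inC : C →L[ℂ] prodAlg D Ak :=
  LinearMap.mkContinuous
    { toFun := fun t => ⟨t, hC t.2⟩
      map_add' := fun _ _ => rfl
      map_smul' := fun _ _ => rfl } 1 (fun t => by rw [one_mul]; exact le_rfl)

/-- restriction of a cochain to `C`. -/
noncomputable def resC {n : ℕ} (F : Cochain (prodAlg D Ak) n) : Cochain C n :=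
  F.compContinuousLinearMap (fun _ => inC D Ak C hC)

theorem resC_apply {n : ℕ} (F : Cochain (prodAlg D Ak) n) (t : Fin n → C) :
    resC D Ak C hC F t = F (fun j => inC D Ak C hC (t j)) := rfl

theorem cobdy_resC {n : ℕ} (F : Cochain (prodAlg D Ak) n) (t : Fin (n + 1) → C) :
    cobdy C (resC D Ak C hC F) t =
      cobdy (prodAlg D Ak) F (fun j => inC D Ak C hC (t j)) := by
  rw [cobdy_eq, cobdy_eq]
  exact cob_transport (fun x : C => (x : S →L[ℂ] S))
    (fun x : prodAlg D Ak => (x : S →L[ℂ] S)) (fun x => inC D Ak C hC x) (fun _ _ => rfl)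
    LinearMap.id (fun _ _ => rfl) (fun _ _ => rfl) (fun b => F b) t

theorem norm_resC_le {n : ℕ} (F : Cochain (prodAlg D Ak) n) {K : ℝ} (hK : ‖F‖ ≤ K) :
    ‖resC D Ak C hC F‖ ≤ K := by
  have hK0 : 0 ≤ K := le_trans (by positivity) hK
  refine ContinuousMultilinearMap.opNorm_le_bound hK0 fun t => ?_
  exact F.le_of_opNorm_le hK _

/-- the inclusion of a factor in `C`. -/
noncomputable def injC (k : ℕ) : Ak k →L[ℂ] C :=
  LinearMap.mkContinuous
    { toFun := fun a => ⟨injOp D k (a : Hk k →L[ℂ] Hk k), hI k a⟩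
      map_add' := fun a b => Subtype.ext (by
        have h := congrArg (fun z : prodAlg D Ak => (z : S →L[ℂ] S)) (map_add (inj D Ak k) a b)
        exact h)
      map_smul' := fun c a => Subtype.ext (by
        have h := congrArg (fun z : prodAlg D Ak => (z : S →L[ℂ] S)) (map_smul (inj D Ak k) c a)
        exact h) } 1
    (fun a => by rw [one_mul]; exact norm_injOp_le D k (a : Hk k →L[ℂ] Hk k))

theorem norm_injC_le (k : ℕ) (a : Ak k) : ‖injC D Ak C hI k a‖ ≤ ‖a‖ :=
  norm_injOp_le D k (a : Hk k →L[ℂ] Hk k)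

theorem injC_mul (k : ℕ) (a b : Ak k) :
    injC D Ak C hI k (a * b) = injC D Ak C hI k a * injC D Ak C hI k b :=
  Subtype.ext (by
    have h := congrArg (fun z : prodAlg D Ak => (z : S →L[ℂ] S)) (inj_mul D Ak k a b)
    exact h)

/-- compression of a cochain of `C`. -/
noncomputable def compC {n : ℕ} (g : Cochain C n) (k : ℕ) : Cochain (Ak k) n :=
  (blk D k).compContinuousMultilinearMap (g.compContinuousLinearMap (fun _ => injC D Ak C hI k))

theorem compC_apply {n : ℕ} (g : Cochain C n) (k : ℕ) (b : Fin n → Ak k) :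
    compC D Ak C hI g k b = blk D k (g (fun j => injC D Ak C hI k (b j))) := rfl

theorem norm_compC_le {n : ℕ} (g : Cochain C n) (k : ℕ) {K : ℝ} (hK : ‖g‖ ≤ K) :
    ‖compC D Ak C hI g k‖ ≤ K := by
  have hK0 : 0 ≤ K := le_trans (by positivity) hK
  refine ContinuousMultilinearMap.opNorm_le_bound hK0 fun b => ?_
  rw [compC_apply]
  calc ‖blk D k (g (fun j => injC D Ak C hI k (b j)))‖ ≤ ‖g (fun j => injC D Ak C hI k (b j))‖ :=
        norm_blk_le D k _
    _ ≤ K * ∏ j, ‖injC D Ak C hI k (b j)‖ := g.le_of_opNorm_le hK _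
    _ ≤ K * ∏ j, ‖b j‖ := by
        refine mul_le_mul_of_nonneg_left (Finset.prod_le_prod (fun j _ => norm_nonneg _)
          (fun j _ => norm_injC_le D Ak C hI k (b j))) hK0

include hC in
theorem cobdy_compC {n : ℕ} (g : Cochain C n) (k : ℕ) (a : Fin (n + 1) → Ak k) :
    cobdy (Ak k) (compC D Ak C hI g k) a =
      blk D k (cobdy C g (fun j => injC D Ak C hI k (a j))) := by
  rw [cobdy_eq, cobdy_eq]
  exact cob_transport (fun x : Ak k => (x : Hk k →L[ℂ] Hk k))
    (fun x : C => (x : S →L[ℂ] S)) (fun x => injC D Ak C hI k x) (injC_mul D Ak C hI k)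
    ((blk D k : (S →L[ℂ] S) →L[ℂ] (Hk k →L[ℂ] Hk k)) : (S →L[ℂ] S) →ₗ[ℂ] (Hk k →L[ℂ] Hk k))
    (fun x T => by
      change blk D k ((injC D Ak C hI k x : C) * T) = _
      rw [(hC (injC D Ak C hI k x).2).1.blk_mul_left]
      change blk D k (injOp D k (x : Hk k →L[ℂ] Hk k)) * _ = _
      rw [blk_injOp]
      rfl)
    (fun x T => by
      change blk D k (T * (injC D Ak C hI k x : C)) = _
      rw [(hC (injC D Ak C hI k x).2).1.blk_mul_right]
      change _ * blk D k (injOp D k (x : Hk k →L[ℂ] Hk k)) = _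
      rw [blk_injOp]
      rfl) (fun b => g b) a

theorem blk_resC {n : ℕ} (f : ∀ k, Cochain (Ak k) n) (hf : ∀ k, ‖f k‖ ≤ 1) (k : ℕ)
    (a : Fin n → Ak k) :
    blk D k (resC D Ak C hC (finf D Ak f hf) (fun j => injC D Ak C hI k (a j))) = f k a := by
  rw [resC_apply, blk_finf]
  congr 1
  funext j
  exact bl_inj D Ak k (a j)

end SubSum

end Pool.H5Coh
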