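import Pool.Agent.H5.Coh.Comp

/-!
# Solving the cocycle equation on separable pairs, with a uniform bound
-/

set_option linter.unusedSectionVars false

namespace Pool.H5Coh

open TopologicalSpace

variable {H : Type*} [NormedAddCommGroup H] [InnerProductSpace ℂ H] [CompleteSpace H]

/-- the compressed algebra. -/
noncomputable def imgAlg (B : NonUnitalStarSubalgebra ℂ (H →L[ℂ] H)) (Q : Submodule ℂ H)
    [CompleteSpace Q] (hinv : ∀ b ∈ B, ∀ x ∈ Q, b x ∈ Q) :
    NonUnitalStarSubalgebra ℂ (Q →L[ℂ] Q) where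
  carrier := {t | ∃ b ∈ B, comp Q b = t}
  add_mem' := by
    rintro _ _ ⟨b, hb, rfl⟩ ⟨c, hc, rfl⟩
    exact ⟨b + c, add_mem hb hc, map_add _ _ _⟩
  zero_mem' := ⟨0, zero_mem _, map_zero _⟩
  mul_mem' := by
    rintro _ _ ⟨b, hb, rfl⟩ ⟨c, hc, rfl⟩
    exact ⟨b * c, mul_mem hb hc, comp_mul_left Q hinv hb c⟩
  smul_mem' := by
    rintro r _ ⟨b, hb, rfl⟩
    exact ⟨r • b, SMulMemClass.smul_mem r hb, map_smul _ _ _⟩
  star_mem' := by
    rintro _ ⟨b, hb, rfl⟩
    exact ⟨star b, star_mem hb, (comp_star Q).symm⟩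

section

variable {A B : NonUnitalStarSubalgebra ℂ (H →L[ℂ] H)} {Q : Submodule ℂ H} [CompleteSpace Q]

theorem norm_comp_le (T : H →L[ℂ] H) : ‖comp Q T‖ ≤ ‖T‖ := by
  refine ContinuousLinearMap.opNorm_le_bound _ (norm_nonneg _) fun x => ?_
  rw [comp_apply]
  calc ‖pr Q (T x)‖ ≤ ‖pr Q‖ * ‖T x‖ := (pr Q).le_opNorm _
    _ ≤ 1 * (‖T‖ * ‖(x : H)‖) := by
        gcongr
        · exact norm_pr_le Q
        · exact T.le_opNorm _
    _ = ‖T‖ * ‖x‖ := by rw [one_mul]; rfl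

theorem norm_expd_le (T : Q →L[ℂ] Q) : ‖expd Q T‖ ≤ ‖T‖ := by
  refine ContinuousLinearMap.opNorm_le_bound _ (by positivity) fun x => ?_
  rw [expd_apply, ← Submodule.coe_norm]
  have h1 : ‖pr Q x‖ ≤ 1 * ‖x‖ := (pr Q).le_of_opNorm_le (norm_pr_le Q) x
  rw [one_mul] at h1
  exact (T.le_opNorm _).trans (mul_le_mul_of_nonneg_left h1 (by positivity))

theorem norm_comp_eq (h : Adm A B Q) {b : H →L[ℂ] H} (hb : b ∈ B) : ‖comp Q b‖ = ‖b‖ := by
  refine le_antisymm (norm_comp_le b) ?_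
  refine h.norming b hb _ (by positivity) fun x hx => ?_
  have h1 := mul_J Q h.inv hb ⟨x, hx⟩
  have h2 : b x = (comp Q b ⟨x, hx⟩ : H) := h1
  rw [h2, ← Submodule.coe_norm]
  exact (comp Q b).le_opNorm _

/-- the isometry onto the compressed algebra. -/
noncomputable def isoMap (h : Adm A B Q) : B →ₗᵢ[ℂ] (imgAlg B Q h.inv) where
  toFun b := ⟨comp Q b, b, b.2, rfl⟩
  map_add' b c := by
    apply Subtype.ext
    exact map_add (comp Q) _ _
  map_smul' r b := by
    apply Subtype.ext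
    exact map_smul (comp Q) _ _
  norm_map' b := norm_comp_eq h b.2

theorem isoMap_surj (h : Adm A B Q) : Function.Surjective (isoMap h) := by
  rintro ⟨t, b, hb, rfl⟩
  exact ⟨⟨b, hb⟩, rfl⟩

/-- the isometric isomorphism onto the compressed algebra. -/
noncomputable def iso (h : Adm A B Q) : B ≃ₗᵢ[ℂ] (imgAlg B Q h.inv) :=
  LinearIsometryEquiv.ofSurjective (isoMap h) (isoMap_surj h)

theorem iso_coe (h : Adm A B Q) (b : B) :
    ((iso h b : imgAlg B Q h.inv) : Q →L[ℂ] Q) = comp Q (b : H →L[ℂ] H) := rfl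

theorem iso_mul (h : Adm A B Q) (b c : B) : iso h (b * c) = iso h b * iso h c := by
  apply Subtype.ext
  exact comp_mul_left Q h.inv b.2 _

theorem iso_symm_mul (h : Adm A B Q) (s t : imgAlg B Q h.inv) :
    (iso h).symm (s * t) = (iso h).symm s * (iso h).symm t := by
  have h1 := iso_mul h ((iso h).symm s) ((iso h).symm t)
  rw [LinearIsometryEquiv.apply_symm_apply, LinearIsometryEquiv.apply_symm_apply] at h1
  rw [← h1, LinearIsometryEquiv.symm_apply_apply]

theorem comp_iso_symm (h : Adm A B Q) (t : imgAlg B Q h.inv) :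
    comp Q (((iso h).symm t : B) : H →L[ℂ] H) = (t : Q →L[ℂ] Q) := by
  rw [← iso_coe h, LinearIsometryEquiv.apply_symm_apply]

theorem imgAlg_closed (h : Adm A B Q) :
    IsClosed ((imgAlg B Q h.inv : NonUnitalStarSubalgebra ℂ (Q →L[ℂ] Q)) :
      Set (Q →L[ℂ] Q)) := by
  have : CompleteSpace B := h.closed.completeSpace_coe
  have h1 : Isometry (fun b : B => comp Q (b : H →L[ℂ] H)) := by
    refine AddMonoidHomClass.isometry_of_norm
      ((comp Q).toLinearMap.toAddMonoidHom.comp (B.toSubmodule.subtype.toAddMonoidHom)) ?_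
    intro b
    exact norm_comp_eq h b.2
  have h2 : ((imgAlg B Q h.inv : NonUnitalStarSubalgebra ℂ (Q →L[ℂ] Q)) : Set (Q →L[ℂ] Q)) =
      Set.range (fun b : B => comp Q (b : H →L[ℂ] H)) := by
    ext t
    constructor
    · rintro ⟨b, hb, rfl⟩
      exact ⟨⟨b, hb⟩, rfl⟩
    · rintro ⟨b, rfl⟩
      exact ⟨b, b.2, rfl⟩
  rw [h2]
  exact h1.isClosedEmbedding.isClosed_range

theorem imgAlg_sep (h : Adm A B Q) :
    IsSeparable ((imgAlg B Q h.inv : NonUnitalStarSubalgebra ℂ (Q →L[ℂ] Q)) :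
      Set (Q →L[ℂ] Q)) := by
  have h2 : ((imgAlg B Q h.inv : NonUnitalStarSubalgebra ℂ (Q →L[ℂ] Q)) : Set (Q →L[ℂ] Q)) =
      comp Q '' (B : Set (H →L[ℂ] H)) := by
    ext t
    constructor
    · rintro ⟨b, hb, rfl⟩
      exact ⟨b, hb, rfl⟩
    · rintro ⟨b, hb, rfl⟩
      exact ⟨b, hb, rfl⟩
  rw [h2]
  exact h.sepB.image (comp Q).continuous

/-- inclusion of `B` into `A`. -/
noncomputable def incl (hle : B ≤ A) : B →L[ℂ] A :=
  LinearMap.mkContinuous
    { toFun := fun b => ⟨b, hle b.2⟩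
      map_add' := fun _ _ => rfl
      map_smul' := fun _ _ => rfl } 1 (fun b => by rw [one_mul]; rfl)

theorem incl_coe (hle : B ≤ A) (b : B) : ((incl hle b : A) : H →L[ℂ] H) = b := rfl

/-- transport of a solution on the compressed algebra, with the bound. -/
theorem stepB' (h : Adm A B Q) (m : ℕ)
    (f : Cochain A (m + 1)) (hf : ∀ a, cobdy A f a = 0) :
    ∃ f₂ : Cochain (imgAlg B Q h.inv) (m + 1), (∀ t, cobdy _ f₂ t = 0) ∧ ‖f₂‖ ≤ ‖f‖ ∧
    ∀ g₂ : Cochain (imgAlg B Q h.inv) m, (∀ t, cobdy _ g₂ t = f₂ t) →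
    ∃ g : ContinuousMultilinearMap ℂ (fun _ : Fin m => B) (H →L[ℂ] H),
      (∀ b : Fin (m + 1) → B, cob (fun x : B => (x : H →L[ℂ] H)) (fun c => g c) b =
        pj Q * f (fun j => incl h.le (b j)) * pj Q) ∧ ‖g‖ ≤ ‖g₂‖ := by
  set A₂ := imgAlg B Q h.inv with hA₂
  let θ : A₂ →L[ℂ] A := (incl h.le).comp (iso h).symm.toContinuousLinearEquiv.toContinuousLinearMap
  let f₂ : Cochain A₂ (m + 1) :=
    (comp Q).compContinuousMultilinearMap (f.compContinuousLinearMap fun _ => θ)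
  have hf₂ : ∀ t, cobdy A₂ f₂ t = 0 := by
    intro t
    have h1 := cob_transport (fun x : A₂ => (x : Q →L[ℂ] Q)) (fun x : A => (x : H →L[ℂ] H))
      (fun s => θ s) (by
        intro s t
        apply Subtype.ext
        change (((iso h).symm (s * t) : B) : H →L[ℂ] H) = _
        rw [iso_symm_mul]
        rfl) (comp Q).toLinearMap (by
        intro s T
        change comp Q ((((iso h).symm s : B) : H →L[ℂ] H) * T) = (s : Q →L[ℂ] Q) * comp Q T
        rw [comp_mul_left Q h.inv ((iso h).symm s).2, comp_iso_symm]) (by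
        intro s T
        change comp Q (T * (((iso h).symm s : B) : H →L[ℂ] H)) = comp Q T * (s : Q →L[ℂ] Q)
        rw [comp_mul_right Q h.inv ((iso h).symm s).2, comp_iso_symm]) (fun c => f c) t
    rw [cobdy_eq]
    refine Eq.trans h1 ?_
    have h2 := hf (fun j => θ (t j))
    rw [cobdy_eq] at h2
    rw [h2, map_zero]
  have hf₂n : ‖f₂‖ ≤ ‖f‖ := by
    refine ContinuousMultilinearMap.opNorm_le_bound (norm_nonneg f) fun t => ?_
    change ‖comp Q (f (fun j => θ (t j)))‖ ≤ _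
    calc ‖comp Q (f (fun j => θ (t j)))‖ ≤ ‖f (fun j => θ (t j))‖ := norm_comp_le _
      _ ≤ ‖f‖ * ∏ j, ‖θ (t j)‖ := f.le_opNorm _
      _ = ‖f‖ * ∏ j, ‖t j‖ := by
          congr 1
          refine Finset.prod_congr rfl fun j _ => ?_
          change ‖(iso h).symm (t j)‖ = _
          exact (iso h).symm.norm_map _
  refine ⟨f₂, hf₂, hf₂n, fun g₂ hg₂ => ?_⟩
  refine ⟨(expd Q).compContinuousMultilinearMap (g₂.compContinuousLinearMap fun _ =>
    (iso h).toContinuousLinearEquiv.toContinuousLinearMap), fun b => ?_, ?_⟩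
  swap
  · refine ContinuousMultilinearMap.opNorm_le_bound (norm_nonneg g₂) fun b => ?_
    change ‖expd Q (g₂ (fun j => iso h (b j)))‖ ≤ _
    calc ‖expd Q (g₂ (fun j => iso h (b j)))‖ ≤ ‖g₂ (fun j => iso h (b j))‖ := norm_expd_le _
      _ ≤ ‖g₂‖ * ∏ j, ‖iso h (b j)‖ := g₂.le_opNorm _
      _ = ‖g₂‖ * ∏ j, ‖b j‖ := by
          congr 1
          refine Finset.prod_congr rfl fun j _ => ?_
          exact (iso h).norm_map _
  have h1 := cob_transport (fun x : B => (x : H →L[ℂ] H)) (fun x : A₂ => (x : Q →L[ℂ] Q))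
      (fun s => iso h s) (iso_mul h) (expd Q).toLinearMap (by
        intro s T
        exact expd_mul_left Q h.inv s.2 T) (by
        intro s T
        exact expd_mul_right Q h.inv s.2 T) (fun c => g₂ c) b
  refine Eq.trans h1 ?_
  have h2 := hg₂ (fun j => iso h (b j))
  rw [cobdy_eq] at h2
  rw [h2]
  have h3 : f₂ (fun j => iso h (b j)) = comp Q (f (fun j => incl h.le (b j))) := by
    change comp Q (f (fun j => θ (iso h (b j)))) = _
    congr 2
    funext j
    change incl h.le ((iso h).symm (iso h (b j))) = _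
    rw [LinearIsometryEquiv.symm_apply_apply]
  rw [h3]
  exact expd_comp Q _

theorem stepB (h : Adm A B Q) (m : ℕ)
    (hb : CohomologyVanishes (imgAlg B Q h.inv) m)
    (f : Cochain A (m + 1)) (hf : ∀ a, cobdy A f a = 0) :
    ∃ g : ContinuousMultilinearMap ℂ (fun _ : Fin m => B) (H →L[ℂ] H),
      ∀ b : Fin (m + 1) → B, cob (fun x : B => (x : H →L[ℂ] H)) (fun c => g c) b =
        pj Q * f (fun j => incl h.le (b j)) * pj Q := by
  obtain ⟨f₂, hf₂, -, hs⟩ := stepB' h m f hf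
  obtain ⟨g₂, hg₂⟩ := hb f₂ hf₂
  obtain ⟨g, hg, -⟩ := hs g₂ hg₂
  exact ⟨g, hg⟩

theorem stepBK (h : Adm A B Q) (m : ℕ) {K : ℝ}
    (hb : VanishesWith (imgAlg B Q h.inv) m K)
    (f : Cochain A (m + 1)) (hf : ∀ a, cobdy A f a = 0) :
    ∃ g : ContinuousMultilinearMap ℂ (fun _ : Fin m => B) (H →L[ℂ] H),
      (∀ b : Fin (m + 1) → B, cob (fun x : B => (x : H →L[ℂ] H)) (fun c => g c) b =
        pj Q * f (fun j => incl h.le (b j)) * pj Q) ∧ ‖g‖ ≤ |K| * ‖f‖ := by
  obtain ⟨f₂, hf₂, hn, hs⟩ := stepB' h m f hf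
  obtain ⟨g₂, hg₂, hgn⟩ := hb f₂ hf₂
  obtain ⟨g, hg, hgn'⟩ := hs g₂ hg₂
  refine ⟨g, hg, hgn'.trans (hgn.trans ?_)⟩
  have h1 : K * ‖f₂‖ ≤ |K| * ‖f₂‖ := mul_le_mul_of_nonneg_right (le_abs_self K) (by positivity)
  exact h1.trans (mul_le_mul_of_nonneg_left hn (abs_nonneg K))

end

/-- Uniform bound over a countably directed family of pairs. -/
theorem stepC {A : NonUnitalStarSubalgebra ℂ (H →L[ℂ] H)} {ι : Type*}
    (Bi : ι → NonUnitalStarSubalgebra ℂ (H →L[ℂ] H)) (Qi : ι → Submodule ℂ H)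
    [∀ i, CompleteSpace (Qi i)] (hp : ∀ i, Pair A (Bi i) (Qi i))
    (hdir : ∀ s : ℕ → ι, ∃ i, ∀ k, Bi (s k) ≤ Bi i ∧ Qi (s k) ≤ Qi i)
    (m : ℕ) (f : Cochain A (m + 1))
    (hB : ∀ i, ∃ g : ContinuousMultilinearMap ℂ (fun _ : Fin m => Bi i) (H →L[ℂ] H),
      ∀ b : Fin (m + 1) → Bi i, cob (fun x : Bi i => (x : H →L[ℂ] H)) (fun c => g c) b =
        pj (Qi i) * f (fun j => incl (hp i).le (b j)) * pj (Qi i)) :
    ∃ K : ℝ, 0 ≤ K ∧ ∀ i,
      ∃ g : ContinuousMultilinearMap ℂ (fun _ : Fin m => Bi i) (H →L[ℂ] H),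
      (∀ b : Fin (m + 1) → Bi i, cob (fun x : Bi i => (x : H →L[ℂ] H)) (fun c => g c) b =
        pj (Qi i) * f (fun j => incl (hp i).le (b j)) * pj (Qi i)) ∧ ‖g‖ ≤ K := by
  classical
  by_contra hcon
  push Not at hcon
  choose s hgk using fun k : ℕ => hcon k (Nat.cast_nonneg k)
  obtain ⟨i, hi⟩ := hdir s
  set Bk := fun k => Bi (s k) with hBk
  set Qk := fun k => Qi (s k) with hQk'
  have hk : ∀ k, Pair A (Bk k) (Qk k) := fun k => hp (s k)
  have hBle : ∀ k, Bk k ≤ Bi i := fun k => (hi k).1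
  have hQle : ∀ k, Qk k ≤ Qi i := fun k => (hi k).2
  have hQk : ∀ k, CompleteSpace (Qk k) := fun k => inferInstanceAs (CompleteSpace (Qi (s k)))
  set B := Bi i with hBdef
  set Q := Qi i with hQdef
  obtain ⟨g, hg⟩ := hB i
  obtain ⟨k, hkn⟩ := exists_nat_ge ‖g‖
  have := hQk k
  -- compress to the k-th pair
  let c : (H →L[ℂ] H) →L[ℂ] (H →L[ℂ] H) := (expd (Qk k)).comp (comp (Qk k))
  have hc : ∀ T, c T = pj (Qk k) * T * pj (Qk k) := fun T => expd_comp (Qk k) T
  let g' : ContinuousMultilinearMap ℂ (fun _ : Fin m => Bk k) (H →L[ℂ] H) :=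
    c.compContinuousMultilinearMap (g.compContinuousLinearMap fun _ => incl (hBle k))
  have h1 : ∀ b : Fin (m + 1) → Bk k, cob (fun x : Bk k => (x : H →L[ℂ] H)) (fun c => g' c) b =
        pj (Qk k) * f (fun j => incl (hk k).le (b j)) * pj (Qk k) := by
    intro b
    have h2 := cob_transport (fun x : Bk k => (x : H →L[ℂ] H)) (fun x : B => (x : H →L[ℂ] H))
      (fun s => incl (hBle k) s) (fun _ _ => rfl) c.toLinearMap (by
        intro s T
        change c ((s : H →L[ℂ] H) * T) = (s : H →L[ℂ] H) * c T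
        rw [hc, hc, ← mul_assoc (pj (Qk k)), pj_comm (Qk k) (hk k).inv s.2]
        simp only [mul_assoc]) (by
        intro s T
        change c (T * (s : H →L[ℂ] H)) = c T * (s : H →L[ℂ] H)
        rw [hc, hc]
        have := pj_comm (Qk k) (hk k).inv s.2
        simp only [mul_assoc]
        rw [this]) (fun c => g c) b
    refine Eq.trans h2 ?_
    rw [hg]
    change c (pj Q * f (fun j => incl (hk k).le (b j)) * pj Q) = _
    rw [hc]
    have h3 : pj Q * pj (Qk k) = pj (Qk k) := by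
      ext x
      exact pj_of_mem Q (hQle k (pj_mem (Qk k) x))
    have h4 : pj (Qk k) * pj Q = pj (Qk k) := by
      refine ContinuousLinearMap.ext fun x => ext_inner_left ℂ fun y => ?_
      change inner ℂ y (pj (Qk k) (pj Q x)) = inner ℂ y (pj (Qk k) x)
      rw [← pj_selfAdjoint, ← pj_selfAdjoint, pj_of_mem Q (hQle k (pj_mem (Qk k) y)),
        pj_selfAdjoint]
    calc pj (Qk k) * (pj Q * f (fun j => incl (hk k).le (b j)) * pj Q) * pj (Qk k)
        = (pj (Qk k) * pj Q) * f (fun j => incl (hk k).le (b j)) * (pj Q * pj (Qk k)) := by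
          simp only [mul_assoc]
      _ = _ := by rw [h3, h4]
  have h2 := hgk k g' h1
  have h3 : ‖g'‖ ≤ ‖g‖ := by
    refine ContinuousMultilinearMap.opNorm_le_bound (by positivity) fun b => ?_
    change ‖c (g (fun j => incl (hBle k) (b j)))‖ ≤ _
    rw [hc]
    calc ‖pj (Qk k) * g (fun j => incl (hBle k) (b j)) * pj (Qk k)‖
        ≤ ‖pj (Qk k)‖ * ‖g (fun j => incl (hBle k) (b j))‖ * ‖pj (Qk k)‖ := by
          refine (norm_mul_le _ _).trans ?_
          gcongr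
          exact norm_mul_le _ _
      _ ≤ 1 * ‖g (fun j => incl (hBle k) (b j))‖ * 1 := by
          gcongr
          · exact norm_pj_le _
          · exact norm_pj_le _
      _ = ‖g (fun j => incl (hBle k) (b j))‖ := by ring
      _ ≤ ‖g‖ * ∏ j, ‖incl (hBle k) (b j)‖ := g.le_opNorm _
      _ = ‖g‖ * ∏ j, ‖b j‖ := rfl
  linarith

end Pool.H5Coh
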