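import Pool.Agent.H5.Coh.StepB

/-!
# The limit over all separable pairs
-/

set_option linter.unusedSectionVars false

namespace Pool.H5Coh

open TopologicalSpace Filter Topology

variable {H : Type*} [NormedAddCommGroup H] [InnerProductSpace ℂ H] [CompleteSpace H]

/-- restriction of an element to a subalgebra (zero if it does not belong to it). -/
noncomputable def rs {A : NonUnitalStarSubalgebra ℂ (H →L[ℂ] H)}
    (B : NonUnitalStarSubalgebra ℂ (H →L[ℂ] H)) (a : A) : B :=
  open Classical in if h : (a : H →L[ℂ] H) ∈ B then ⟨a, h⟩ else 0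

section rs

variable {A : NonUnitalStarSubalgebra ℂ (H →L[ℂ] H)} {B : NonUnitalStarSubalgebra ℂ (H →L[ℂ] H)}

theorem rs_coe {a : A} (h : (a : H →L[ℂ] H) ∈ B) : ((rs B a : B) : H →L[ℂ] H) = a := by
  simp [rs, h]

theorem norm_rs_le (a : A) : ‖rs B a‖ ≤ ‖a‖ := by
  unfold rs
  split_ifs
  · exact le_refl _
  · simp

theorem rs_add {a b : A} (ha : (a : H →L[ℂ] H) ∈ B) (hb : (b : H →L[ℂ] H) ∈ B) :
    rs B (a + b) = rs B a + rs B b := by
  apply Subtype.ext
  rw [rs_coe (by exact add_mem ha hb)]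
  change (a : H →L[ℂ] H) + b = (rs B a : H →L[ℂ] H) + (rs B b : H →L[ℂ] H)
  rw [rs_coe ha, rs_coe hb]

theorem rs_mul {a b : A} (ha : (a : H →L[ℂ] H) ∈ B) (hb : (b : H →L[ℂ] H) ∈ B) :
    rs B (a * b) = rs B a * rs B b := by
  apply Subtype.ext
  rw [rs_coe (by exact mul_mem ha hb)]
  change (a : H →L[ℂ] H) * b = (rs B a : H →L[ℂ] H) * (rs B b : H →L[ℂ] H)
  rw [rs_coe ha, rs_coe hb]

theorem rs_smul {a : A} (c : ℂ) (ha : (a : H →L[ℂ] H) ∈ B) :
    rs B (c • a) = c • rs B a := by
  apply Subtype.ext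
  rw [rs_coe (by exact SMulMemClass.smul_mem c ha)]
  change c • (a : H →L[ℂ] H) = c • (rs B a : H →L[ℂ] H)
  rw [rs_coe ha]

theorem contract_rs {n : ℕ} (i : Fin n) (a : Fin (n + 1) → A)
    (ha : ∀ j, (a j : H →L[ℂ] H) ∈ B) :
    contract i (fun j => rs B (a j)) = fun j => rs B (contract i a j) := by
  funext j
  unfold contract
  split_ifs
  · rfl
  · exact (rs_mul (ha _) (ha _)).symm
  · rfl

end rs

theorem stepD {A : NonUnitalStarSubalgebra ℂ (H →L[ℂ] H)}
    (m : ℕ) (f : Cochain A (m + 1)) (K : ℝ) (hK : 0 ≤ K)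
    (hB : ∀ i : Finset A × Finset H,
      ∃ (B : NonUnitalStarSubalgebra ℂ (H →L[ℂ] H)) (Q : Submodule ℂ H) (_ : CompleteSpace Q)
      (h : Pair A B Q), ((fun a : A => (a : H →L[ℂ] H)) '' (i.1 : Set A)) ⊆ B ∧
        (i.2 : Set H) ⊆ Q ∧
      ∃ g : ContinuousMultilinearMap ℂ (fun _ : Fin m => B) (H →L[ℂ] H),
      (∀ b : Fin (m + 1) → B, cob (fun x : B => (x : H →L[ℂ] H)) (fun c => g c) b =
        pj Q * f (fun j => incl h.le (b j)) * pj Q) ∧ ‖g‖ ≤ K) :
    ∃ g : Cochain A m, (∀ a, cobdy A g a = f a) ∧ ‖g‖ ≤ K := by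
  classical
  choose B Q hcs adm hS hX g hgc hgn using hB
  set G : (Finset A × Finset H) → (Fin m → A) → (H →L[ℂ] H) :=
    fun i a => g i (fun j => rs (B i) (a j)) with hG
  have hGn : ∀ i a, ‖G i a‖ ≤ K * ∏ j, ‖a j‖ := by
    intro i a
    calc ‖G i a‖ ≤ ‖g i‖ * ∏ j, ‖rs (B i) (a j)‖ := (g i).le_opNorm _
      _ ≤ K * ∏ j, ‖a j‖ := by
          gcongr
          · exact hgn i
          · exact norm_rs_le _
  set U : Ultrafilter (Finset A × Finset H) := Ultrafilter.of atTop with hU
  have hUle : (U : Filter (Finset A × Finset H)) ≤ atTop := Ultrafilter.of_le _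
  have evA : ∀ a : A, ∀ᶠ i in (U : Filter (Finset A × Finset H)), (a : H →L[ℂ] H) ∈ B i := by
    intro a
    have h1 : ∀ᶠ i : Finset A × Finset H in atTop, (({a} : Finset A), (∅ : Finset H)) ≤ i :=
      eventually_ge_atTop _
    refine (h1.filter_mono hUle).mono fun i hi => hS i ⟨a, ?_, rfl⟩
    exact hi.1 (by simp)
  have evH : ∀ x : H, ∀ᶠ i in (U : Filter (Finset A × Finset H)), x ∈ Q i := by
    intro x
    have h1 : ∀ᶠ i : Finset A × Finset H in atTop, ((∅ : Finset A), ({x} : Finset H)) ≤ i :=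
      eventually_ge_atTop _
    refine (h1.filter_mono hUle).mono fun i hi => hX i ?_
    exact hi.2 (by simp)
  have hFn : ∀ i a x y, ‖inner ℂ x (G i a y)‖ ≤ K * (∏ j, ‖a j‖) * ‖x‖ * ‖y‖ := by
    intro i a x y
    calc ‖inner ℂ x (G i a y)‖ ≤ ‖x‖ * ‖G i a y‖ := norm_inner_le_norm _ _
      _ ≤ ‖x‖ * (‖G i a‖ * ‖y‖) := by gcongr; exact (G i a).le_opNorm y
      _ ≤ ‖x‖ * ((K * ∏ j, ‖a j‖) * ‖y‖) := by gcongr; exact hGn i a
      _ = _ := by ring
  have hlim : ∀ (a : Fin m → A) (x y : H), ∃ z : ℂ, ‖z‖ ≤ K * (∏ j, ‖a j‖) * ‖x‖ * ‖y‖ ∧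
      Tendsto (fun i => inner ℂ x (G i a y)) (U : Filter (Finset A × Finset H)) (𝓝 z) := by
    intro a x y
    obtain ⟨z, hz1, hz2⟩ := (isCompact_closedBall (0 : ℂ)
      (K * (∏ j, ‖a j‖) * ‖x‖ * ‖y‖)).ultrafilter_le_nhds
      (U.map (fun i => inner ℂ x (G i a y))) (by
        rw [le_principal_iff]
        refine Filter.mem_map.2 (Filter.univ_mem' fun i => ?_)
        simpa using hFn i a x y)
    exact ⟨z, by simpa using hz1, hz2⟩
  choose L hLn hL using hlim
  -- sesquilinearity
  have hx_add : ∀ a x x' y, L a (x + x') y = L a x y + L a x' y := by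
    intro a x x' y
    refine tendsto_nhds_unique (hL a (x + x') y) ?_
    simpa only [inner_add_left] using (hL a x y).add (hL a x' y)
  have hx_smul : ∀ a (c : ℂ) x y, L a (c • x) y = (starRingEnd ℂ) c • L a x y := by
    intro a c x y
    refine tendsto_nhds_unique (hL a (c • x) y) ?_
    simpa only [inner_smul_left, smul_eq_mul] using (hL a x y).const_mul ((starRingEnd ℂ) c)
  have hy_add : ∀ a x y y', L a x (y + y') = L a x y + L a x y' := by
    intro a x y y'
    refine tendsto_nhds_unique (hL a x (y + y')) ?_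
    simpa only [map_add, inner_add_right] using (hL a x y).add (hL a x y')
  have hy_smul : ∀ a (c : ℂ) x y, L a x (c • y) = (RingHom.id ℂ) c • L a x y := by
    intro a c x y
    refine tendsto_nhds_unique (hL a x (c • y)) ?_
    simpa only [map_smul, inner_smul_right, smul_eq_mul, RingHom.id_apply] using
      (hL a x y).const_mul c
  set S : (Fin m → A) → (H →L⋆[ℂ] H →L[ℂ] ℂ) := fun a =>
    LinearMap.mkContinuous₂
      (LinearMap.mk₂'ₛₗ (starRingEnd ℂ) (RingHom.id ℂ) (L a) (hx_add a) (hx_smul a)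
        (hy_add a) (hy_smul a)) (K * ∏ j, ‖a j‖) (fun x y => hLn a x y) with hSdef
  have hSa : ∀ a x y, S a x y = L a x y := fun a x y => rfl
  set T : (Fin m → A) → (H →L[ℂ] H) := fun a =>
    ContinuousLinearMap.adjoint (InnerProductSpace.continuousLinearMapOfBilin (S a)) with hTdef
  have hT : ∀ a x y, inner ℂ x (T a y) = L a x y := by
    intro a x y
    rw [hTdef, ContinuousLinearMap.adjoint_inner_right,
      InnerProductSpace.continuousLinearMapOfBilin_apply]
    exact hSa a x y
  have hTn : ∀ a, ‖T a‖ ≤ K * ∏ j, ‖a j‖ := by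
    intro a
    have hnn : 0 ≤ K * ∏ j, ‖a j‖ := mul_nonneg hK (Finset.prod_nonneg fun j _ => norm_nonneg _)
    refine ContinuousLinearMap.opNorm_le_bound _ hnn fun y => ?_
    by_cases h0 : T a y = 0
    · rw [h0, norm_zero]
      positivity
    have h1 : ‖T a y‖ * ‖T a y‖ ≤ (K * (∏ j, ‖a j‖) * ‖y‖) * ‖T a y‖ := by
      have h2 := hLn a (T a y) y
      rw [← hT, inner_self_eq_norm_sq_to_K] at h2
      have h3 : ‖((‖T a y‖ : ℂ)) ^ 2‖ = ‖T a y‖ * ‖T a y‖ := by
        rw [norm_pow, Complex.norm_real, norm_norm, sq]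
      calc ‖T a y‖ * ‖T a y‖ = ‖((‖T a y‖ : ℂ)) ^ 2‖ := h3.symm
        _ ≤ K * (∏ j, ‖a j‖) * ‖T a y‖ * ‖y‖ := h2
        _ = _ := by ring
    exact le_of_mul_le_mul_right h1 (norm_pos_iff.2 h0)
  -- multilinearity
  have hupd : ∀ (i) (a : Fin m → A) (j : Fin m) (u : A),
      (fun k => rs (B i) (Function.update a j u k)) =
        Function.update (fun k => rs (B i) (a k)) j (rs (B i) u) := by
    intro i a j u
    funext k
    by_cases hk : k = j
    · subst hk; simp
    · simp [hk]
  have hadd : ∀ (a : Fin m → A) (j : Fin m) (u v : A),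
      T (Function.update a j (u + v)) = T (Function.update a j u) + T (Function.update a j v) := by
    intro a j u v
    refine ContinuousLinearMap.ext fun y => ext_inner_left ℂ fun x => ?_
    rw [ContinuousLinearMap.add_apply, inner_add_right, hT, hT, hT]
    refine tendsto_nhds_unique (hL _ x y) ?_
    refine ((hL (Function.update a j u) x y).add (hL (Function.update a j v) x y)).congr' ?_
    filter_upwards [evA u, evA v] with i hu hv
    rw [← inner_add_right, ← ContinuousLinearMap.add_apply]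
    congr 2
    simp only [hG, hupd]
    rw [rs_add hu hv, (g i).map_update_add]
  have hsmul : ∀ (a : Fin m → A) (j : Fin m) (c : ℂ) (u : A),
      T (Function.update a j (c • u)) = c • T (Function.update a j u) := by
    intro a j c u
    refine ContinuousLinearMap.ext fun y => ext_inner_left ℂ fun x => ?_
    rw [ContinuousLinearMap.smul_apply, inner_smul_right, hT, hT]
    refine tendsto_nhds_unique (hL _ x y) ?_
    refine ((hL (Function.update a j u) x y).const_mul c).congr' ?_
    filter_upwards [evA u] with i hu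
    rw [← inner_smul_right, ← ContinuousLinearMap.smul_apply]
    congr 2
    simp only [hG, hupd]
    rw [rs_smul c hu, (g i).map_update_smul]
  let g0 : MultilinearMap ℂ (fun _ : Fin m => A) (H →L[ℂ] H) :=
    { toFun := T
      map_update_add' := by
        intro inst a j u v
        have e : inst = instDecidableEqFin m := Subsingleton.elim _ _
        subst e
        exact hadd a j u v
      map_update_smul' := by
        intro inst a j c u
        have e : inst = instDecidableEqFin m := Subsingleton.elim _ _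
        subst e
        exact hsmul a j c u }
  refine ⟨g0.mkContinuous K hTn, fun a => ?_, MultilinearMap.mkContinuous_norm_le _ hK _⟩
  refine ContinuousLinearMap.ext fun y => ext_inner_left ℂ fun x => ?_
  -- expand the left side
  have hexp : inner ℂ x (cobdy A (g0.mkContinuous K hTn) a y) =
      L (fun i => a i.succ) ((star (a 0 : H →L[ℂ] H)) x) y
        + ∑ i : Fin m, (-1 : ℂ) ^ (i.val + 1) * L (contract i a) x y
        + (-1 : ℂ) ^ (m + 1) * L (fun i => a i.castSucc) x ((a (Fin.last m) : H →L[ℂ] H) y) := by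
    unfold cobdy
    rw [ContinuousLinearMap.add_apply, ContinuousLinearMap.add_apply, inner_add_right,
      inner_add_right, ContinuousLinearMap.sum_apply, inner_sum]
    congr 1
    · congr 1
      · rw [← hT, ContinuousLinearMap.star_eq_adjoint, ContinuousLinearMap.adjoint_inner_left]
        rfl
      · refine Finset.sum_congr rfl fun i _ => ?_
        rw [ContinuousLinearMap.smul_apply, inner_smul_right, ← hT]
        rfl
    · rw [ContinuousLinearMap.smul_apply, inner_smul_right, ← hT]
      rfl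
  rw [hexp]
  have hlim2 : Tendsto (fun i => inner ℂ ((star (a 0 : H →L[ℂ] H)) x) (G i (fun i => a i.succ) y)
        + ∑ k : Fin m, (-1 : ℂ) ^ (k.val + 1) * inner ℂ x (G i (contract k a) y)
        + (-1 : ℂ) ^ (m + 1) * inner ℂ x (G i (fun i => a i.castSucc)
          ((a (Fin.last m) : H →L[ℂ] H) y))) (U : Filter (Finset A × Finset H))
      (𝓝 (L (fun i => a i.succ) ((star (a 0 : H →L[ℂ] H)) x) y
        + ∑ i : Fin m, (-1 : ℂ) ^ (i.val + 1) * L (contract i a) x y
        + (-1 : ℂ) ^ (m + 1) * L (fun i => a i.castSucc) x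
          ((a (Fin.last m) : H →L[ℂ] H) y))) := by
    refine ((hL _ _ _).add ?_).add ((hL _ _ _).const_mul _)
    exact tendsto_finset_sum _ fun k _ => (hL _ _ _).const_mul _
  refine tendsto_nhds_unique hlim2 ?_
  refine Tendsto.congr' ?_ tendsto_const_nhds
  have evall : ∀ᶠ i in (U : Filter (Finset A × Finset H)), ∀ j, (a j : H →L[ℂ] H) ∈ B i :=
    Filter.eventually_all.2 fun j => evA (a j)
  filter_upwards [evall, evH x, evH y] with i hi hx hy
  have h1 := hgc i (fun j => rs (B i) (a j))
  have h2 : (fun j => incl (adm i).le (rs (B i) (a j))) = a := by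
    funext j
    apply Subtype.ext
    exact rs_coe (hi j)
  rw [h2] at h1
  have h3 : inner ℂ x ((pj (Q i) * f a * pj (Q i)) y) = inner ℂ x (f a y) := by
    change inner ℂ x (pj (Q i) (f a (pj (Q i) y))) = _
    rw [← pj_selfAdjoint, pj_of_mem (Q i) hx, pj_of_mem (Q i) hy]
  rw [← h3, ← h1]
  unfold cob
  rw [ContinuousLinearMap.add_apply, ContinuousLinearMap.add_apply, inner_add_right,
    inner_add_right, ContinuousLinearMap.sum_apply, inner_sum]
  congr 1
  · congr 1
    · rw [ContinuousLinearMap.star_eq_adjoint, ContinuousLinearMap.adjoint_inner_left]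
      have := rs_coe (hi 0)
      change inner ℂ x (((rs (B i) (a 0) : B i) : H →L[ℂ] H) _) = _
      rw [this]
      rfl
    · refine Finset.sum_congr rfl fun k _ => ?_
      rw [ContinuousLinearMap.smul_apply, inner_smul_right, contract_rs k a hi]
  · rw [ContinuousLinearMap.smul_apply, inner_smul_right]
    change _ * inner ℂ x ((g i _) (((rs (B i) (a (Fin.last m)) : B i) : H →L[ℂ] H) y)) = _
    rw [rs_coe (hi _)]

end Pool.H5Coh
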