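import Pool.Agent.H5.Coh.SumLp

/-!
# Hilbert sums: the product algebra and its blocks
-/

set_option linter.unusedSectionVars false

namespace Pool.H5Coh

universe u

section

variable {Hk : ℕ → Type u} [∀ k, NormedAddCommGroup (Hk k)] [∀ k, InnerProductSpace ℂ (Hk k)]
  [∀ k, CompleteSpace (Hk k)] {S : Type u} [NormedAddCommGroup S] [InnerProductSpace ℂ S]
  [CompleteSpace S] (D : SumData Hk S)

/-- the `k`-th diagonal block, as a function. -/
noncomputable def blkF (k : ℕ) (T : S →L[ℂ] S) : Hk k →L[ℂ] Hk k :=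
  (D.ev k).comp (T.comp (D.sg k))

theorem blkF_apply (k : ℕ) (T : S →L[ℂ] S) (y : Hk k) :
    blkF D k T y = D.ev k (T (D.sg k y)) := rfl

theorem norm_blkF_le (k : ℕ) (T : S →L[ℂ] S) : ‖blkF D k T‖ ≤ ‖T‖ := by
  calc ‖(D.ev k).comp (T.comp (D.sg k))‖ ≤ ‖D.ev k‖ * ‖T.comp (D.sg k)‖ :=
        ContinuousLinearMap.opNorm_comp_le _ _
    _ ≤ ‖D.ev k‖ * (‖T‖ * ‖D.sg k‖) :=
        mul_le_mul_of_nonneg_left (ContinuousLinearMap.opNorm_comp_le _ _) (norm_nonneg _)
    _ ≤ 1 * (‖T‖ * 1) := by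
        have := D.norm_ev k
        have := D.norm_sg k
        gcongr
    _ = ‖T‖ := by ring

/-- the `k`-th diagonal block. -/
noncomputable def blk (k : ℕ) : (S →L[ℂ] S) →L[ℂ] (Hk k →L[ℂ] Hk k) :=
  LinearMap.mkContinuous
    { toFun := blkF D k
      map_add' := fun S T => by
        ext y
        simp [blkF_apply]
      map_smul' := fun c T => by
        ext y
        simp [blkF_apply] } 1
      (fun T => by rw [one_mul]; exact norm_blkF_le D k T)

theorem blk_apply (k : ℕ) (T : S →L[ℂ] S) (y : Hk k) :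
    blk D k T y = D.ev k (T (D.sg k y)) := rfl

theorem norm_blk_le (k : ℕ) (T : S →L[ℂ] S) : ‖blk D k T‖ ≤ ‖T‖ := norm_blkF_le D k T

/-- block diagonal operators. -/
def IsDiag (T : S →L[ℂ] S) : Prop :=
  ∀ k, ∀ x : S, D.ev k (T x) = blk D k T (D.ev k x)

variable {D}

theorem IsDiag.sg {T : S →L[ℂ] S} (h : IsDiag D T) (k : ℕ) (y : Hk k) :
    T (D.sg k y) = D.sg k (blk D k T y) := by
  apply D.ext
  intro j
  by_cases hj : j = k
  · subst hj
    rw [D.ev_sg, blk_apply]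
  · rw [h j, D.ev_sg_ne j k hj, D.ev_sg_ne j k hj, map_zero]

theorem IsDiag.blk_mul_left {T : S →L[ℂ] S} (h : IsDiag D T) (k : ℕ)
    (R : S →L[ℂ] S) : blk D k (T * R) = blk D k T * blk D k R := by
  ext y
  change D.ev k (T (R (D.sg k y))) = blk D k T (D.ev k (R (D.sg k y)))
  rw [h k]

theorem IsDiag.blk_mul_right {T : S →L[ℂ] S} (h : IsDiag D T) (k : ℕ)
    (R : S →L[ℂ] S) : blk D k (R * T) = blk D k R * blk D k T := by
  ext y
  change D.ev k (R (T (D.sg k y))) = D.ev k (R (D.sg k (blk D k T y)))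
  rw [h.sg]

variable (D)

theorem blk_star (k : ℕ) (T : S →L[ℂ] S) : blk D k (star T) = star (blk D k T) := by
  refine ContinuousLinearMap.ext fun x => ext_inner_left ℂ fun y => ?_
  rw [blk_apply, ← D.inner_sg, ContinuousLinearMap.star_eq_adjoint,
    ContinuousLinearMap.adjoint_inner_right, ContinuousLinearMap.star_eq_adjoint,
    ContinuousLinearMap.adjoint_inner_right, blk_apply]
  have h1 := D.inner_sg k x (T (D.sg k y))
  have h2 := congrArg (starRingEnd ℂ) h1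
  rw [inner_conj_symm, inner_conj_symm] at h2
  exact h2

variable {D}

theorem IsDiag.star {T : S →L[ℂ] S} (h : IsDiag D T) : IsDiag D (star T) := by
  intro k x
  refine ext_inner_left ℂ fun y => ?_
  rw [blk_star, ← D.inner_sg, ContinuousLinearMap.star_eq_adjoint,
    ContinuousLinearMap.adjoint_inner_right, h.sg, D.inner_sg,
    ContinuousLinearMap.star_eq_adjoint, ContinuousLinearMap.adjoint_inner_right]

variable (D)

/-- the product algebra. -/
noncomputable def prodAlg (Ak : ∀ k, NonUnitalStarSubalgebra ℂ (Hk k →L[ℂ] Hk k)) :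
    NonUnitalStarSubalgebra ℂ (S →L[ℂ] S) where
  carrier := {T | IsDiag D T ∧ ∀ k, blk D k T ∈ Ak k}
  add_mem' := by
    rintro S T ⟨hS, hS'⟩ ⟨hT, hT'⟩
    refine ⟨fun k x => ?_, fun k => ?_⟩
    · rw [map_add, ContinuousLinearMap.add_apply, ContinuousLinearMap.add_apply, map_add, hS, hT]
    · rw [map_add]
      exact add_mem (hS' k) (hT' k)
  zero_mem' := by
    refine ⟨fun k x => ?_, fun k => ?_⟩
    · rw [map_zero, ContinuousLinearMap.zero_apply, ContinuousLinearMap.zero_apply, map_zero]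
    · rw [map_zero]; exact zero_mem _
  mul_mem' := by
    rintro S T ⟨hS, hS'⟩ ⟨hT, hT'⟩
    refine ⟨fun k x => ?_, fun k => ?_⟩
    · rw [hS.blk_mul_left]
      change D.ev k (S (T x)) = blk D k S (blk D k T (D.ev k x))
      rw [hS, hT]
    · rw [hS.blk_mul_left]
      exact mul_mem (hS' k) (hT' k)
  smul_mem' := by
    rintro c T ⟨hT, hT'⟩
    refine ⟨fun k x => ?_, fun k => ?_⟩
    · rw [map_smul, ContinuousLinearMap.smul_apply, ContinuousLinearMap.smul_apply, map_smul, hT]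
    · rw [map_smul]
      exact SMulMemClass.smul_mem c (hT' k)
  star_mem' := by
    rintro T ⟨hT, hT'⟩
    refine ⟨hT.star, fun k => ?_⟩
    rw [blk_star]
    exact star_mem (hT' k)

variable (Ak : ∀ k, NonUnitalStarSubalgebra ℂ (Hk k →L[ℂ] Hk k))

theorem prodAlg_closed (hAk : ∀ k, IsClosed (Ak k : Set (Hk k →L[ℂ] Hk k))) :
    IsClosed (prodAlg D Ak : Set (S →L[ℂ] S)) := by
  have h1 : (prodAlg D Ak : Set (S →L[ℂ] S)) =
      (⋂ k, ⋂ x : S, {T | D.ev k (T x) = blk D k T (D.ev k x)}) ∩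
        ⋂ k, (blk D k) ⁻¹' (Ak k : Set (Hk k →L[ℂ] Hk k)) := by
    ext T
    simp only [Set.mem_inter_iff, Set.mem_iInter, Set.mem_ofPred_eq, Set.mem_preimage]
    rfl
  rw [h1]
  refine IsClosed.inter ?_ ?_
  · refine isClosed_iInter fun k => isClosed_iInter fun x => isClosed_eq ?_ ?_
    · fun_prop
    · fun_prop
  · exact isClosed_iInter fun k => (hAk k).preimage (blk D k).continuous

/-- the block of an element of the product algebra. -/
noncomputable def bl (k : ℕ) : prodAlg D Ak →L[ℂ] Ak k :=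
  LinearMap.mkContinuous
    { toFun := fun t => ⟨blk D k t, t.2.2 k⟩
      map_add' := fun s t => Subtype.ext (map_add (blk D k) (s : S →L[ℂ] S) t)
      map_smul' := fun c t => Subtype.ext (map_smul (blk D k) c (t : S →L[ℂ] S)) } 1
      (fun t => by
        rw [one_mul]
        exact norm_blk_le D k t)

theorem bl_coe (k : ℕ) (t : prodAlg D Ak) : ((bl D Ak k t : Ak k) : Hk k →L[ℂ] Hk k) =
    blk D k (t : S →L[ℂ] S) := rfl

theorem bl_mul (k : ℕ) (s t : prodAlg D Ak) :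
    bl D Ak k (s * t) = bl D Ak k s * bl D Ak k t :=
  Subtype.ext (s.2.1.blk_mul_left k t)

theorem norm_bl_le (k : ℕ) (t : prodAlg D Ak) : ‖bl D Ak k t‖ ≤ ‖t‖ := norm_blk_le D k t

/-- inclusion of a factor, as an operator. -/
noncomputable def injOp (k : ℕ) (a : Hk k →L[ℂ] Hk k) : S →L[ℂ] S :=
  (D.sg k).comp (a.comp (D.ev k))

theorem injOp_apply (k : ℕ) (a : Hk k →L[ℂ] Hk k) (x : S) :
    injOp D k a x = D.sg k (a (D.ev k x)) := rfl

theorem blk_injOp (k : ℕ) (a : Hk k →L[ℂ] Hk k) : blk D k (injOp D k a) = a := by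
  ext y
  rw [blk_apply, injOp_apply, D.ev_sg, D.ev_sg]

theorem blk_injOp_ne {k j : ℕ} (hj : j ≠ k) (a : Hk k →L[ℂ] Hk k) :
    blk D j (injOp D k a) = 0 := by
  ext y
  rw [blk_apply, injOp_apply, D.ev_sg_ne j k hj]
  rfl

theorem injOp_mem (k : ℕ) (a : Ak k) : injOp D k (a : Hk k →L[ℂ] Hk k) ∈ prodAlg D Ak := by
  refine ⟨fun j x => ?_, fun j => ?_⟩
  · by_cases hj : j = k
    · subst hj
      rw [blk_injOp, injOp_apply, D.ev_sg]
    · rw [blk_injOp_ne D hj, injOp_apply, D.ev_sg_ne j k hj]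
      rfl
  · by_cases hj : j = k
    · subst hj
      rw [blk_injOp]
      exact a.2
    · rw [blk_injOp_ne D hj]
      exact zero_mem _

theorem norm_injOp_le (k : ℕ) (a : Hk k →L[ℂ] Hk k) : ‖injOp D k a‖ ≤ ‖a‖ := by
  calc ‖(D.sg k).comp (a.comp (D.ev k))‖ ≤ ‖D.sg k‖ * ‖a.comp (D.ev k)‖ :=
        ContinuousLinearMap.opNorm_comp_le _ _
    _ ≤ ‖D.sg k‖ * (‖a‖ * ‖D.ev k‖) :=
        mul_le_mul_of_nonneg_left (ContinuousLinearMap.opNorm_comp_le _ _) (norm_nonneg _)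
    _ ≤ 1 * (‖a‖ * 1) := by
        have := D.norm_ev k
        have := D.norm_sg k
        gcongr
    _ = ‖a‖ := by ring

/-- inclusion of a factor. -/
noncomputable def inj (k : ℕ) : Ak k →L[ℂ] prodAlg D Ak :=
  LinearMap.mkContinuous
    { toFun := fun a => ⟨injOp D k (a : Hk k →L[ℂ] Hk k), injOp_mem D Ak k a⟩
      map_add' := fun a b => by
        apply Subtype.ext
        refine ContinuousLinearMap.ext fun x => ?_
        change D.sg k ((a : Hk k →L[ℂ] Hk k) (D.ev k x) + (b : Hk k →L[ℂ] Hk k) (D.ev k x)) =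
          D.sg k ((a : Hk k →L[ℂ] Hk k) (D.ev k x)) + D.sg k ((b : Hk k →L[ℂ] Hk k) (D.ev k x))
        rw [map_add]
      map_smul' := fun c a => by
        apply Subtype.ext
        refine ContinuousLinearMap.ext fun x => ?_
        change D.sg k (c • (a : Hk k →L[ℂ] Hk k) (D.ev k x)) =
          c • D.sg k ((a : Hk k →L[ℂ] Hk k) (D.ev k x))
        rw [map_smul] } 1
      (fun a => by
        rw [one_mul]
        exact norm_injOp_le D k (a : Hk k →L[ℂ] Hk k))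

theorem inj_coe (k : ℕ) (a : Ak k) : ((inj D Ak k a : prodAlg D Ak) : S →L[ℂ] S) =
    injOp D k (a : Hk k →L[ℂ] Hk k) := rfl

theorem blk_inj (k : ℕ) (a : Ak k) :
    blk D k ((inj D Ak k a : prodAlg D Ak) : S →L[ℂ] S) = a :=
  blk_injOp D k (a : Hk k →L[ℂ] Hk k)

theorem bl_inj (k : ℕ) (a : Ak k) : bl D Ak k (inj D Ak k a) = a :=
  Subtype.ext (blk_inj D Ak k a)

theorem inj_mul (k : ℕ) (a b : Ak k) :
    inj D Ak k (a * b) = inj D Ak k a * inj D Ak k b := by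
  apply Subtype.ext
  refine ContinuousLinearMap.ext fun x => ?_
  change D.sg k ((a : Hk k →L[ℂ] Hk k) ((b : Hk k →L[ℂ] Hk k) (D.ev k x))) =
    D.sg k ((a : Hk k →L[ℂ] Hk k) (D.ev k (D.sg k ((b : Hk k →L[ℂ] Hk k) (D.ev k x)))))
  rw [D.ev_sg]

theorem norm_inj_le (k : ℕ) (a : Ak k) : ‖inj D Ak k a‖ ≤ ‖a‖ :=
  norm_injOp_le D k (a : Hk k →L[ℂ] Hk k)

theorem norm_inj_le_one (k : ℕ) : ‖inj D Ak k‖ ≤ 1 :=
  LinearMap.mkContinuous_norm_le _ zero_le_one _

/-- the block diagonal operator with given bounded blocks. -/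
noncomputable def diagL (T : ∀ k, Hk k →L[ℂ] Hk k) (C : ℝ) (hC : ∀ k, ‖T k‖ ≤ C) :
    S →L[ℂ] S := (D.diag T C hC).choose

theorem ev_diagL (T : ∀ k, Hk k →L[ℂ] Hk k) (C : ℝ) (hC : ∀ k, ‖T k‖ ≤ C) (x : S)
    (k : ℕ) : D.ev k (diagL D T C hC x) = T k (D.ev k x) :=
  (D.diag T C hC).choose_spec.2 k x

theorem norm_diagL_le (T : ∀ k, Hk k →L[ℂ] Hk k) (C : ℝ) (hC : ∀ k, ‖T k‖ ≤ C) :
    ‖diagL D T C hC‖ ≤ C := (D.diag T C hC).choose_spec.1

theorem blk_diagL (T : ∀ k, Hk k →L[ℂ] Hk k) (C : ℝ) (hC : ∀ k, ‖T k‖ ≤ C) (k : ℕ) :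
    blk D k (diagL D T C hC) = T k := by
  ext y
  rw [blk_apply, ev_diagL, D.ev_sg]

end

end Pool.H5Coh
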