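import Pool.Agent.H5.Coh.Basic

/-!
# Hilbert sums of a sequence of Hilbert spaces: the properties used
-/

set_option linter.unusedSectionVars false

namespace Pool.H5Coh

open scoped ENNReal

universe u

/-- The properties of the Hilbert sum `S` of the Hilbert spaces `Hk k` that are used. -/
structure SumData (Hk : ℕ → Type u) [∀ k, NormedAddCommGroup (Hk k)]
    [∀ k, InnerProductSpace ℂ (Hk k)] (S : Type u) [NormedAddCommGroup S]
    [InnerProductSpace ℂ S] where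
  /-- the coordinate maps -/
  ev : ∀ k, S →L[ℂ] Hk k
  /-- the inclusions -/
  sg : ∀ k, Hk k →L[ℂ] S
  norm_ev : ∀ k, ‖ev k‖ ≤ 1
  norm_sg : ∀ k, ‖sg k‖ ≤ 1
  ev_sg : ∀ k y, ev k (sg k y) = y
  ev_sg_ne : ∀ j k, j ≠ k → ∀ y, ev j (sg k y) = 0
  ext : ∀ x y, (∀ k, ev k x = ev k y) → x = y
  inner_sg : ∀ k y x, inner ℂ (sg k y) x = inner ℂ y (ev k x)
  diag : ∀ (T : ∀ k, Hk k →L[ℂ] Hk k) (C : ℝ), (∀ k, ‖T k‖ ≤ C) →
    ∃ D : S →L[ℂ] S, ‖D‖ ≤ C ∧ ∀ k x, ev k (D x) = T k (ev k x)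

variable (Hk : ℕ → Type u) [∀ k, NormedAddCommGroup (Hk k)] [∀ k, InnerProductSpace ℂ (Hk k)]

/-- the Hilbert sum. -/
def HS : Type u := lp Hk 2

noncomputable instance : NormedAddCommGroup (HS Hk) :=
  inferInstanceAs (NormedAddCommGroup (lp Hk 2))

noncomputable instance : InnerProductSpace ℂ (HS Hk) :=
  inferInstanceAs (InnerProductSpace ℂ (lp Hk 2))

instance [∀ k, CompleteSpace (Hk k)] : CompleteSpace (HS Hk) :=
  inferInstanceAs (CompleteSpace (lp Hk 2))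

variable {Hk}

/-- coordinates. -/
def cd (x : HS Hk) (k : ℕ) : Hk k := (show lp Hk 2 from x) k

theorem cd_add (x y : HS Hk) (k : ℕ) : cd (x + y) k = cd x k + cd y k := rfl

theorem cd_smul (c : ℂ) (x : HS Hk) (k : ℕ) : cd (c • x) k = c • cd x k := rfl

theorem cd_ext {x y : HS Hk} (h : ∀ k, cd x k = cd y k) : x = y :=
  lp.ext (funext h)

theorem norm_cd_le (x : HS Hk) (k : ℕ) : ‖cd x k‖ ≤ ‖x‖ :=
  lp.norm_apply_le_norm (p := 2) (by norm_num) (show lp Hk 2 from x) k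

/-- inclusion. -/
noncomputable def sn (k : ℕ) (y : Hk k) : HS Hk := lp.single (E := Hk) 2 k y

theorem cd_sn (k : ℕ) (y : Hk k) : cd (sn k y) k = y := lp.single_apply_self _ _ _

theorem cd_sn_ne {j k : ℕ} (h : j ≠ k) (y : Hk k) : cd (sn k y) j = 0 :=
  lp.single_apply_ne _ _ _ h

theorem sn_add (k : ℕ) (x y : Hk k) : sn k (x + y) = sn k x + sn k y := by
  refine cd_ext fun j => ?_
  by_cases hj : j = k
  · subst hj
    rw [cd_add, cd_sn, cd_sn, cd_sn]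
  · rw [cd_add, cd_sn_ne hj, cd_sn_ne hj, cd_sn_ne hj, add_zero]

theorem sn_smul (k : ℕ) (c : ℂ) (x : Hk k) : sn k (c • x) = c • sn k x := by
  refine cd_ext fun j => ?_
  by_cases hj : j = k
  · subst hj
    rw [cd_smul, cd_sn, cd_sn]
  · rw [cd_smul, cd_sn_ne hj, cd_sn_ne hj, smul_zero]

theorem norm_sn (k : ℕ) (y : Hk k) : ‖sn k y‖ = ‖y‖ :=
  lp.norm_single (E := Hk) (by norm_num) k y

theorem inner_sn (k : ℕ) (y : Hk k) (x : HS Hk) : inner ℂ (sn k y) x = inner ℂ y (cd x k) :=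
  lp.inner_single_left k y (show lp Hk 2 from x)

theorem diag_bound (T : ∀ k, Hk k →L[ℂ] Hk k) (C : ℝ) (hC : ∀ k, ‖T k‖ ≤ C) (x : lp Hk 2)
    (k : ℕ) : ‖T k (x k)‖ ^ (2 : ℝ≥0∞).toReal ≤
      C ^ (2 : ℝ≥0∞).toReal * ‖x k‖ ^ (2 : ℝ≥0∞).toReal := by
  have hC0 : 0 ≤ C := (norm_nonneg _).trans (hC 0)
  rw [← Real.mul_rpow hC0 (norm_nonneg _)]
  exact Real.rpow_le_rpow (norm_nonneg _) ((T k).le_of_opNorm_le (hC k) _) (by norm_num)

theorem diag_summable_right (C : ℝ) (x : lp Hk 2) : Summable fun k => C ^ (2 : ℝ≥0∞).toReal *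
      ‖x k‖ ^ (2 : ℝ≥0∞).toReal :=
  ((lp.memℓp x).summable (by norm_num)).mul_left _

theorem diag_summable (T : ∀ k, Hk k →L[ℂ] Hk k) (C : ℝ) (hC : ∀ k, ‖T k‖ ≤ C) (x : lp Hk 2) :
    Summable fun k => ‖T k (x k)‖ ^ (2 : ℝ≥0∞).toReal :=
  Summable.of_nonneg_of_le (fun k => by positivity) (diag_bound T C hC x)
    (diag_summable_right C x)

/-- the image of a vector under the block diagonal operator with given bounded blocks. -/
noncomputable def dg (T : ∀ k, Hk k →L[ℂ] Hk k) (C : ℝ) (hC : ∀ k, ‖T k‖ ≤ C) (x : lp Hk 2) :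
    lp Hk 2 := ⟨fun k => T k (x k), memℓp_gen (diag_summable T C hC x)⟩

theorem dg_norm (T : ∀ k, Hk k →L[ℂ] Hk k) (C : ℝ) (hC : ∀ k, ‖T k‖ ≤ C) (x : lp Hk 2) :
    ‖dg T C hC x‖ ≤ C * ‖x‖ := by
  have hC0 : 0 ≤ C := (norm_nonneg _).trans (hC 0)
  refine lp.norm_le_of_tsum_le (by norm_num) (mul_nonneg hC0 (norm_nonneg _)) ?_
  calc ∑' k, ‖T k (x k)‖ ^ (2 : ℝ≥0∞).toReal
      ≤ ∑' k, C ^ (2 : ℝ≥0∞).toReal * ‖x k‖ ^ (2 : ℝ≥0∞).toReal :=
        Summable.tsum_le_tsum (diag_bound T C hC x) (diag_summable T C hC x)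
          (diag_summable_right C x)
    _ = C ^ (2 : ℝ≥0∞).toReal * ‖x‖ ^ (2 : ℝ≥0∞).toReal := by
        rw [tsum_mul_left, ← lp.norm_rpow_eq_tsum (by norm_num)]
    _ = (C * ‖x‖) ^ (2 : ℝ≥0∞).toReal := by
        rw [Real.mul_rpow hC0 (norm_nonneg _)]

/-- the block diagonal operator, on `HS`. -/
noncomputable def dgs (T : ∀ k, Hk k →L[ℂ] Hk k) (C : ℝ) (hC : ∀ k, ‖T k‖ ≤ C) (x : HS Hk) :
    HS Hk := dg T C hC x

theorem cd_dgs (T : ∀ k, Hk k →L[ℂ] Hk k) (C : ℝ) (hC : ∀ k, ‖T k‖ ≤ C) (x : HS Hk) (k : ℕ) :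
    cd (dgs T C hC x) k = T k (cd x k) := rfl

theorem dgs_norm (T : ∀ k, Hk k →L[ℂ] Hk k) (C : ℝ) (hC : ∀ k, ‖T k‖ ≤ C) (x : HS Hk) :
    ‖dgs T C hC x‖ ≤ C * ‖x‖ := dg_norm T C hC x

/-- the Hilbert sum has the properties listed in `SumData`. -/
noncomputable def sumData : SumData Hk (HS Hk) where
  ev := fun k => LinearMap.mkContinuous
    { toFun := fun x => cd x k
      map_add' := fun x y => cd_add x y k
      map_smul' := fun c x => cd_smul c x k } 1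
      (fun x => by rw [one_mul]; exact norm_cd_le x k)
  sg := fun k => LinearMap.mkContinuous
    { toFun := fun x => sn k x
      map_add' := fun x y => sn_add k x y
      map_smul' := fun c x => sn_smul k c x } 1
      (fun x => by rw [one_mul]; exact (norm_sn k x).le)
  norm_ev := fun k => LinearMap.mkContinuous_norm_le _ zero_le_one _
  norm_sg := fun k => LinearMap.mkContinuous_norm_le _ zero_le_one _
  ev_sg := fun k y => cd_sn k y
  ev_sg_ne := fun j k h y => cd_sn_ne h y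
  ext := fun x y h => cd_ext h
  inner_sg := fun k y x => inner_sn k y x
  diag := fun T C hC => by
    refine ⟨LinearMap.mkContinuous
      { toFun := fun x => dgs T C hC x
        map_add' := fun x y => cd_ext fun k => ?_
        map_smul' := fun c x => cd_ext fun k => ?_ } C (fun x => dgs_norm T C hC x),
      LinearMap.mkContinuous_norm_le _ ((norm_nonneg _).trans (hC 0)) _, fun k x => ?_⟩
    · rw [cd_add, cd_dgs, cd_dgs, cd_dgs, cd_add, map_add]
    · rw [RingHom.id_apply, cd_smul, cd_dgs, cd_dgs, cd_smul, map_smul]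
    · exact cd_dgs T C hC x k

end Pool.H5Coh
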