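import Pool.Agent.H5.Coh.StepB

/-!
# Adjoining the identity operator
-/

set_option linter.unusedSectionVars false

namespace Pool.H5Coh

open TopologicalSpace Filter Topology

variable {H : Type*} [NormedAddCommGroup H] [InnerProductSpace ℂ H] [CompleteSpace H]
  {A : NonUnitalStarSubalgebra ℂ (H →L[ℂ] H)}

theorem coef_bound (hA : IsClosed (A : Set (H →L[ℂ] H))) (h1 : (1 : H →L[ℂ] H) ∉ A)
    {a : H →L[ℂ] H} (ha : a ∈ A) (c : ℂ) : ‖c‖ ≤ ‖a + c • (1 : H →L[ℂ] H)‖ := by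
  by_contra h
  push Not at h
  have hcpos : 0 < ‖c‖ := (norm_nonneg _).trans_lt h
  have hc : c ≠ 0 := norm_pos_iff.mp hcpos
  set x : H →L[ℂ] H := -(c⁻¹ • a) with hx
  have hxA : x ∈ A := neg_mem (SMulMemClass.smul_mem _ ha)
  set z : H →L[ℂ] H := 1 - x with hz
  have hz1 : z = c⁻¹ • (a + c • (1 : H →L[ℂ] H)) := by
    rw [hz, hx, smul_add, smul_smul, inv_mul_cancel₀ hc, one_smul]
    abel
  have hz2 : ‖z‖ < 1 := by
    rw [hz1, norm_smul, norm_inv]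
    rw [inv_mul_lt_iff₀ hcpos, mul_one]
    exact h
  have hs : ∀ N : ℕ, 1 - z ^ N ∈ A := by
    intro N
    induction N with
    | zero => rw [pow_zero, sub_self]; exact zero_mem _
    | succ N ih =>
      have h3 : 1 - z ^ (N + 1) = (1 - z ^ N) + x - (1 - z ^ N) * x := by
        have h4 : z ^ (N + 1) = z ^ N * (1 - x) := by rw [pow_succ, ← hz]
        rw [h4]
        noncomm_ring
      rw [h3]
      exact sub_mem (add_mem ih hxA) (mul_mem ih hxA)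
  have ht : Tendsto (fun N : ℕ => 1 - z ^ N) atTop (𝓝 (1 - 0)) :=
    tendsto_const_nhds.sub (tendsto_pow_atTop_nhds_zero_of_norm_lt_one hz2)
  rw [sub_zero] at ht
  exact h1 (hA.mem_of_tendsto ht (Eventually.of_forall hs))

/-- `A + ℂ 1`. -/
noncomputable def addOne (A : NonUnitalStarSubalgebra ℂ (H →L[ℂ] H)) :
    NonUnitalStarSubalgebra ℂ (H →L[ℂ] H) where
  carrier := {T | ∃ a ∈ A, ∃ c : ℂ, T = a + c • (1 : H →L[ℂ] H)}
  add_mem' := by
    rintro _ _ ⟨a, ha, c, rfl⟩ ⟨b, hb, d, rfl⟩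
    exact ⟨a + b, add_mem ha hb, c + d, by rw [add_smul]; abel⟩
  zero_mem' := ⟨0, zero_mem _, 0, by simp⟩
  mul_mem' := by
    rintro _ _ ⟨a, ha, c, rfl⟩ ⟨b, hb, d, rfl⟩
    refine ⟨a * b + c • b + d • a, add_mem (add_mem (mul_mem ha hb)
      (SMulMemClass.smul_mem _ hb)) (SMulMemClass.smul_mem _ ha), c * d, ?_⟩
    rw [add_mul, mul_add, mul_add, smul_mul_assoc, one_mul, mul_smul_comm, mul_one,
      smul_mul_assoc, one_mul, smul_smul]
    abel
  smul_mem' := by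
    rintro r _ ⟨a, ha, c, rfl⟩
    exact ⟨r • a, SMulMemClass.smul_mem _ ha, r * c, by rw [smul_add, smul_smul]⟩
  star_mem' := by
    rintro _ ⟨a, ha, c, rfl⟩
    exact ⟨star a, star_mem ha, star c, by rw [star_add, star_smul, star_one]⟩

theorem le_addOne : A ≤ addOne A := fun a ha => ⟨a, ha, 0, by simp⟩

theorem one_mem_addOne : (1 : H →L[ℂ] H) ∈ addOne A := ⟨0, zero_mem _, 1, by simp⟩

/-- the map `(a, c) ↦ a + c`. -/
noncomputable def sumMap (A : NonUnitalStarSubalgebra ℂ (H →L[ℂ] H)) :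
    A × ℂ →ₗ[ℂ] (H →L[ℂ] H) where
  toFun p := (p.1 : H →L[ℂ] H) + p.2 • (1 : H →L[ℂ] H)
  map_add' p q := by
    change ((p.1 : H →L[ℂ] H) + q.1) + (p.2 + q.2) • (1 : H →L[ℂ] H) = _
    rw [add_smul]
    abel
  map_smul' r p := by
    change r • (p.1 : H →L[ℂ] H) + (r * p.2) • (1 : H →L[ℂ] H) = _
    rw [RingHom.id_apply, smul_add, smul_smul]

theorem sumMap_apply (p : A × ℂ) :
    sumMap A p = (p.1 : H →L[ℂ] H) + p.2 • (1 : H →L[ℂ] H) := rfl

theorem norm_one_le_one : ‖(1 : H →L[ℂ] H)‖ ≤ 1 := ContinuousLinearMap.norm_id_le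

theorem norm_le_sumMap (hA : IsClosed (A : Set (H →L[ℂ] H))) (h1 : (1 : H →L[ℂ] H) ∉ A)
    (p : A × ℂ) : ‖p.1‖ ≤ 2 * ‖sumMap A p‖ ∧ ‖p.2‖ ≤ ‖sumMap A p‖ := by
  have h2 : ‖p.2‖ ≤ ‖sumMap A p‖ := coef_bound hA h1 p.1.2 p.2
  refine ⟨?_, h2⟩
  have h3 : (p.1 : H →L[ℂ] H) = sumMap A p - p.2 • (1 : H →L[ℂ] H) := by
    rw [sumMap_apply]; abel
  have h4 : ‖(p.1 : H →L[ℂ] H)‖ ≤ ‖sumMap A p‖ + ‖p.2 • (1 : H →L[ℂ] H)‖ := by
    rw [h3]
    exact norm_sub_le _ _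
  have h5 : ‖p.2 • (1 : H →L[ℂ] H)‖ ≤ ‖p.2‖ := by
    rw [norm_smul]
    exact mul_le_of_le_one_right (norm_nonneg _) norm_one_le_one
  have h6 : ‖p.1‖ = ‖(p.1 : H →L[ℂ] H)‖ := rfl
  rw [h6]
  linarith

theorem addOne_closed (hA : IsClosed (A : Set (H →L[ℂ] H))) (h1 : (1 : H →L[ℂ] H) ∉ A) :
    IsClosed (addOne A : Set (H →L[ℂ] H)) := by
  have hc : CompleteSpace A := hA.completeSpace_coe
  have h2 : (addOne A : Set (H →L[ℂ] H)) = Set.range (sumMap A) := by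
    ext T
    constructor
    · rintro ⟨a, ha, c, rfl⟩
      exact ⟨(⟨a, ha⟩, c), rfl⟩
    · rintro ⟨p, rfl⟩
      exact ⟨p.1, p.1.2, p.2, rfl⟩
  have hbd : ∀ p, ‖sumMap A p‖ ≤ 2 * ‖p‖ := by
    intro p
    rw [sumMap_apply]
    have h5 : ‖p.2 • (1 : H →L[ℂ] H)‖ ≤ ‖p.2‖ := by
      rw [norm_smul]
      exact mul_le_of_le_one_right (norm_nonneg _) norm_one_le_one
    have h6 : ‖(p.1 : H →L[ℂ] H)‖ ≤ ‖p‖ := norm_fst_le p
    have h7 : ‖p.2‖ ≤ ‖p‖ := norm_snd_le p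
    have h8 := norm_add_le (p.1 : H →L[ℂ] H) (p.2 • (1 : H →L[ℂ] H))
    linarith
  let L : A × ℂ →L[ℂ] (H →L[ℂ] H) := (sumMap A).mkContinuous 2 hbd
  have hanti : AntilipschitzWith 2 L := by
    refine AddMonoidHomClass.antilipschitz_of_bound L fun p => ?_
    have h3 := norm_le_sumMap hA h1 p
    have h4 : ‖L p‖ = ‖sumMap A p‖ := rfl
    rw [h4, Prod.norm_def]
    refine max_le ?_ ?_
    · exact h3.1
    · have := norm_nonneg (sumMap A p)
      exact h3.2.trans (by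
        change ‖sumMap A p‖ ≤ 2 * ‖sumMap A p‖
        linarith)
  rw [h2]
  exact hanti.isClosed_range L.uniformContinuous

theorem cstar_insert_one {S : Set (H →L[ℂ] H)} (h1 : (1 : H →L[ℂ] H) ∉ cstar S) :
    cstar (insert 1 S) = addOne (cstar S) := by
  apply le_antisymm
  · refine cstar_le (addOne_closed isClosed_cstar h1) ?_
    rintro T (rfl | hT)
    · exact one_mem_addOne
    · exact le_addOne (subset_cstar hT)
  · rintro _ ⟨a, ha, c, rfl⟩
    refine add_mem ?_ (SMulMemClass.smul_mem _ (subset_cstar (Set.mem_insert _ _)))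
    exact (cstar_le isClosed_cstar ((Set.subset_insert _ _).trans subset_cstar)) ha

theorem cstar_insert_one' {S : Set (H →L[ℂ] H)} (h1 : (1 : H →L[ℂ] H) ∈ cstar S) :
    cstar (insert 1 S) = cstar S := by
  apply le_antisymm
  · refine cstar_le isClosed_cstar ?_
    rintro T (rfl | hT)
    · exact h1
    · exact subset_cstar hT
  · exact cstar_le isClosed_cstar ((Set.subset_insert _ _).trans subset_cstar)

end Pool.H5Coh
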