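import Pool.Agent.H5.Coh.Unit

/-!
# Extension of cocycles to `A + ℂ 1`
-/

set_option linter.unusedSectionVars false

namespace Pool.H5Coh

open TopologicalSpace Filter Topology

variable {H : Type*} [NormedAddCommGroup H] [InnerProductSpace ℂ H] [CompleteSpace H]
  {A : NonUnitalStarSubalgebra ℂ (H →L[ℂ] H)}

theorem sumMap_inj (hA : IsClosed (A : Set (H →L[ℂ] H))) (h1 : (1 : H →L[ℂ] H) ∉ A)
    {p q : A × ℂ} (h : sumMap A p = sumMap A q) : p = q := by
  have h2 : sumMap A (p - q) = 0 := by rw [map_sub, h, sub_self]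
  have h3 := norm_le_sumMap hA h1 (p - q)
  rw [h2, norm_zero, mul_zero] at h3
  have h4 : (p - q).1 = 0 := norm_le_zero_iff.mp h3.1
  have h5 : (p - q).2 = 0 := norm_le_zero_iff.mp h3.2
  have h6 : p - q = 0 := Prod.ext h4 h5
  exact sub_eq_zero.mp h6

theorem exists_pre (t : addOne A) : ∃ p : A × ℂ, sumMap A p = (t : H →L[ℂ] H) := by
  obtain ⟨T, a, ha, c, rfl⟩ := t
  exact ⟨(⟨a, ha⟩, c), rfl⟩

/-- the decomposition of an element of `A + ℂ 1`. -/
noncomputable def pre (t : addOne A) : A × ℂ := (exists_pre t).choose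

theorem sumMap_pre (t : addOne A) : sumMap A (pre t) = (t : H →L[ℂ] H) :=
  (exists_pre t).choose_spec

theorem op_eq (t : addOne A) :
    (t : H →L[ℂ] H) = ((pre t).1 : H →L[ℂ] H) + (pre t).2 • (1 : H →L[ℂ] H) :=
  (sumMap_pre t).symm

theorem pre_eq (hA : IsClosed (A : Set (H →L[ℂ] H))) (h1 : (1 : H →L[ℂ] H) ∉ A)
    {t : addOne A} {p : A × ℂ} (h : sumMap A p = (t : H →L[ℂ] H)) : pre t = p :=
  sumMap_inj hA h1 ((sumMap_pre t).trans h.symm)

/-- the projection of `A + ℂ 1` onto `A`. -/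
noncomputable def qm (hA : IsClosed (A : Set (H →L[ℂ] H))) (h1 : (1 : H →L[ℂ] H) ∉ A) :
    addOne A →L[ℂ] A :=
  LinearMap.mkContinuous
    { toFun := fun t => (pre t).1
      map_add' := fun s t => by
        have h2 : pre (s + t) = pre s + pre t := by
          refine pre_eq hA h1 ?_
          rw [map_add, sumMap_pre, sumMap_pre]
          rfl
        rw [h2]
        rfl
      map_smul' := fun c t => by
        have h2 : pre (c • t) = c • pre t := by
          refine pre_eq hA h1 ?_
          rw [map_smul, sumMap_pre]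
          rfl
        rw [h2]
        rfl } 2
    (fun t => by
      have h3 := (norm_le_sumMap hA h1 (pre t)).1
      rw [sumMap_pre] at h3
      exact h3)

theorem qm_apply (hA : IsClosed (A : Set (H →L[ℂ] H))) (h1 : (1 : H →L[ℂ] H) ∉ A)
    (t : addOne A) : qm hA h1 t = (pre t).1 := rfl

theorem norm_qm_le (hA : IsClosed (A : Set (H →L[ℂ] H))) (h1 : (1 : H →L[ℂ] H) ∉ A)
    (t : addOne A) : ‖qm hA h1 t‖ ≤ 2 * ‖t‖ := by
  have h3 := (norm_le_sumMap hA h1 (pre t)).1
  rw [sumMap_pre] at h3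
  exact h3

theorem qm_mul (hA : IsClosed (A : Set (H →L[ℂ] H))) (h1 : (1 : H →L[ℂ] H) ∉ A)
    (s t : addOne A) : qm hA h1 (s * t) = qm hA h1 s * qm hA h1 t
      + ((pre s).2 • qm hA h1 t + (pre t).2 • qm hA h1 s) := by
  have h2 : pre (s * t) = ((pre s).1 * (pre t).1 + ((pre s).2 • (pre t).1
      + (pre t).2 • (pre s).1), (pre s).2 * (pre t).2) := by
    refine pre_eq hA h1 ?_
    rw [sumMap_apply]
    change ((pre s).1 : H →L[ℂ] H) * (pre t).1 + ((pre s).2 • ((pre t).1 : H →L[ℂ] H)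
      + (pre t).2 • ((pre s).1 : H →L[ℂ] H)) + ((pre s).2 * (pre t).2) • (1 : H →L[ℂ] H) =
      (s : H →L[ℂ] H) * (t : H →L[ℂ] H)
    rw [op_eq s, op_eq t, add_mul, mul_add, mul_add, smul_mul_assoc, one_mul, mul_smul_comm,
      mul_one, smul_mul_assoc, one_mul, smul_smul]
    abel
  rw [qm_apply, h2]
  rfl

section Extend

variable (hA : IsClosed (A : Set (H →L[ℂ] H))) (h1 : (1 : H →L[ℂ] H) ∉ A)

/-- the extended cochain. -/
noncomputable def ext1 {n : ℕ} (f : Cochain A n) : Cochain (addOne A) n :=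
  f.compContinuousLinearMap (fun _ => qm hA h1)

theorem ext1_apply {n : ℕ} (f : Cochain A n) (x : Fin n → addOne A) :
    ext1 hA h1 f x = f (fun j => qm hA h1 (x j)) := rfl

theorem norm_ext1_le {n : ℕ} (f : Cochain A n) : ‖ext1 hA h1 f‖ ≤ 2 ^ n * ‖f‖ := by
  refine ContinuousMultilinearMap.opNorm_le_bound (by positivity) fun x => ?_
  rw [ext1_apply]
  calc ‖f (fun j => qm hA h1 (x j))‖ ≤ ‖f‖ * ∏ j, ‖qm hA h1 (x j)‖ := f.le_opNorm _
    _ ≤ ‖f‖ * ∏ j, (2 * ‖x j‖) := by
        refine mul_le_mul_of_nonneg_left (Finset.prod_le_prod (fun j _ => norm_nonneg _)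
          (fun j _ => norm_qm_le hA h1 (x j))) (by positivity)
    _ = 2 ^ n * ‖f‖ * ∏ j, ‖x j‖ := by
        rw [Finset.prod_mul_distrib, Finset.prod_const, Finset.card_univ, Fintype.card_fin]
        ring

/-- `f` on the tuple with the `k`-th entry omitted. -/
noncomputable def om {n : ℕ} (f : Cochain A n) (a : Fin (n + 1) → A) (k : Fin (n + 1)) :
    H →L[ℂ] H := f (fun j => a (k.succAbove j))

theorem contract_self {n : ℕ} (i : Fin n) (a : Fin (n + 1) → A) :
    contract i a i = a i.castSucc * a i.succ := by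
  unfold contract
  simp

theorem update_contract_succ {n : ℕ} (i : Fin n) (a : Fin (n + 1) → A) :
    Function.update (contract i a) i (a i.succ) = fun j => a (i.castSucc.succAbove j) := by
  funext j
  by_cases hj : j = i
  · subst hj
    rw [Function.update_self, Fin.succAbove_castSucc_self]
  · rw [Function.update_of_ne hj]
    unfold contract
    rcases lt_or_gt_of_ne hj with h | h
    · rw [if_pos h, Fin.succAbove_of_castSucc_lt _ _ (Fin.castSucc_lt_castSucc_iff.mpr h)]
    · rw [if_neg (not_lt.mpr h.le), if_neg hj,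
        Fin.succAbove_of_le_castSucc _ _ (Fin.castSucc_le_castSucc_iff.mpr h.le)]

theorem update_contract_castSucc {n : ℕ} (i : Fin n) (a : Fin (n + 1) → A) :
    Function.update (contract i a) i (a i.castSucc) = fun j => a (i.succ.succAbove j) := by
  funext j
  by_cases hj : j = i
  · subst hj
    rw [Function.update_self, Fin.succAbove_succ_self]
  · rw [Function.update_of_ne hj]
    unfold contract
    rcases lt_or_gt_of_ne hj with h | h
    · rw [if_pos h, Fin.succAbove_of_castSucc_lt _ _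
        ((Fin.castSucc_lt_castSucc_iff.mpr h).trans (Fin.castSucc_lt_succ))]
    · rw [if_neg (not_lt.mpr h.le), if_neg hj,
        Fin.succAbove_of_lt_succ _ _ (Fin.succ_lt_succ_iff.mpr h)]

theorem ext1_contract {n : ℕ} (f : Cochain A n) (x : Fin (n + 1) → addOne A) (i : Fin n) :
    ext1 hA h1 f (contract i x) = f (contract i (fun j => qm hA h1 (x j)))
      + ((pre (x i.castSucc)).2 • om f (fun j => qm hA h1 (x j)) i.castSucc
      + (pre (x i.succ)).2 • om f (fun j => qm hA h1 (x j)) i.succ) := by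
  set a : Fin (n + 1) → A := fun j => qm hA h1 (x j) with ha
  have h2 : (fun j => qm hA h1 (contract i x j)) = Function.update (contract i a) i
      (a i.castSucc * a i.succ + ((pre (x i.castSucc)).2 • a i.succ
        + (pre (x i.succ)).2 • a i.castSucc)) := by
    funext j
    by_cases hj : j = i
    · subst hj
      rw [Function.update_self]
      unfold contract
      rw [if_neg (lt_irrefl _), if_pos rfl]
      exact qm_mul hA h1 _ _
    · rw [Function.update_of_ne hj]
      unfold contract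
      split_ifs
      · rfl
      · rfl
  rw [ext1_apply, h2, f.map_update_add, f.map_update_add, f.map_update_smul,
    f.map_update_smul, update_contract_succ, update_contract_castSucc, ← contract_self,
    Function.update_eq_self]
  rfl

theorem cobdy_ext1 {n : ℕ} (f : Cochain A n) (x : Fin (n + 1) → addOne A) :
    cobdy (addOne A) (ext1 hA h1 f) x = cobdy A f (fun j => qm hA h1 (x j)) := by
  set a : Fin (n + 1) → A := fun j => qm hA h1 (x j) with ha
  set c : Fin (n + 1) → ℂ := fun j => (pre (x j)).2 with hc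
  set G : Fin (n + 1) → (H →L[ℂ] H) := fun k => (-1 : ℂ) ^ (k.val) • (c k • om f a k) with hG
  have hx : ∀ j, ((x j : addOne A) : H →L[ℂ] H) = (a j : H →L[ℂ] H) + c j • (1 : H →L[ℂ] H) :=
    fun j => op_eq (x j)
  have h3 : ((x 0 : addOne A) : H →L[ℂ] H) * ext1 hA h1 f (fun i => x i.succ) =
      (a 0 : H →L[ℂ] H) * f (fun i => a i.succ) + G 0 := by
    rw [hx, add_mul, smul_mul_assoc, one_mul]
    simp only [hG, Fin.val_zero, pow_zero, one_smul]
    rfl
  have h4 : (-1 : ℂ) ^ (n + 1) • (ext1 hA h1 f (fun i => x i.castSucc) *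
      ((x (Fin.last n) : addOne A) : H →L[ℂ] H)) =
      (-1 : ℂ) ^ (n + 1) • (f (fun i => a i.castSucc) * (a (Fin.last n) : H →L[ℂ] H))
        - G (Fin.last n) := by
    rw [hx, mul_add, mul_smul_comm, mul_one, smul_add]
    have h5 : om f a (Fin.last n) = f (fun i => a i.castSucc) := by
      unfold om
      simp only [Fin.succAbove_last]
    have h6 : (ext1 hA h1 f fun i => x i.castSucc) = f (fun i => a i.castSucc) := rfl
    simp only [hG, h5, h6, Fin.val_last, pow_succ]
    simp only [mul_neg, mul_one, neg_smul]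
    abel
  have h7 : ∀ i : Fin n, (-1 : ℂ) ^ (i.val + 1) • ext1 hA h1 f (contract i x) =
      (-1 : ℂ) ^ (i.val + 1) • f (contract i a) + (G i.succ - G i.castSucc) := by
    intro i
    rw [ext1_contract, smul_add, smul_add]
    simp only [hG, Fin.val_succ, Fin.val_castSucc, pow_succ]
    simp only [mul_neg, mul_one, neg_smul]
    abel
  unfold cobdy
  rw [h3, h4, Finset.sum_congr rfl (fun i _ => h7 i), Finset.sum_add_distrib,
    Finset.sum_sub_distrib]
  have h8 : G 0 + ∑ i : Fin n, G i.succ = ∑ i : Fin n, G i.castSucc + G (Fin.last n) := by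
    rw [← Fin.sum_univ_succ, ← Fin.sum_univ_castSucc]
  have h9 : ∑ i : Fin n, G i.succ = ∑ i : Fin n, G i.castSucc + G (Fin.last n) - G 0 := by
    rw [← h8]; abel
  rw [h9]
  abel

end Extend

/-- restriction of a solution. -/
theorem restrict_incl {B : NonUnitalStarSubalgebra ℂ (H →L[ℂ] H)} (hle : A ≤ B) {m : ℕ}
    (g : Cochain B m) : ∃ g' : Cochain A m, ‖g'‖ ≤ ‖g‖ ∧
      ∀ a : Fin (m + 1) → A, cobdy A g' a = cobdy B g (fun j => incl hle (a j)) := by
  let g' : Cochain A m := g.compContinuousLinearMap (fun _ => incl hle)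
  refine ⟨g', ?_, fun a => ?_⟩
  · refine ContinuousMultilinearMap.opNorm_le_bound (by positivity) fun b => ?_
    exact g.le_opNorm (fun j => incl hle (b j))
  · exact cob_transport (fun x : A => (x : H →L[ℂ] H)) (fun x : B => (x : H →L[ℂ] H))
      (fun x => incl hle x) (fun _ _ => rfl) LinearMap.id (fun _ _ => rfl) (fun _ _ => rfl)
      (fun b => g b) a

theorem vanishesWith_of_addOne (hA : IsClosed (A : Set (H →L[ℂ] H)))
    (h1 : (1 : H →L[ℂ] H) ∉ A) {m : ℕ} {K : ℝ} (hK : VanishesWith (addOne A) m K) :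
    VanishesWith A m (|K| * 2 ^ (m + 1)) := by
  intro f hf
  obtain ⟨g, hg, hgn⟩ := hK (ext1 hA h1 f) (fun x => by rw [cobdy_ext1, hf])
  obtain ⟨g', hgn', hg'⟩ := restrict_incl (le_addOne (A := A)) g
  refine ⟨g', fun a => ?_, ?_⟩
  · rw [hg', hg, ext1_apply]
    congr 1
    funext j
    have h2 : pre (incl (le_addOne (A := A)) (a j)) = (a j, 0) := by
      refine pre_eq hA h1 ?_
      rw [sumMap_apply, zero_smul, add_zero]
      rfl
    rw [qm_apply, h2]
  · have h2 : K * ‖ext1 hA h1 f‖ ≤ |K| * ‖ext1 hA h1 f‖ :=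
      mul_le_mul_of_nonneg_right (le_abs_self K) (by positivity)
    have h3 := mul_le_mul_of_nonneg_left (norm_ext1_le hA h1 f) (abs_nonneg K)
    calc ‖g'‖ ≤ ‖g‖ := hgn'
      _ ≤ K * ‖ext1 hA h1 f‖ := hgn
      _ ≤ |K| * ‖ext1 hA h1 f‖ := h2
      _ ≤ |K| * (2 ^ (m + 1) * ‖f‖) := h3
      _ = |K| * 2 ^ (m + 1) * ‖f‖ := by ring

theorem vanishesWith_of_insert_one {S : Set (H →L[ℂ] H)} {m : ℕ} {K : ℝ}
    (hK : VanishesWith (cstar (insert 1 S)) m K) :
    VanishesWith (cstar S) m (|K| * 2 ^ (m + 1)) := by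
  by_cases h1 : (1 : H →L[ℂ] H) ∈ cstar S
  · rw [cstar_insert_one' h1] at hK
    intro f hf
    obtain ⟨g, hg, hgn⟩ := hK f hf
    refine ⟨g, hg, hgn.trans (mul_le_mul_of_nonneg_right ?_ (by positivity))⟩
    have h2 : (1 : ℝ) ≤ 2 ^ (m + 1) := one_le_pow₀ (by norm_num)
    exact (le_abs_self K).trans (le_mul_of_one_le_right (abs_nonneg K) h2)
  · rw [cstar_insert_one h1] at hK
    exact vanishesWith_of_addOne isClosed_cstar h1 hK

end Pool.H5Coh
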